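import Mathlib

namespace Pool.Agent.Helper187.Fac

/-- Purely algebraic end game. -/
theorem algebra_part {A : Type*} [Ring A] [Algebra ℂ A] (τ : A →ₗ[ℂ] ℂ) (hone : τ 1 = 1)
    (htr : ∀ x y, τ (x * y) = τ (y * x))
    (hnd : ∀ x, (∀ z, τ (x * z) = 0) → x = 0)
    (T : A →ₗ[ℂ] A) (hT1 : T 1 = 1) (hsurj : Function.Surjective T)
    (hτT : ∀ x, τ (T x) = τ x) (α β : ℂ)
    (hα : ∀ x z, τ (T x * T z) = α * τ (x * z) + (1 - α) * (τ x * τ z))
    (hβ : ∀ x z, τ x = 0 → τ z = 0 → τ (T x * T x * T z) = β * τ (x * x * z))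
    (u : A) (hu0 : τ u = 0) (hu2 : τ (u * u) ≠ 0)
    (hu : ∀ a b c : ℂ, a • (u * u) + b • u + c • (1 : A) = 0 → a = 0) :
    ∃ S : A →ₗ[ℂ] A, Function.Bijective S ∧ (∀ x, S (x * x) = S x * S x) ∧
      ∃ γ : ℂ, γ ≠ 0 ∧ ∀ x, T x = γ • S x + (1 - γ) • algebraMap ℂ A (τ x) := by
  -- α ≠ 0
  have hα0 : α ≠ 0 := by
    intro h0
    have hsc : ∀ x, T x = τ x • (1 : A) := by
      intro x
      have : T x - τ x • (1 : A) = 0 := by
        apply hnd
        intro b
        obtain ⟨z, rfl⟩ := hsurj b
        rw [sub_mul, map_sub, hα, h0, smul_mul_assoc, one_mul, map_smul, hτT, smul_eq_mul]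
        ring
      exact sub_eq_zero.mp this
    obtain ⟨x, hx⟩ := hsurj u
    rw [hsc] at hx
    have h1 : τ x = 0 := by
      have := congrArg τ hx
      rw [map_smul, hone, hu0, smul_eq_mul, mul_one] at this
      exact this
    rw [h1, zero_smul] at hx
    apply hu2
    rw [← hx]; simp
  have hinj : ∀ x, T x = 0 → x = 0 := by
    intro x hx
    have h1 : τ x = 0 := by rw [← hτT, hx, map_zero]
    apply hnd
    intro z
    have := hα x z
    rw [hx, zero_mul, map_zero, h1] at this
    have h2 : α * τ (x * z) = 0 := by linear_combination -this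
    exact (mul_eq_zero.mp h2).resolve_left hα0
  set γ : ℂ := β / α with hγ
  have hγα : γ * α = β := by rw [hγ]; field_simp
  -- the quadratic relation
  have hD : ∀ x, τ x = 0 → T x * T x = γ • T (x * x - τ (x * x) • 1) + (α * τ (x * x)) • (1 : A) := by
    intro x hx
    have hW : T x * T x - (γ • T (x * x - τ (x * x) • 1) + (α * τ (x * x)) • (1 : A)) = 0 := by
      set W := T x * T x - (γ • T (x * x - τ (x * x) • 1) + (α * τ (x * x)) • (1 : A)) with hWdef
      have hτW : τ W = 0 := by
        rw [hWdef, map_sub, map_add, map_smul, map_smul, hτT, hα, map_sub, map_smul, hone, hx]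
        simp
      have h0 : ∀ z, τ z = 0 → τ (W * T z) = 0 := by
        intro z hz
        rw [hWdef, sub_mul, add_mul, map_sub, map_add, hβ x z hx hz, smul_mul_assoc, smul_mul_assoc,
          one_mul, map_smul, map_smul, hα, hτT, hz, sub_mul, map_sub, smul_mul_assoc, one_mul,
          map_smul, hz]
        simp only [smul_eq_mul, mul_zero, add_zero, sub_zero]
        rw [← hγα]; ring
      apply hnd
      intro b
      obtain ⟨z, rfl⟩ := hsurj b
      have hz : z = (z - τ z • 1) + τ z • 1 := by abel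
      rw [hz, map_add, mul_add, map_add, h0 (z - τ z • 1) (by rw [map_sub, map_smul, hone]; simp),
        map_smul, hT1, mul_smul_comm, mul_one, map_smul, hτW]
      simp
    exact sub_eq_zero.mp hW
  -- polarized relation
  have hP : ∀ x y, τ x = 0 → τ y = 0 → T x * T y + T y * T x =
      γ • T (x * y + y * x - τ (x * y + y * x) • 1) + (α * τ (x * y + y * x)) • (1 : A) := by
    intro x y hx hy
    have h1 := hD (x + y) (by rw [map_add, hx, hy, add_zero])
    have h2 := hD x hx
    have h3 := hD y hy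
    have e1 : (x + y) * (x + y) = x * x + (x * y + y * x) + y * y := by noncomm_ring
    have e2 : T (x + y) * T (x + y) = T x * T x + (T x * T y + T y * T x) + T y * T y := by
      rw [map_add]; noncomm_ring
    rw [e2, e1, h2, h3] at h1
    have h4 : T x * T y + T y * T x =
      (γ • T (x * x + (x * y + y * x) + y * y - τ (x * x + (x * y + y * x) + y * y) • 1) +
        (α * τ (x * x + (x * y + y * x) + y * y)) • 1)
      - (γ • T (x * x - τ (x * x) • 1) + (α * τ (x * x)) • (1 : A))
      - (γ • T (y * y - τ (y * y) • 1) + (α * τ (y * y)) • (1 : A)) := by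
      rw [← h1]; abel
    rw [h4]
    simp only [map_add, map_sub, map_smul]
    module
  -- γ ≠ 0
  have hγ0 : γ ≠ 0 := by
    intro h0
    obtain ⟨x, hx⟩ := hsurj u
    have hx0 : τ x = 0 := by rw [← hτT, hx, hu0]
    have h1 := hD x hx0
    rw [h0, zero_smul, zero_add, hx] at h1
    have h2 := hu 1 0 (-(α * τ (x * x))) (by rw [h1]; module)
    exact one_ne_zero h2
  -- α = γ²
  have hαγ : α = γ ^ 2 := by
    by_contra hne
    set t := τ (u * u) with ht
    set y : A := u * u - t • 1 with hy
    set m := τ (u * u * u) with hm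
    set n := τ (u * u * u * u) with hn
    set w : A := u * u * u - m • 1 with hw
    set X := T u with hX
    set Y := T y with hY
    set W := T w with hW
    set V := T (u * u * u * u - n • 1) with hV
    have hy0 : τ y = 0 := by rw [hy, map_sub, map_smul, hone, ← ht]; simp
    have hw0 : τ w = 0 := by rw [hw, map_sub, map_smul, hone, ← hm]; simp
    have hXX : X * X = γ • Y + (α * t) • (1 : A) := hD u hu0
    have huy : u * y + y * u = (2 : ℂ) • (u * u * u) - (2 * t) • u := by
      rw [hy, mul_sub, sub_mul, mul_smul_comm, smul_mul_assoc, mul_one, one_mul, ← mul_assoc]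
      module
    have hXY2 : X * Y + Y * X = (2 : ℂ) • (γ • W - (γ * t) • X + (α * m) • (1 : A)) := by
      rw [hP u y hu0 hy0, huy]
      simp only [map_add, map_sub, map_smul, hW, hw, ← hm, ← ht, hu0, hT1, smul_eq_mul]
      module
    have hwu : w * u + u * w = (2 : ℂ) • (u * u * u * u) - (2 * m) • u := by
      rw [hw, mul_sub, sub_mul, mul_smul_comm, smul_mul_assoc, mul_one, one_mul]
      have : u * (u * u * u) = u * u * u * u := by noncomm_ring
      rw [this]
      module
    have hXW2 : W * X + X * W = (2 : ℂ) • (γ • V - (γ * m) • X + (α * n) • (1 : A)) := by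
      rw [hP w u hw0 hu0, hwu]
      simp only [map_add, map_sub, map_smul, hV, ← hn, hu0, hT1, smul_eq_mul]
      module
    have hyy : y * y = u * u * u * u - (2 * t) • (u * u) + (t ^ 2) • (1 : A) := by
      rw [hy, mul_sub, sub_mul, sub_mul, mul_smul_comm, mul_smul_comm, smul_mul_assoc, mul_one,
        one_mul, mul_one]
      have : u * u * (u * u) = u * u * u * u := by noncomm_ring
      rw [this]
      module
    have hYY : Y * Y = γ • V - (2 * γ * t) • Y + (α * (n - t ^ 2)) • (1 : A) := by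
      rw [hD y hy0, hyy]
      have hYe : Y = T (u * u) - t • (1 : A) := by rw [hY, hy, map_sub, map_smul, hT1]
      simp only [map_add, map_sub, map_smul, hV, ← hn, ← ht, hT1, smul_eq_mul, hYe, hone]
      module
    -- commutation
    have hYX : Y = γ⁻¹ • (X * X) - (γ⁻¹ * (α * t)) • (1 : A) := by
      rw [hXX, smul_add, smul_smul, inv_mul_cancel₀ hγ0, one_smul, smul_smul]
      abel
    have hcomm : Y * X = X * Y := by
      rw [hYX, sub_mul, mul_sub, smul_mul_assoc, mul_smul_comm, smul_mul_assoc, mul_smul_comm,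
        one_mul, mul_one, mul_assoc]
    have h2c : ∀ P Q : A, (2 : ℂ) • P = (2 : ℂ) • Q → P = Q := by
      intro P Q h
      have := congrArg (fun R => (2 : ℂ)⁻¹ • R) h
      simpa [smul_smul] using this
    have hXY : X * Y = γ • W - (γ * t) • X + (α * m) • (1 : A) := by
      apply h2c
      rw [← hXY2, hcomm]; module
    have hWX : W = γ⁻¹ • (X * Y) + t • X - (γ⁻¹ * (α * m)) • (1 : A) := by
      rw [hXY, smul_add, smul_sub, smul_smul, smul_smul, smul_smul, inv_mul_cancel₀ hγ0, one_smul,
        ← mul_assoc, inv_mul_cancel₀ hγ0, one_mul]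
      abel
    have hcomm2 : W * X = X * W := by
      have e : X * Y * X = X * (X * Y) := by rw [mul_assoc, hcomm]
      rw [hWX, sub_mul, add_mul, mul_sub, mul_add, smul_mul_assoc, mul_smul_comm, smul_mul_assoc,
        mul_smul_comm, smul_mul_assoc, mul_smul_comm, one_mul, mul_one, e]
    have hXW : X * W = γ • V - (γ * m) • X + (α * n) • (1 : A) := by
      apply h2c
      rw [← hXW2, hcomm2]; module
    -- X^4 in two ways
    have h4a : X * X * (X * X) = (γ ^ 2) • (Y * Y) + (2 * (γ * (α * t))) • Y + ((α * t) ^ 2) • (1 : A) := by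
      rw [hXX]
      simp only [mul_add, add_mul, smul_mul_assoc, mul_smul_comm, mul_one, one_mul]
      module
    have h4b : X * X * (X * X) = γ • (γ • (X * W) - (γ * t) • (X * X) + (α * m) • X) +
        (α * t) • (X * X) := by
      have e1 : X * X * (X * X) = X * (X * (X * X)) := by noncomm_ring
      have e2 : X * (X * X) = γ • (X * Y) + (α * t) • X := by
        rw [hXX, mul_add, mul_smul_comm, mul_smul_comm, mul_one]
      rw [e1, e2, mul_add, mul_smul_comm, mul_smul_comm]
      have e3 : X * (X * Y) = γ • (X * W) - (γ * t) • (X * X) + (α * m) • X := by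
        rw [hXY, mul_add, mul_sub, mul_smul_comm, mul_smul_comm, mul_smul_comm, mul_one]
      rw [e3]
    rw [h4a, hYY, hXW, hXX] at h4b
    have hfin : (γ * (α - γ ^ 2)) • (m • X - t • Y) = 0 := by
      have : (γ ^ 2) • (γ • V - (2 * γ * t) • Y + (α * (n - t ^ 2)) • (1 : A)) +
          (2 * (γ * (α * t))) • Y + ((α * t) ^ 2) • (1 : A) -
          (γ • (γ • (γ • V - (γ * m) • X + (α * n) • (1 : A)) - (γ * t) • (γ • Y + (α * t) • (1 : A)) +
            (α * m) • X) + (α * t) • (γ • Y + (α * t) • (1 : A))) = 0 := sub_eq_zero.mpr h4b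
      have h5 : (γ * (α - γ ^ 2)) • (m • X - t • Y) = -((γ ^ 2) • (γ • V - (2 * γ * t) • Y + (α * (n - t ^ 2)) • (1 : A)) +
          (2 * (γ * (α * t))) • Y + ((α * t) ^ 2) • (1 : A) -
          (γ • (γ • (γ • V - (γ * m) • X + (α * n) • (1 : A)) - (γ * t) • (γ • Y + (α * t) • (1 : A)) +
            (α * m) • X) + (α * t) • (γ • Y + (α * t) • (1 : A)))) := by
        module
      rw [h5, this, neg_zero]
    have hne' : γ * (α - γ ^ 2) ≠ 0 := mul_ne_zero hγ0 (sub_ne_zero.mpr hne)
    have h6 : m • X - t • Y = 0 := (smul_eq_zero.mp hfin).resolve_left hne'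
    have h7 : T (m • u - t • y) = 0 := by rw [map_sub, map_smul, map_smul]; exact h6
    have h8 := hinj _ h7
    have h9 := hu (-t) m (t ^ 2) (by
      rw [← h8, hy]; module)
    exact hu2 (neg_eq_zero.mp h9)
  -- the map S
  let S : A →ₗ[ℂ] A := γ⁻¹ • (T - (1 - γ) • (LinearMap.toSpanSingleton ℂ A 1 ∘ₗ τ))
  have hS : ∀ x, S x = γ⁻¹ • (T x - ((1 - γ) * τ x) • (1 : A)) := by
    intro x
    simp only [S, LinearMap.smul_apply, LinearMap.sub_apply, LinearMap.comp_apply,
      LinearMap.toSpanSingleton_apply, smul_smul]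
  have hTS : ∀ x, T x = γ • S x + (1 - γ) • algebraMap ℂ A (τ x) := by
    intro x
    rw [hS, smul_smul, mul_inv_cancel₀ hγ0, one_smul, Algebra.algebraMap_eq_smul_one, smul_smul]
    abel
  have hS1 : S 1 = 1 := by
    rw [hS, hT1, hone]
    have : (1 : A) - ((1 - γ) * 1) • (1 : A) = γ • 1 := by module
    rw [this, smul_smul, inv_mul_cancel₀ hγ0, one_smul]
  have hτS : ∀ x, τ (S x) = τ x := by
    intro x
    rw [hS, map_smul, map_sub, map_smul, hτT, hone, smul_eq_mul, smul_eq_mul]
    field_simp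
    ring
  refine ⟨S, ⟨?_, ?_⟩, ?_, γ, hγ0, hTS⟩
  · rw [injective_iff_map_eq_zero]
    intro x hx
    have h1 : τ x = 0 := by rw [← hτS, hx, map_zero]
    have h2 : T x = 0 := by rw [hTS, hx, h1, map_zero, smul_zero, smul_zero, add_zero]
    exact hinj x h2
  · intro b
    obtain ⟨x, hx⟩ := hsurj (γ • (b - τ b • 1))
    have hx0 : τ x = 0 := by
      rw [← hτT, hx, map_smul, map_sub, map_smul, hone]; simp
    refine ⟨x + τ b • 1, ?_⟩
    rw [map_add, map_smul, hS1, hS, hx, hx0, smul_sub, smul_smul, inv_mul_cancel₀ hγ0, one_smul,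
      mul_zero, zero_smul, smul_zero, sub_zero]
    abel
  · -- Jordan
    have hJ0 : ∀ x, τ x = 0 → S (x * x) = S x * S x := by
      intro x hx
      have h1 := hD x hx
      have e1 : S x = γ⁻¹ • T x := by rw [hS, hx, mul_zero, zero_smul, sub_zero]
      have e2 : T (x * x - τ (x * x) • 1) = T (x * x) - τ (x * x) • (1 : A) := by
        rw [map_sub, map_smul, hT1]
      rw [e1, smul_mul_smul_comm, h1, e2, hS, hαγ]
      have e3 : γ⁻¹ * γ⁻¹ = (γ ^ 2)⁻¹ := by rw [pow_two, mul_inv]
      rw [e3]
      have e4 : (γ ^ 2)⁻¹ • (γ • (T (x * x) - τ (x * x) • (1 : A)) + (γ ^ 2 * τ (x * x)) • (1 : A))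
          = γ⁻¹ • T (x * x) + ((γ ^ 2)⁻¹ * (γ ^ 2 * τ (x * x)) - γ⁻¹ * τ (x * x)) • (1 : A) := by
        rw [smul_add, smul_smul, smul_smul]
        have : (γ ^ 2)⁻¹ * γ = γ⁻¹ := by field_simp
        rw [this]
        module
      rw [e4, smul_sub, smul_smul]
      have e5 : (γ ^ 2)⁻¹ * (γ ^ 2 * τ (x * x)) = τ (x * x) := by field_simp
      rw [e5]
      have e6 : γ⁻¹ * ((1 - γ) * τ (x * x)) = γ⁻¹ * τ (x * x) - τ (x * x) := by
        field_simp
      rw [e6]
      module
    intro x
    set c := τ x with hc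
    set z : A := x - c • 1 with hz
    have hz0 : τ z = 0 := by rw [hz, map_sub, map_smul, hone, ← hc]; simp
    have hx : x = z + c • 1 := by rw [hz]; abel
    have e1 : x * x = z * z + (2 * c) • z + (c ^ 2) • (1 : A) := by
      rw [hx, mul_add, add_mul, add_mul, smul_mul_assoc, mul_smul_comm, mul_smul_comm, mul_one,
        one_mul, mul_one]
      module
    have e2 : S x = S z + c • 1 := by rw [hx, map_add, map_smul, hS1]
    rw [e1, e2, map_add, map_add, map_smul, map_smul, hS1, hJ0 z hz0, mul_add, add_mul, add_mul,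
      smul_mul_assoc, mul_smul_comm, mul_smul_comm, mul_one, one_mul, mul_one]
    module

end Pool.Agent.Helper187.Fac
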