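import Mathlib

namespace Pool.Agent.Helper187.Fac

section aux
variable {A : Type*} [CStarAlgebra A] (τ : A →ₗ[ℂ] ℂ)
    (hpos : ∀ x, 0 ≤ (τ (star x * x)).re ∧ (τ (star x * x)).im = 0) (hone : τ 1 = 1)

include hpos hone in
lemma trace_star (x : A) : τ (star x) = (starRingEnd ℂ) (τ x) := by
  have h1 := (hpos (1 + x)).2
  have h2 := (hpos (1 + Complex.I • x)).2
  have h3 := (hpos x).2
  have e1 : star (1 + x) * (1 + x) = 1 + x + star x + star x * x := by
    simp only [star_add, star_one]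
    noncomm_ring
  have e2 : star (1 + Complex.I • x) * (1 + Complex.I • x) =
      1 + Complex.I • x - Complex.I • star x + star x * x := by
    simp only [star_add, star_one, star_smul, add_mul, mul_add, one_mul, mul_one, smul_mul_assoc,
      mul_smul_comm]
    have : star Complex.I = -Complex.I := Complex.conj_I
    rw [this]
    have h0 : Complex.I • -Complex.I • (star x * x) = star x * x := by
      rw [smul_smul, mul_neg, Complex.I_mul_I, neg_neg, one_smul]
    simp only [smul_add, h0]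
    rw [neg_smul]
    abel
  rw [e1] at h1
  rw [e2] at h2
  simp only [map_add, map_sub, map_smul, hone, smul_eq_mul] at h1 h2
  simp at h1 h2
  apply Complex.ext
  · rw [Complex.conj_re]; linarith
  · rw [Complex.conj_im]; linarith

include hpos hone in
lemma trace_norm_le (x : A) : ‖τ x‖ ≤ ‖x‖ := by
  letI := CStarAlgebra.spectralOrder A
  haveI := CStarAlgebra.spectralOrderedRing A
  have h1 : (τ (star x * x)).re ≤ ‖x‖ ^ 2 := by
    have h2 : star x * x ≤ algebraMap ℝ A (‖x‖ ^ 2) := CStarAlgebra.star_mul_le_algebraMap_norm_sq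
    obtain ⟨y, hy⟩ := CStarAlgebra.nonneg_iff_eq_star_mul_self.1 (sub_nonneg.2 h2)
    have h3 := (hpos y).1
    rw [← hy, map_sub] at h3
    have h4 : τ (algebraMap ℝ A (‖x‖ ^ 2)) = ((‖x‖ ^ 2 : ℝ) : ℂ) := by
      rw [Algebra.algebraMap_eq_smul_one, ← Complex.coe_smul, map_smul, hone, smul_eq_mul, mul_one]
    rw [h4] at h3
    simp only [Complex.sub_re, Complex.ofReal_re] at h3
    linarith
  have h5 := (hpos (x - (τ x) • (1 : A))).1
  have e : star (x - (τ x) • (1 : A)) * (x - (τ x) • (1 : A)) =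
      star x * x - (τ x) • star x - (starRingEnd ℂ (τ x)) • x +
        ((starRingEnd ℂ (τ x)) * (τ x)) • (1 : A) := by
    simp only [star_sub, star_smul, star_one, sub_mul, mul_sub, smul_mul_assoc, mul_smul_comm,
      one_mul, mul_one, smul_smul]
    have : star (τ x) = starRingEnd ℂ (τ x) := rfl
    rw [this]
    module
  rw [e] at h5
  simp only [map_add, map_sub, map_smul, hone, smul_eq_mul, trace_star τ hpos hone x] at h5
  have h6 : ‖τ x‖ ^ 2 ≤ (τ (star x * x)).re := by
    rw [← Complex.normSq_eq_norm_sq, Complex.normSq_apply]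
    simp at h5
    nlinarith
  have h7 : ‖τ x‖ ^ 2 ≤ ‖x‖ ^ 2 := h6.trans h1
  exact (sq_le_sq₀ (norm_nonneg _) (norm_nonneg _)).1 h7

end aux

section claim
variable {A : Type*} [CStarAlgebra A] (τ : A →ₗ[ℂ] ℂ)
    (hpos : ∀ x, 0 ≤ (τ (star x * x)).re ∧ (τ (star x * x)).im = 0) (hone : τ 1 = 1)
    (htr : ∀ x y, τ (x * y) = τ (y * x))

include hpos hone htr in
lemma trace_le_one (b : A) (N : ℕ) (hN : 0 < N) (hb : ‖b ^ N‖ ≤ 1) : ‖τ b‖ ≤ 1 := by
  letI := CStarAlgebra.spectralOrder A
  haveI := CStarAlgebra.spectralOrderedRing A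
  set G : A := ∑ n ∈ Finset.range N, star (b ^ n) * b ^ n with hG
  have hG1 : 1 ≤ G := by
    obtain ⟨M, rfl⟩ : ∃ M, N = M + 1 := ⟨N - 1, by omega⟩
    rw [hG, Finset.sum_range_succ']
    simp only [pow_zero, star_one, mul_one]
    have : 0 ≤ ∑ k ∈ Finset.range M, star (b ^ (k + 1)) * b ^ (k + 1) :=
      Finset.sum_nonneg fun i _ => star_mul_self_nonneg _
    exact le_add_of_nonneg_left this
  have hG0 : 0 ≤ G := zero_le_one.trans hG1
  have hbGb : star b * G * b ≤ G := by
    have e1 : star b * G * b = ∑ n ∈ Finset.range N, star (b ^ (n+1)) * b ^ (n+1) := by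
      rw [hG, Finset.mul_sum, Finset.sum_mul]
      apply Finset.sum_congr rfl
      intro n _
      rw [pow_succ, star_mul]
      simp only [mul_assoc]
    have e2 : ∑ n ∈ Finset.range N, star (b ^ (n+1)) * b ^ (n+1) + star (b ^ 0) * b ^ 0 =
        G + star (b ^ N) * b ^ N := by
      rw [← Finset.sum_range_succ' (fun n => star (b ^ n) * b ^ n), Finset.sum_range_succ]
    have e3 : star (b ^ N) * b ^ N ≤ 1 := by
      have h2 : star (b ^ N) * b ^ N ≤ algebraMap ℝ A (‖b ^ N‖ ^ 2) :=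
        CStarAlgebra.star_mul_le_algebraMap_norm_sq
      refine h2.trans ?_
      rw [← map_one (algebraMap ℝ A)]
      apply algebraMap_mono
      nlinarith [norm_nonneg (b ^ N)]
    rw [e1]
    simp only [pow_zero, star_one, mul_one] at e2
    have e4 : ∑ n ∈ Finset.range N, star (b ^ (n+1)) * b ^ (n+1) =
      G + (star (b ^ N) * b ^ N - 1) := by
      rw [← add_sub_assoc, ← e2, add_sub_cancel_right]
    rw [e4]
    have : star (b ^ N) * b ^ N - 1 ≤ 0 := sub_nonpos.2 e3
    simpa using add_le_add_right this G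
  have hnt : Nontrivial A := by
    by_contra h
    rw [not_nontrivial_iff_subsingleton] at h
    have : (1 : A) = 0 := Subsingleton.elim _ _
    rw [this, map_zero] at hone
    exact zero_ne_one hone
  have hGu : IsUnit G := CStarAlgebra.isUnit_of_le (1 : A) hG1
  have hgu : IsUnit (CFC.sqrt G) := (CFC.isUnit_sqrt_iff G hG0).2 hGu
  obtain ⟨g, hg⟩ := hgu
  have hgg : (g : A) * (g : A) = G := by rw [hg]; exact CFC.sqrt_mul_sqrt_self G hG0
  have hgs : star (g : A) = (g : A) := by
    rw [hg]; exact (IsSelfAdjoint.of_nonneg (CFC.sqrt_nonneg G)).star_eq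
  have hhs : star (↑g⁻¹ : A) = (↑g⁻¹ : A) := by
    have h1 : (↑g⁻¹ : A) * (g : A) = 1 := Units.inv_mul g
    have h2 : (g : A) * star (↑g⁻¹ : A) = 1 := by
      have := congrArg star h1
      rwa [star_mul, hgs, star_one] at this
    exact (Units.eq_inv_of_mul_eq_one_left h2) |>.trans rfl
  set c : A := (g : A) * b * (↑g⁻¹ : A) with hc
  have hcc : star c * c ≤ 1 := by
    have e1 : star c * c = star (↑g⁻¹ : A) * (star b * G * b) * (↑g⁻¹ : A) := by
      rw [hc, star_mul, star_mul, hgs, ← hgg]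
      simp only [mul_assoc]
    have e2 : star (↑g⁻¹ : A) * G * (↑g⁻¹ : A) = 1 := by
      rw [hhs, ← hgg]
      simp
    rw [e1, ← e2]
    exact star_left_conjugate_le_conjugate hbGb _
  have hcn : ‖c‖ ≤ 1 := by
    have h1 : ‖star c * c‖ ≤ 1 := (CStarAlgebra.norm_le_one_iff_of_nonneg _
      (star_mul_self_nonneg c)).2 hcc
    rw [CStarRing.norm_star_mul_self] at h1
    nlinarith [norm_nonneg c]
  have hτ : τ b = τ c := by
    rw [hc, htr, ← mul_assoc]
    simp
  rw [hτ]
  exact (trace_norm_le τ hpos hone c).trans hcn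

end claim

/-- A tracial state on a unital C*-algebra is dominated by the spectral radius. -/
theorem trace_le_spectralRadius {A : Type*} [CStarAlgebra A] (τ : A →ₗ[ℂ] ℂ)
    (hpos : ∀ x, 0 ≤ (τ (star x * x)).re ∧ (τ (star x * x)).im = 0) (hone : τ 1 = 1)
    (htr : ∀ x y, τ (x * y) = τ (y * x)) (b : A) :
    ENNReal.ofReal ‖τ b‖ ≤ spectralRadius ℂ b := by
  by_contra hlt
  rw [not_le] at hlt
  obtain ⟨r, hr1, hr2⟩ := ENNReal.lt_iff_exists_nnreal_btwn.1 hlt
  have hr0 : 0 < r := by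
    have : (0 : ENNReal) < (r : ENNReal) := lt_of_le_of_lt zero_le hr1
    exact_mod_cast this
  have hev := (spectrum.pow_norm_pow_one_div_tendsto_nhds_spectralRadius b).eventually_lt_const hr1
  obtain ⟨N, hN, hN0⟩ := (hev.and (Filter.eventually_gt_atTop 0)).exists
  have hN' : ‖b ^ N‖ ^ (1 / N : ℝ) < (r : ℝ) := by
    have h1 : ENNReal.ofReal (‖b ^ N‖ ^ (1 / N : ℝ)) < ENNReal.ofReal (r : ℝ) := by
      rwa [ENNReal.ofReal_coe_nnreal]
    exact (ENNReal.ofReal_lt_ofReal_iff (by exact_mod_cast hr0)).1 h1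
  have hbN : ‖b ^ N‖ ≤ (r : ℝ) ^ N := by
    have h2 := Real.rpow_le_rpow (by positivity) hN'.le (by positivity : (0:ℝ) ≤ (N : ℝ))
    rw [← Real.rpow_mul (norm_nonneg _), one_div, inv_mul_cancel₀ (by positivity), Real.rpow_one,
      Real.rpow_natCast] at h2
    exact h2
  have hrr : (0:ℝ) < (r : ℝ) := by exact_mod_cast hr0
  have h3 : ‖(((r : ℝ) : ℂ)⁻¹ • b) ^ N‖ ≤ 1 := by
    rw [smul_pow, norm_smul, norm_pow, norm_inv, Complex.norm_real, Real.norm_eq_abs,
      abs_of_pos hrr, inv_pow, inv_mul_le_iff₀ (by positivity), mul_one]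
    exact hbN
  have h4 := trace_le_one τ hpos hone htr _ N hN0 h3
  rw [map_smul, norm_smul, norm_inv, Complex.norm_real, Real.norm_eq_abs, abs_of_pos hrr,
    inv_mul_le_iff₀ hrr, mul_one] at h4
  have h5 : ENNReal.ofReal ‖τ b‖ ≤ (r : ENNReal) := by
    rw [← ENNReal.ofReal_coe_nnreal]
    exact ENNReal.ofReal_le_ofReal h4
  exact absurd hr2 (not_lt.2 h5)

end Pool.Agent.Helper187.Fac

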