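import Mathlib

namespace Pool.Agent.Helper187.Fac

lemma srad_pow {A : Type*} [CStarAlgebra A] (b : A) {k : ℕ} (hk : 0 < k) :
    spectralRadius ℂ (b ^ k) ≤ (spectralRadius ℂ b) ^ k := by
  unfold spectralRadius
  refine iSup₂_le ?_
  intro z hz
  rw [spectrum.map_pow_of_pos b hk] at hz
  obtain ⟨w, hw, rfl⟩ := hz
  simp only [nnnorm_pow, ENNReal.coe_pow]
  gcongr
  exact le_iSup₂ (f := fun (k : ℂ) (_ : k ∈ spectrum ℂ b) => (‖k‖₊ : ENNReal)) w hw

lemma srad_le {A : Type*} [CStarAlgebra A] (b : A) : spectralRadius ℂ b ≤ ‖b‖₊ := by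
  rcases subsingleton_or_nontrivial A with h | h
  · have : spectralRadius ℂ b = 0 := by
      have hb : b = 0 := Subsingleton.elim _ _
      rw [hb]; exact spectrum.spectralRadius_zero
    rw [this]; exact zero_le
  · exact spectrum.spectralRadius_le_nnnorm b

lemma liou {A : Type*} [CStarAlgebra A] (L : A →L[ℂ] ℂ) (G : ℂ → A) (hG : Differentiable ℂ G)
    (M : ℝ) (hM : ∀ s, ‖L (G s)‖ ≤ M) (G' : A) (h' : HasDerivAt G G' 0) : L G' = 0 := by
  have hf : Differentiable ℂ (fun s => L (G s)) := L.differentiable.comp hG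
  have hb : Bornology.IsBounded (Set.range (fun s => L (G s))) := by
    rw [isBounded_iff_forall_norm_le]
    exact ⟨M, by rintro _ ⟨s, rfl⟩; exact hM s⟩
  have hc : (fun s => L (G s)) = fun _ => L (G 0) := by
    funext s
    exact hf.apply_eq_apply_of_bounded hb s 0
  have h1 : HasDerivAt (fun s => L (G s)) (L G') 0 := L.hasFDerivAt.comp_hasDerivAt 0 h'
  rw [hc] at h1
  exact h1.unique (hasDerivAt_const _ _)

/-- Invariance identities of the forms `τ(T(x)^k)`. -/
theorem inv_identities {A : Type*} [CStarAlgebra A] (τ : A →ₗ[ℂ] ℂ)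
    (hR : ∀ b, ENNReal.ofReal ‖τ b‖ ≤ spectralRadius ℂ b)
    (htr : ∀ x y, τ (x * y) = τ (y * x))
    (T : A →ₗ[ℂ] A) (C : NNReal)
    (hspec : ∀ x, spectralRadius ℂ (T x) ≤ (C : ENNReal) * spectralRadius ℂ x) :
    (∀ x y, y * y = 0 → τ (T (y * x - x * y)) = 0) ∧
    (∀ x y, y * y = 0 → τ (T x * T (y * x - x * y)) = 0) ∧
    (∀ x y, y * y = 0 → τ (T x * T x * T (y * x - x * y)) = 0) ∧
    (∀ x, ‖τ (T x)‖ ≤ C * ‖x‖) ∧ (∀ x, ‖τ (T x * T x)‖ ≤ (C * ‖x‖) ^ 2) ∧
    (∀ x, ‖τ (T x * T x * T x)‖ ≤ (C * ‖x‖) ^ 3) := by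
  have hτ : ∀ b, ‖τ b‖ ≤ 1 * ‖b‖ := by
    intro b
    have h1 := (hR b).trans (srad_le b)
    rw [one_mul]
    have h2 : ENNReal.ofReal ‖τ b‖ ≤ ENNReal.ofReal ‖b‖ := by
      rwa [ofReal_norm (E := A)]
    exact (ENNReal.ofReal_le_ofReal_iff (norm_nonneg _)).1 h2
  set L : A →L[ℂ] ℂ := τ.mkContinuous 1 hτ with hL
  have hLτ : ∀ b, L b = τ b := fun b => rfl
  -- main bound
  have hbd : ∀ (k : ℕ), 0 < k → ∀ (x z : A), spectralRadius ℂ z = spectralRadius ℂ x →
      ‖τ ((T z) ^ k)‖ ≤ (C * ‖x‖) ^ k := by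
    intro k hk x z hz
    have h1 : ENNReal.ofReal ‖τ ((T z) ^ k)‖ ≤ ENNReal.ofReal ((C * ‖x‖) ^ k) := by
      calc ENNReal.ofReal ‖τ ((T z) ^ k)‖ ≤ spectralRadius ℂ ((T z) ^ k) := hR _
        _ ≤ (spectralRadius ℂ (T z)) ^ k := srad_pow _ hk
        _ ≤ (C * spectralRadius ℂ z) ^ k := by gcongr; exact hspec z
        _ = (C * spectralRadius ℂ x) ^ k := by rw [hz]
        _ ≤ ((C : ENNReal) * (‖x‖₊ : ENNReal)) ^ k := by gcongr; exact srad_le x
        _ = ENNReal.ofReal ((C * ‖x‖) ^ k) := by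
          rw [ENNReal.ofReal_pow (by positivity), ENNReal.ofReal_mul (by positivity),
            ENNReal.ofReal_coe_nnreal]
          congr 2
          exact (ofReal_norm x).symm
    exact (ENNReal.ofReal_le_ofReal_iff (by positivity)).1 h1
  -- the curve
  have hcurve : ∀ x y : A, y * y = 0 → ∀ s : ℂ,
      spectralRadius ℂ (x + s • (y * x - x * y) - (s * s) • (y * x * y)) = spectralRadius ℂ x := by
    intro x y hy s
    have hu1 : (1 + s • y) * (1 - s • y) = 1 := by
      rw [add_mul, mul_sub, mul_sub, smul_mul_smul_comm, hy]; simp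
    have hu2 : (1 - s • y) * (1 + s • y) = 1 := by
      rw [sub_mul, mul_add, mul_add, smul_mul_smul_comm, hy]; simp
    set u : Aˣ := ⟨1 + s • y, 1 - s • y, hu1, hu2⟩ with hu
    have he : x + s • (y * x - x * y) - (s * s) • (y * x * y) = (u : A) * x * ((u⁻¹ : Aˣ) : A) := by
      show _ = (1 + s • y) * x * (1 - s • y)
      simp only [add_mul, mul_sub, one_mul, mul_one, smul_mul_assoc, mul_smul_comm, smul_sub,
        smul_add, smul_smul]
      abel
    rw [he]
    unfold spectralRadius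
    rw [spectrum.units_conjugate]
  have hlin : ∀ x y : A, ∀ s : ℂ, T (x + s • (y * x - x * y) - (s * s) • (y * x * y)) =
      T x + s • T (y * x - x * y) - (s * s) • T (y * x * y) := by
    intro x y s
    simp only [map_add, map_sub, map_smul]
  have hder : ∀ a b c : A, HasDerivAt (fun s : ℂ => a + s • b - (s * s) • c) b 0 := by
    intro a b c
    have h1 : HasDerivAt (fun s : ℂ => s • b) ((1 : ℂ) • b) 0 := (hasDerivAt_id (0 : ℂ)).smul_const b
    have h2 : HasDerivAt (fun s : ℂ => (s * s) • c) (((1 : ℂ) * 0 + 0 * 1) • c) 0 :=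
      ((hasDerivAt_id (0 : ℂ)).mul (hasDerivAt_id (0 : ℂ))).smul_const c
    have h3 := (h1.const_add a).sub h2
    exact h3.congr_deriv (by simp)
  have hdiff : ∀ a b c : A, Differentiable ℂ (fun s : ℂ => a + s • b - (s * s) • c) := by
    intro a b c
    fun_prop
  refine ⟨?_, ?_, ?_, ?_, ?_, ?_⟩
  · intro x y hy
    have := liou L (fun s => T x + s • T (y * x - x * y) - (s * s) • T (y * x * y)) (hdiff _ _ _)
      ((C * ‖x‖) ^ 1) (fun s => by
        have h1 := hbd 1 one_pos x _ (hcurve x y hy s)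
        rw [hlin, pow_one] at h1
        exact h1) _ (hder _ _ _)
    exact this
  · intro x y hy
    have h0 := hder (T x) (T (y * x - x * y)) (T (y * x * y))
    have := liou L (fun s => (T x + s • T (y * x - x * y) - (s * s) • T (y * x * y)) *
        (T x + s • T (y * x - x * y) - (s * s) • T (y * x * y))) ((hdiff _ _ _).mul (hdiff _ _ _))
      ((C * ‖x‖) ^ 2) (fun s => by
        have h1 := hbd 2 two_pos x _ (hcurve x y hy s)
        rw [hlin, pow_two (T x + _ - _)] at h1
        exact h1) _ (h0.mul h0)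
    simp only [zero_smul, add_zero, mul_zero, sub_zero, hLτ, map_add] at this
    rw [htr (T (y * x - x * y)) (T x)] at this
    have h2 : (2 : ℂ) * τ (T x * T (y * x - x * y)) = 0 := by rw [two_mul]; exact this
    simpa using h2
  · intro x y hy
    have h0 := hder (T x) (T (y * x - x * y)) (T (y * x * y))
    have := liou L (fun s => (T x + s • T (y * x - x * y) - (s * s) • T (y * x * y)) *
        (T x + s • T (y * x - x * y) - (s * s) • T (y * x * y)) *
        (T x + s • T (y * x - x * y) - (s * s) • T (y * x * y)))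
        (((hdiff _ _ _).mul (hdiff _ _ _)).mul (hdiff _ _ _))
      ((C * ‖x‖) ^ 3) (fun s => by
        have h1 := hbd 3 (by norm_num) x _ (hcurve x y hy s)
        rw [hlin, pow_succ, pow_two (T x + _ - _)] at h1
        exact h1) _ ((h0.mul h0).mul h0)
    simp only [Pi.mul_apply, zero_smul, add_zero, mul_zero, sub_zero, hLτ, map_add, add_mul] at this
    rw [htr (T (y * x - x * y) * T x) (T x), htr (T x * T (y * x - x * y)) (T x),
      ← mul_assoc (T x) (T (y * x - x * y)) (T x), htr (T x * T (y * x - x * y)) (T x),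
      ← mul_assoc (T x) (T x)] at this
    have h2 : (3 : ℂ) * τ (T x * T x * T (y * x - x * y)) = 0 := by linear_combination this
    simpa using h2
  · intro x
    have := hbd 1 one_pos x x rfl
    simpa using this
  · intro x
    have := hbd 2 two_pos x x rfl
    rwa [pow_two (T x)] at this
  · intro x
    have := hbd 3 (by norm_num) x x rfl
    rwa [pow_succ (T x), pow_two (T x)] at this

end Pool.Agent.Helper187.Fac
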