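import Mathlib

namespace Pool.Agent.Helper187.Fac


theorem aux_mul_e {A : Type*} [CStarAlgebra A] {e p : A} (he : IsStarProjection e)
    (hp : IsStarProjection p) (h : e * p = p) : p * e = p := by
  have h1 := congrArg star h
  rw [star_mul, hp.isSelfAdjoint.star_eq, he.isSelfAdjoint.star_eq] at h1
  exact h1

theorem aux_sub {A : Type*} [CStarAlgebra A] {e p : A} (he : IsStarProjection e)
    (hp : IsStarProjection p) (h : e * p = p) : IsStarProjection (e - p) := by
  have h2 := aux_mul_e he hp h
  constructor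
  · change (e - p) * (e - p) = e - p
    rw [sub_mul, mul_sub, mul_sub, he.isIdempotentElem.eq, hp.isIdempotentElem.eq, h, h2]
    simp
  · exact he.isSelfAdjoint.sub hp.isSelfAdjoint

theorem aux_add {A : Type*} [CStarAlgebra A] {p q : A} (hp : IsStarProjection p)
    (hq : IsStarProjection q) (h : p * q = 0) : IsStarProjection (p + q) := by
  have h2 : q * p = 0 := by
    have h1 := congrArg star h
    rw [star_mul, hp.isSelfAdjoint.star_eq, hq.isSelfAdjoint.star_eq, star_zero] at h1
    exact h1
  constructor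
  · change (p + q) * (p + q) = p + q
    rw [add_mul, mul_add, mul_add, hp.isIdempotentElem.eq, hq.isIdempotentElem.eq, h, h2]
    simp
  · exact hp.isSelfAdjoint.add hq.isSelfAdjoint

theorem aux_equiv {A : Type*} [CStarAlgebra A] {p v : A} (hp : IsStarProjection p)
    (hv : star v * v = p) : v * p = v ∧ IsStarProjection (v * star v) := by
  have h1 : v * p = v := by
    have h0 : star (v - v * p) * (v - v * p) = 0 := by
      rw [star_sub, star_mul, hp.isSelfAdjoint.star_eq, sub_mul, mul_sub, mul_sub]
      have e1 : star v * (v * p) = p := by rw [← mul_assoc, hv, hp.isIdempotentElem.eq]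
      have e2 : p * star v * v = p := by rw [mul_assoc, hv, hp.isIdempotentElem.eq]
      have e3 : p * star v * (v * p) = p := by
        rw [← mul_assoc, e2, hp.isIdempotentElem.eq]
      rw [e1, e2, e3, hv]
      simp
    have := CStarRing.star_mul_self_eq_zero_iff (v - v * p) |>.1 h0
    rw [sub_eq_zero] at this
    exact this.symm
  refine ⟨h1, ?_, ?_⟩
  · change v * star v * (v * star v) = v * star v
    calc v * star v * (v * star v) = v * (star v * v) * star v := by simp only [mul_assoc]
      _ = v * star v := by rw [hv, h1]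
  · exact IsSelfAdjoint.mul_star_self v

/-- the doubling step -/
theorem aux_double {A : Type*} [CStarAlgebra A] (τ : A →ₗ[ℂ] ℂ)
    (htr : ∀ x y, τ (x * y) = τ (y * x))
    (e : A) (he : IsStarProjection e) (D : A → ℂ)
    (hadd : ∀ p q, IsStarProjection p → IsStarProjection q → e * p = p → e * q = q → p * q = 0 →
      D (p + q) = D p + D q)
    (hinv : ∀ v : A, IsStarProjection (star v * v) → IsStarProjection (v * star v) →
      e * v = v → v * e = v → v * v = 0 → D (star v * v) = D (v * star v))
    (G : ℝ) (hG : ∀ p, IsStarProjection p → e * p = p → ‖D p * τ e - D e * τ p‖ ≤ G)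
    (p q v : A) (hp : IsStarProjection p) (hpe : e * p = p)
    (hqe : e * q = q) (hpq : p * q = 0) (hv : star v * v = p) (hqv : q * (v * star v) = v * star v) :
    ‖D p * τ e - D e * τ p‖ ≤ G / 2 := by
  obtain ⟨hvp, hq'⟩ := aux_equiv hp hv
  set q' := v * star v with hq'def
  have hpe' := aux_mul_e he hp hpe
  have hq'e : e * q' = q' := by rw [← hqv, ← mul_assoc, hqe]
  have hpq' : p * q' = 0 := by rw [← hqv, ← mul_assoc, hpq, zero_mul]
  have hqv' : q' * v = v := by rw [hq'def, mul_assoc, hv, hvp]
  have hev : e * v = v := by rw [← hqv', ← mul_assoc, hq'e]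
  have hve : v * e = v := by rw [← hvp, mul_assoc, hpe']
  have hvv : v * v = 0 := by
    calc v * v = (v * p) * (q' * v) := by rw [hvp, hqv']
      _ = v * (p * q') * v := by simp only [mul_assoc]
      _ = 0 := by rw [hpq']; simp
  have hD : D p = D q' := by
    have := hinv v (by rw [hv]; exact hp) hq' hev hve hvv
    rw [hv] at this
    exact this
  have hτ : τ p = τ q' := by rw [← hv, htr]
  have hsum := hG (p + q') (aux_add hp hq' hpq') (by rw [mul_add, hpe, hq'e])
  rw [hadd p q' hp hq' hpe hq'e hpq', map_add, ← hD, ← hτ] at hsum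
  have h2 : (D p + D p) * τ e - D e * (τ p + τ p) = 2 * (D p * τ e - D e * τ p) := by ring
  rw [h2, norm_mul] at hsum
  have h3 : ‖(2 : ℂ)‖ = 2 := by norm_num
  rw [h3] at hsum
  linarith

/-- A bounded, orthogonally additive function on the projections below `e` which takes equal values on
orthogonal equivalent projections is proportional to the trace. -/
theorem proj_unique {A : Type*} [CStarAlgebra A] (τ : A →ₗ[ℂ] ℂ)
    (hpos : ∀ x, 0 ≤ (τ (star x * x)).re ∧ (τ (star x * x)).im = 0)
    (htr : ∀ x y, τ (x * y) = τ (y * x))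
    (hfaith : ∀ x, τ (star x * x) = 0 → x = 0)
    (hcomp : ∀ p q : A, IsStarProjection p → IsStarProjection q →
      (∃ v, star v * v = p ∧ q * (v * star v) = v * star v) ∨
      (∃ v, star v * v = q ∧ p * (v * star v) = v * star v))
    (e : A) (he : IsStarProjection e) (D : A → ℂ)
    (hadd : ∀ p q, IsStarProjection p → IsStarProjection q → e * p = p → e * q = q → p * q = 0 →
      D (p + q) = D p + D q)
    (hinv : ∀ v : A, IsStarProjection (star v * v) → IsStarProjection (v * star v) →
      e * v = v → v * e = v → v * v = 0 → D (star v * v) = D (v * star v))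
    (K : ℝ) (hbd : ∀ p, IsStarProjection p → e * p = p → ‖D p‖ ≤ K)
    (p : A) (hp : IsStarProjection p) (hpe : e * p = p) :
    D p * τ e = D e * τ p := by
  have hre : ∀ p, IsStarProjection p → 0 ≤ (τ p).re ∧ (τ p).im = 0 := by
    intro p hp
    have := hpos p
    rw [hp.isSelfAdjoint.star_eq, hp.isIdempotentElem.eq] at this
    exact this
  have hτb : ∀ p, IsStarProjection p → e * p = p → ‖τ p‖ ≤ ‖τ e‖ := by
    intro p hp hpe
    obtain ⟨h1, h2⟩ := hre p hp
    obtain ⟨h3, h4⟩ := hre e he
    obtain ⟨h5, h6⟩ := hre (e - p) (aux_sub he hp hpe)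
    rw [map_sub, Complex.sub_re] at h5
    have e1 : τ p = ((τ p).re : ℂ) := by
      apply Complex.ext <;> simp [h2]
    have e2 : τ e = ((τ e).re : ℂ) := by
      apply Complex.ext <;> simp [h4]
    rw [e1, e2, Complex.norm_real, Complex.norm_real, Real.norm_eq_abs, Real.norm_eq_abs,
      abs_of_nonneg h1, abs_of_nonneg h3]
    linarith
  set g : A → ℂ := fun p => D p * τ e - D e * τ p with hg
  have hstep : ∀ G : ℝ, (∀ p, IsStarProjection p → e * p = p → ‖g p‖ ≤ G) →
      ∀ p, IsStarProjection p → e * p = p → ‖g p‖ ≤ G / 2 := by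
    intro G hG p hp hpe
    have hpe' := aux_mul_e he hp hpe
    have hs := aux_sub he hp hpe
    have hse : e * (e - p) = e - p := by rw [mul_sub, he.isIdempotentElem.eq, hpe]
    have hps : p * (e - p) = 0 := by
      rw [mul_sub, hpe', hp.isIdempotentElem.eq, sub_self]
    have hsp : (e - p) * p = 0 := by
      rw [sub_mul, hpe, hp.isIdempotentElem.eq, sub_self]
    rcases hcomp p (e - p) hp hs with ⟨v, hv, hv'⟩ | ⟨v, hv, hv'⟩
    · exact aux_double τ htr e he D hadd hinv G hG p (e - p) v hp hpe hse hps hv hv'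
    · have := aux_double τ htr e he D hadd hinv G hG (e - p) p v hs hse hpe hsp hv hv'
      have h1 : g p = - g (e - p) := by
        have h2 := hadd p (e - p) hp hs hpe hse hps
        rw [add_sub_cancel] at h2
        simp only [hg]
        rw [h2, map_sub]
        ring
      rw [h1, norm_neg]
      exact this
  have hK : ∀ p, IsStarProjection p → e * p = p → ‖g p‖ ≤ K * ‖τ e‖ + ‖D e‖ * ‖τ e‖ := by
    intro p hp hpe
    calc ‖g p‖ ≤ ‖D p * τ e‖ + ‖D e * τ p‖ := norm_sub_le _ _
      _ = ‖D p‖ * ‖τ e‖ + ‖D e‖ * ‖τ p‖ := by rw [norm_mul, norm_mul]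
      _ ≤ K * ‖τ e‖ + ‖D e‖ * ‖τ e‖ := by
        apply add_le_add
        · exact mul_le_mul_of_nonneg_right (hbd p hp hpe) (norm_nonneg _)
        · exact mul_le_mul_of_nonneg_left (hτb p hp hpe) (norm_nonneg _)
  set G0 := K * ‖τ e‖ + ‖D e‖ * ‖τ e‖ with hG0
  have hn : ∀ n : ℕ, ∀ p, IsStarProjection p → e * p = p → ‖g p‖ ≤ G0 / 2 ^ n := by
    intro n
    induction n with
    | zero => simpa using hK
    | succ n ih =>
      intro p hp hpe
      have := hstep _ ih p hp hpe
      calc ‖g p‖ ≤ G0 / 2 ^ n / 2 := this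
        _ = G0 / 2 ^ (n + 1) := by rw [pow_succ, div_div]
  have hlim : Filter.Tendsto (fun n : ℕ => G0 / 2 ^ n) Filter.atTop (nhds 0) := by
    have h := (tendsto_pow_atTop_nhds_zero_of_lt_one (r := (1 / 2 : ℝ)) (by norm_num) (by norm_num)).const_mul G0
    rw [mul_zero] at h
    refine h.congr (fun n => ?_)
    rw [one_div, inv_pow, div_eq_mul_inv]
  have h0 : ‖g p‖ ≤ 0 := ge_of_tendsto' hlim (fun n => hn n p hp hpe)
  have h1 : g p = 0 := norm_le_zero_iff.1 h0
  simp only [hg] at h1
  exact sub_eq_zero.1 h1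


end Pool.Agent.Helper187.Fac
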