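import Mathlib

namespace Pool.Agent.Helper187.Fac

/-- Uniqueness of bounded tracial functionals on a corner. -/
theorem functional_unique {A : Type*} [CStarAlgebra A] (τ : A →ₗ[ℂ] ℂ)
    (hτ : ∀ x, ‖τ x‖ ≤ ‖x‖)
    (hU : ∀ (e : A) (_ : IsStarProjection e) (D : A → ℂ)
      (_ : ∀ p q, IsStarProjection p → IsStarProjection q → e * p = p → e * q = q → p * q = 0 →
        D (p + q) = D p + D q)
      (_ : ∀ v : A, IsStarProjection (star v * v) → IsStarProjection (v * star v) →
        e * v = v → v * e = v → v * v = 0 → D (star v * v) = D (v * star v))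
      (K : ℝ) (_ : ∀ p, IsStarProjection p → e * p = p → ‖D p‖ ≤ K)
      (p : A) (_ : IsStarProjection p) (_ : e * p = p), D p * τ e = D e * τ p)
    (hdense : ∀ e : A, IsStarProjection e → ∀ x, IsSelfAdjoint x → e * x = x → ∀ ε : ℝ, 0 < ε →
      ∃ (n : ℕ) (p : Fin n → A) (t : Fin n → ℝ), (∀ i, IsStarProjection (p i)) ∧
        (∀ i, e * p i = p i) ∧ (∀ i j, i ≠ j → p i * p j = 0) ∧ ‖x - ∑ i, (t i : ℂ) • p i‖ < ε)
    (e : A) (he : IsStarProjection e) (f : A →ₗ[ℂ] ℂ) (K : ℝ) (hf : ∀ x, ‖f x‖ ≤ K * ‖x‖)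
    (hinv : ∀ v, e * v = v → v * e = v → v * v = 0 → f (star v * v) = f (v * star v)) (x : A) :
    f (e * x * e) * τ e = f e * τ (e * x * e) := by
  have hpn : ∀ p : A, IsStarProjection p → ‖p‖ ≤ 1 := fun p hp => by
    have h1 : ‖p‖ * ‖p‖ = ‖p‖ := by
      have h2 := CStarRing.norm_star_mul_self (x := p)
      rw [hp.isSelfAdjoint.star_eq, hp.isIdempotentElem.eq] at h2
      exact h2.symm
    by_contra hc
    push Not at hc
    nlinarith [norm_nonneg p]
  -- projections
  have hproj : ∀ p, IsStarProjection p → e * p = p → f p * τ e = f e * τ p := by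
    intro p hp hep
    refine hU e he (fun y => f y) (fun p q _ _ _ _ _ => map_add f p q)
      (fun v _ _ h1 h2 h3 => hinv v h1 h2 h3) |K| ?_ p hp hep
    intro p hp _
    calc ‖f p‖ ≤ K * ‖p‖ := hf p
      _ ≤ |K| * ‖p‖ := by gcongr; exact le_abs_self K
      _ ≤ |K| * 1 := by gcongr; exact hpn p hp
      _ = |K| := mul_one _
  -- selfadjoint elements
  have hsa : ∀ y : A, IsSelfAdjoint y → e * y = y → f y * τ e = f e * τ y := by
    intro y hy hey
    rw [← sub_eq_zero, ← norm_eq_zero]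
    by_contra hne
    have hpos : 0 < ‖f y * τ e - f e * τ y‖ := lt_of_le_of_ne (norm_nonneg _) (Ne.symm hne)
    set δ := ‖f y * τ e - f e * τ y‖ with hδ
    have hC : 0 < 2 * |K| + 1 := by positivity
    obtain ⟨n, p, t, hp, hep, _, hlt⟩ := hdense e he y hy hey (δ / (2 * |K| + 1)) (by positivity)
    set s : A := ∑ i, (t i : ℂ) • p i with hs
    have hs1 : f s * τ e = f e * τ s := by
      rw [hs, map_sum, map_sum, Finset.sum_mul, Finset.mul_sum]
      refine Finset.sum_congr rfl fun i _ => ?_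
      rw [map_smul, map_smul, smul_eq_mul, smul_eq_mul, mul_assoc, hproj (p i) (hp i) (hep i)]
      ring
    have h1 : f y * τ e - f e * τ y = f (y - s) * τ e - f e * τ (y - s) := by
      rw [map_sub, map_sub, sub_mul, mul_sub, hs1]
      ring
    have h2 : δ ≤ |K| * ‖y - s‖ * 1 + |K| * 1 * ‖y - s‖ := by
      rw [hδ, h1]
      refine (norm_sub_le _ _).trans ?_
      rw [norm_mul, norm_mul]
      have h3 : ‖f (y - s)‖ ≤ |K| * ‖y - s‖ :=
        (hf _).trans (by gcongr; exact le_abs_self K)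
      have h4 : ‖τ e‖ ≤ 1 := (hτ e).trans (hpn e he)
      have h5 : ‖f e‖ ≤ |K| * 1 := (hf _).trans (by
        calc K * ‖e‖ ≤ |K| * ‖e‖ := by gcongr; exact le_abs_self K
          _ ≤ |K| * 1 := by gcongr; exact hpn e he)
      have h6 : ‖τ (y - s)‖ ≤ ‖y - s‖ := hτ _
      gcongr
    have h7 : 2 * |K| * ‖y - s‖ ≤ 2 * |K| * (δ / (2 * |K| + 1)) := by gcongr
    have h8 : 2 * |K| * (δ / (2 * |K| + 1)) < δ := by
      rw [mul_div_assoc', div_lt_iff₀ hC]
      nlinarith
    linarith
  -- general elements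
  set y : A := e * x * e with hy
  have hee : e * e = e := he.isIdempotentElem.eq
  have hes : star e = e := he.isSelfAdjoint.star_eq
  have hy1 : e * y = y := by rw [hy, ← mul_assoc, ← mul_assoc, hee]
  have hy2 : e * star y = star y := by
    rw [hy, star_mul, star_mul, hes, ← mul_assoc, hee]
  have hr1 : e * (realPart y : A) = realPart y := by
    rw [realPart_apply_coe, mul_smul_comm, mul_add, hy1, hy2]
  have hi1 : e * (imaginaryPart y : A) = imaginaryPart y := by
    rw [imaginaryPart_apply_coe, mul_smul_comm, mul_smul_comm, mul_sub, hy1, hy2]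
  have hr := hsa (realPart y : A) (realPart y).2 hr1
  have hi := hsa (imaginaryPart y : A) (imaginaryPart y).2 hi1
  have hdec := realPart_add_I_smul_imaginaryPart y
  rw [← hdec, map_add, map_add, map_smul, map_smul, smul_eq_mul, smul_eq_mul, add_mul, hr,
    mul_assoc, hi]
  ring

end Pool.Agent.Helper187.Fac
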