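import Mathlib

namespace Pool.Agent.Helper187.Fac

section aux

variable {A : Type*} [CStarAlgebra A]

private lemma tau_re {τ : A →ₗ[ℂ] ℂ}
    (hpos : ∀ x, 0 ≤ (τ (star x * x)).re ∧ (τ (star x * x)).im = 0)
    {p : A} (hp : IsStarProjection p) : τ p = ((τ p).re : ℂ) := by
  have h := hpos p
  have e : star p * p = p := by
    rw [hp.isSelfAdjoint.star_eq]; exact hp.isIdempotentElem
  rw [e] at h
  apply Complex.ext
  · simp
  · simp [h.2]

private lemma tau_ne {τ : A →ₗ[ℂ] ℂ}
    (hfaith : ∀ x, τ (star x * x) = 0 → x = 0)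
    {p : A} (hp : IsStarProjection p) (h0 : p ≠ 0) : τ p ≠ 0 := by
  intro h
  apply h0
  apply hfaith
  rw [hp.isSelfAdjoint.star_eq]
  rw [hp.isIdempotentElem]
  exact h

private lemma oneSub {p : A} (hp : IsStarProjection p) : IsStarProjection (1 - p) := by
  exact hp.one_sub

private lemma addProj {p q : A} (hp : IsStarProjection p) (hq : IsStarProjection q)
    (hpq : p * q = 0) : IsStarProjection (p + q) := by
  have hqp : q * p = 0 := by
    have := congrArg star hpq
    rw [star_mul, hp.isSelfAdjoint.star_eq, hq.isSelfAdjoint.star_eq, star_zero] at this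
    exact this
  constructor
  · show (p + q) * (p + q) = p + q
    rw [mul_add, add_mul, add_mul, hpq, hqp, hp.isIdempotentElem, hq.isIdempotentElem]
    simp
  · exact hp.isSelfAdjoint.add hq.isSelfAdjoint

private lemma subProj {p f : A} (hp : IsStarProjection p) (hf : IsStarProjection f)
    (hpf : f * p = p) : IsStarProjection (f - p) ∧ p * (f - p) = 0 := by
  have hpf' : p * f = p := by
    have := congrArg star hpf
    rw [star_mul, hp.isSelfAdjoint.star_eq, hf.isSelfAdjoint.star_eq] at this
    exact this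
  refine ⟨⟨?_, hf.isSelfAdjoint.sub hp.isSelfAdjoint⟩, ?_⟩
  · show (f - p) * (f - p) = f - p
    rw [mul_sub, sub_mul, sub_mul, hpf, hpf', hp.isIdempotentElem, hf.isIdempotentElem]
    simp
  · rw [mul_sub, hpf', hp.isIdempotentElem, sub_self]

end aux

/-- Classification of bounded invariant symmetric bilinear forms killing the unit. -/
theorem bilin_class {A : Type*} [CStarAlgebra A] (τ : A →ₗ[ℂ] ℂ)
    (hpos : ∀ x, 0 ≤ (τ (star x * x)).re ∧ (τ (star x * x)).im = 0) (hone : τ 1 = 1)
    (htr : ∀ x y, τ (x * y) = τ (y * x))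
    (hfaith : ∀ x, τ (star x * x) = 0 → x = 0)
    (hτ : ∀ x, ‖τ x‖ ≤ ‖x‖)
    (hdense : ∀ e : A, IsStarProjection e → ∀ x, IsSelfAdjoint x → e * x = x → ∀ ε : ℝ, 0 < ε →
      ∃ (n : ℕ) (p : Fin n → A) (t : Fin n → ℝ), (∀ i, IsStarProjection (p i)) ∧
        (∀ i, e * p i = p i) ∧ (∀ i j, i ≠ j → p i * p j = 0) ∧ ‖x - ∑ i, (t i : ℂ) • p i‖ < ε)
    (hFU : ∀ (e : A) (_ : IsStarProjection e) (f : A →ₗ[ℂ] ℂ) (K : ℝ) (_ : ∀ x, ‖f x‖ ≤ K * ‖x‖)
      (_ : ∀ v, e * v = v → v * e = v → v * v = 0 → f (star v * v) = f (v * star v)) (x : A),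
      f (e * x * e) * τ e = f e * τ (e * x * e))
    (e1 e2 e3 : A) (h1 : IsStarProjection e1) (h2 : IsStarProjection e2) (h3 : IsStarProjection e3)
    (h12 : e1 * e2 = 0) (h13 : e1 * e3 = 0) (h23 : e2 * e3 = 0) (hsum : e1 + e2 + e3 = 1)
    (hn1 : e1 ≠ 0) (hn2 : e2 ≠ 0) (hn3 : e3 ≠ 0)
    (κ : A →ₗ[ℂ] A →ₗ[ℂ] ℂ) (K : ℝ) (hK : ∀ x y, ‖κ x y‖ ≤ K * ‖x‖ * ‖y‖)
    (hsymm : ∀ x y, κ x y = κ y x) (hκ1 : ∀ x, κ 1 x = 0)
    (hinv : ∀ x y, y * y = 0 → κ x (y * x - x * y) = 0) :
    ∃ α : ℂ, ∀ x y, κ x y = α * (τ (x * y) - τ x * τ y) := by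
  have hκ1' : ∀ x, κ x 1 = 0 := fun x => by rw [hsymm]; exact hκ1 x
  -- polarisation
  have hpol : ∀ x y z, y * y = 0 → κ x (y * z - z * y) + κ z (y * x - x * y) = 0 := by
    intro x y z hy
    have h := hinv (x + z) y hy
    have a := hinv x y hy
    have b := hinv z y hy
    have e : y * (x + z) - (x + z) * y = (y * x - x * y) + (y * z - z * y) := by
      rw [mul_add, add_mul]; abel
    rw [e] at h
    simp only [map_add, LinearMap.add_apply] at h
    linear_combination h - a - b
  -- predicate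
  set H : ℂ → A → Prop := fun α x => ∀ z, κ x z = α * (τ (x * z) - τ x * τ z) with hH
  have Hadd : ∀ α x y, H α x → H α y → H α (x + y) := by
    intro α x y hx hy z
    rw [map_add, LinearMap.add_apply, hx z, hy z, add_mul, map_add, map_add]
    ring
  have Hsmul : ∀ α (c : ℂ) x, H α x → H α (c • x) := by
    intro α c x hx z
    rw [map_smul, LinearMap.smul_apply, hx z, smul_mul_assoc, map_smul, map_smul]
    simp only [smul_eq_mul]
    ring
  have Hzero : ∀ α, H α 0 := by
    intro α z
    simp
  -- every nontrivial projection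
  have Hex : ∀ p : A, IsStarProjection p → p ≠ 0 → p ≠ 1 → ∃ α, H α p := by
    intro p hp h0 h1'
    have hpp : p * p = p := hp.isIdempotentElem
    have hq : IsStarProjection (1 - p) := hp.one_sub
    have hqq : (1 - p) * (1 - p) = 1 - p := hq.isIdempotentElem
    have hqp : (1 - p) * p = 0 := by rw [sub_mul, one_mul, hpp, sub_self]
    have hpq : p * (1 - p) = 0 := by rw [mul_sub, mul_one, hpp, sub_self]
    have hτp := tau_ne hfaith hp h0
    have hτq := tau_ne hfaith hq (sub_ne_zero.mpr (Ne.symm h1'))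
    have hcorner1 : ∀ z, κ p (p * z * (1 - p)) = 0 := by
      intro z
      have hz : (p * z * (1 - p)) * (p * z * (1 - p)) = 0 := by
        calc (p * z * (1 - p)) * (p * z * (1 - p)) = p * z * ((1 - p) * p) * z * (1 - p) := by
              simp only [mul_assoc]
          _ = 0 := by rw [hqp]; simp
      have h := hinv p _ hz
      have e : p * z * (1 - p) * p - p * (p * z * (1 - p)) = -(p * z * (1 - p)) := by
        have a : p * z * (1 - p) * p = 0 := by rw [mul_assoc, hqp, mul_zero]
        have b : p * (p * z * (1 - p)) = p * z * (1 - p) := by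
          rw [← mul_assoc, ← mul_assoc, hpp]
        rw [a, b, zero_sub]
      rw [e, map_neg, neg_eq_zero] at h
      exact h
    have hcorner2 : ∀ z, κ p ((1 - p) * z * p) = 0 := by
      intro z
      have hz : ((1 - p) * z * p) * ((1 - p) * z * p) = 0 := by
        calc ((1 - p) * z * p) * ((1 - p) * z * p) = (1 - p) * z * (p * (1 - p)) * z * p := by
              simp only [mul_assoc]
          _ = 0 := by rw [hpq]; simp
      have h := hinv p _ hz
      have e : (1 - p) * z * p * p - p * ((1 - p) * z * p) = (1 - p) * z * p := by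
        have a : (1 - p) * z * p * p = (1 - p) * z * p := by rw [mul_assoc, hpp]
        have b : p * ((1 - p) * z * p) = 0 := by
          rw [← mul_assoc, ← mul_assoc, hpq, zero_mul, zero_mul]
        rw [a, b, sub_zero]
      rw [e] at h
      exact h
    have hv : ∀ v, v * p = p * v → v * v = 0 → κ p (star v * v) = κ p (v * star v) := by
      intro v hc hvv
      have h := hpol p v (star v) hvv
      rw [hc, sub_self, map_zero, add_zero, map_sub, sub_eq_zero] at h
      exact h.symm
    have hbd : ∀ x, ‖κ p x‖ ≤ (K * ‖p‖) * ‖x‖ := fun x => hK p x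
    have hF1 := hFU p hp (κ p) (K * ‖p‖) hbd
      (fun v a b c => hv v (by rw [a, b]) c)
    have hF2 := hFU (1 - p) hq (κ p) (K * ‖p‖) hbd
      (fun v a b c => hv v (by
        have a' : p * v = 0 := by
          rw [sub_mul, one_mul] at a
          simpa using a
        have b' : v * p = 0 := by
          rw [mul_sub, mul_one] at b
          simpa using b
        rw [a', b']) c)
    have tp : ∀ z, τ (p * z * p) = τ (p * z) := by
      intro z
      rw [htr (p * z) p, ← mul_assoc, hpp]
    have tq : ∀ z, τ ((1 - p) * z * (1 - p)) = τ z - τ (p * z) := by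
      intro z
      rw [htr ((1 - p) * z) (1 - p), ← mul_assoc, hqq, sub_mul, one_mul, map_sub]
    have hdec : ∀ z, κ p z = κ p (p * z * p) + κ p ((1 - p) * z * (1 - p)) := by
      intro z
      have e : z = p * z * p + p * z * (1 - p) + (1 - p) * z * p + (1 - p) * z * (1 - p) := by
        noncomm_ring
      conv_lhs => rw [e]
      rw [map_add, map_add, map_add, hcorner1, hcorner2]
      ring
    have τq : τ (1 - p) = 1 - τ p := by rw [map_sub, hone]
    rw [τq] at hτq
    have kq : κ p (1 - p) = - κ p p := by rw [map_sub, hκ1', zero_sub]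
    refine ⟨κ p p / τ p + κ p p / (1 - τ p), ?_⟩
    intro z
    have a1 := hF1 z
    have a2 := hF2 z
    rw [tp] at a1
    rw [tq, τq, kq] at a2
    rw [hdec z]
    have b1 : κ p (p * z * p) = κ p p * τ (p * z) / τ p := by
      rw [eq_div_iff hτp]; exact a1
    have b2 : κ p ((1 - p) * z * (1 - p)) = - κ p p * (τ z - τ (p * z)) / (1 - τ p) := by
      rw [eq_div_iff hτq]; exact a2
    rw [b1, b2]
    field_simp
    ring
  have covne : ∀ p : A, IsStarProjection p → p ≠ 0 → p ≠ 1 → τ (p * p) - τ p * τ p ≠ 0 := by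
    intro p hp h0 h1'
    have hτp := tau_ne hfaith hp h0
    have hτq := tau_ne hfaith hp.one_sub (sub_ne_zero.mpr (Ne.symm h1'))
    rw [map_sub, hone] at hτq
    rw [show p * p = p from hp.isIdempotentElem]
    have : τ p - τ p * τ p = τ p * (1 - τ p) := by ring
    rw [this]
    exact mul_ne_zero hτp hτq
  have Huniq : ∀ p : A, IsStarProjection p → p ≠ 0 → p ≠ 1 → ∀ α β, H α p → H β p → α = β := by
    intro p hp h0 h1' α β ha hb
    have a := ha p
    have b := hb p
    rw [a] at b
    exact mul_right_cancel₀ (covne p hp h0 h1') b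
  have Horth : ∀ p q : A, IsStarProjection p → IsStarProjection q → p * q = 0 → p ≠ 0 → q ≠ 0 →
      p + q ≠ 1 → ∀ α, H α p → H α q := by
    intro p q hp hq hpq hp0 hq0 hne α hα
    have hqp : q * p = 0 := by
      have := congrArg star hpq
      rw [star_mul, hp.isSelfAdjoint.star_eq, hq.isSelfAdjoint.star_eq, star_zero] at this
      exact this
    have hp1 : p ≠ 1 := by
      intro h; rw [h, one_mul] at hpq; exact hq0 hpq
    have hq1 : q ≠ 1 := by
      intro h; rw [h, mul_one] at hpq; exact hp0 hpq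
    have hs := addProj hp hq hpq
    have hs0 : p + q ≠ 0 := by
      intro h
      have : p * (p + q) = 0 := by rw [h, mul_zero]
      rw [mul_add, hpq, add_zero, show p * p = p from hp.isIdempotentElem] at this
      exact hp0 this
    obtain ⟨β, hβ⟩ := Hex q hq hq0 hq1
    obtain ⟨σ, hσ⟩ := Hex (p + q) hs hs0 hne
    have hτp := tau_ne hfaith hp hp0
    have hτq := tau_ne hfaith hq hq0
    have hpp : p * p = p := hp.isIdempotentElem
    have hqq : q * q = q := hq.isIdempotentElem
    have E1 := hσ p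
    have E2 := hσ q
    rw [map_add, LinearMap.add_apply, hα p, hβ p, add_mul, hpp, hqp, add_zero, map_add,
      map_zero] at E1
    rw [map_add, LinearMap.add_apply, hα q, hβ q, add_mul, hqq, hpq, zero_add, map_add,
      map_zero] at E2
    have F1 : α * (1 - τ p) - β * τ q = σ * (1 - τ p - τ q) := by
      apply mul_left_cancel₀ hτp
      linear_combination E1
    have F2 : - α * τ p + β * (1 - τ q) = σ * (1 - τ p - τ q) := by
      apply mul_left_cancel₀ hτq
      linear_combination E2
    have : α = β := by linear_combination F1 - F2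
    rw [this]; exact hβ
  have Hsub : ∀ f : A, IsStarProjection f → f ≠ 1 → ∀ α, H α f → ∀ p, IsStarProjection p →
      f * p = p → H α p := by
    intro f hf hf1 α hα p hp hfp
    by_cases hp0 : p = 0
    · rw [hp0]; exact Hzero α
    by_cases hpf : p = f
    · rw [hpf]; exact hα
    obtain ⟨hs, ho⟩ := subProj hp hf hfp
    have hs0 : f - p ≠ 0 := sub_ne_zero.mpr (Ne.symm hpf)
    have hsum' : p + (f - p) = f := by abel
    have hp1 : p ≠ 1 := by
      intro h; rw [h, one_mul] at ho; exact hs0 (by rw [h]; exact ho)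
    have hf0 : f ≠ 0 := by
      intro h; rw [h, zero_mul] at hfp; exact hp0 hfp.symm
    obtain ⟨β, hβ⟩ := Hex p hp hp0 hp1
    have hβ' := Horth p (f - p) hp hs ho hp0 hs0 (by rw [hsum']; exact hf1) β hβ
    have hβf := Hadd β _ _ hβ hβ'
    rw [hsum'] at hβf
    rw [Huniq f hf hf0 hf1 α β hα hβf]
    exact hβ
  -- selfadjoint elements below f
  have Hsa : ∀ f : A, IsStarProjection f → f ≠ 1 → ∀ α, H α f → ∀ x, IsSelfAdjoint x →
      f * x = x → H α x := by
    intro f hf hf1 α hα x hx hfx z
    have hsumH : ∀ (n : ℕ) (p : Fin n → A) (t : Fin n → ℝ), (∀ i, IsStarProjection (p i)) →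
        (∀ i, f * p i = p i) → H α (∑ i, (t i : ℂ) • p i) := by
      intro n p t hp hfp
      have : ∀ s : Finset (Fin n), H α (∑ i ∈ s, (t i : ℂ) • p i) := by
        intro s
        induction s using Finset.induction_on with
        | empty => simpa using Hzero α
        | insert a s ha ih =>
          rw [Finset.sum_insert ha]
          exact Hadd α _ _ (Hsmul α _ _ (Hsub f hf hf1 α hα (p a) (hp a) (hfp a))) ih
      exact this Finset.univ
    by_contra hne
    have hd : 0 < ‖κ x z - α * (τ (x * z) - τ x * τ z)‖ := norm_pos_iff.mpr (sub_ne_zero.mpr hne)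
    set d := ‖κ x z - α * (τ (x * z) - τ x * τ z)‖ with hdd
    set C : ℝ := |K| * ‖z‖ + ‖α‖ * (‖z‖ + ‖z‖) + 1 with hC
    have hCpos : 0 < C := by positivity
    obtain ⟨n, p, t, hp, hfp, -, hε⟩ := hdense f hf x hx hfx (d / C) (by positivity)
    set s := ∑ i, (t i : ℂ) • p i with hs
    have hsz := hsumH n p t hp hfp z
    rw [← hs] at hsz
    have e : κ x z - α * (τ (x * z) - τ x * τ z)
        = κ (x - s) z - α * (τ ((x - s) * z) - τ (x - s) * τ z) := by
      rw [map_sub, LinearMap.sub_apply, hsz, sub_mul, map_sub, map_sub]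
      ring
    have b1 : ‖κ (x - s) z‖ ≤ |K| * ‖z‖ * ‖x - s‖ := by
      calc ‖κ (x - s) z‖ ≤ K * ‖x - s‖ * ‖z‖ := hK _ _
        _ ≤ |K| * ‖x - s‖ * ‖z‖ := by gcongr; exact le_abs_self K
        _ = _ := by ring
    have b2 : ‖τ ((x - s) * z) - τ (x - s) * τ z‖ ≤ (‖z‖ + ‖z‖) * ‖x - s‖ := by
      calc ‖τ ((x - s) * z) - τ (x - s) * τ z‖
          ≤ ‖τ ((x - s) * z)‖ + ‖τ (x - s) * τ z‖ := norm_sub_le _ _
        _ ≤ ‖x - s‖ * ‖z‖ + ‖x - s‖ * ‖z‖ := by
            apply add_le_add
            · exact (hτ _).trans (norm_mul_le _ _)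
            · rw [norm_mul]
              exact mul_le_mul (hτ _) (hτ _) (norm_nonneg _) (norm_nonneg _)
        _ = _ := by ring
    have b3 : d ≤ (C - 1) * ‖x - s‖ := by
      rw [hdd, e]
      calc ‖κ (x - s) z - α * (τ ((x - s) * z) - τ (x - s) * τ z)‖
          ≤ ‖κ (x - s) z‖ + ‖α * (τ ((x - s) * z) - τ (x - s) * τ z)‖ := norm_sub_le _ _
        _ ≤ |K| * ‖z‖ * ‖x - s‖ + ‖α‖ * ((‖z‖ + ‖z‖) * ‖x - s‖) := by
            apply add_le_add b1
            rw [norm_mul]
            exact mul_le_mul_of_nonneg_left b2 (norm_nonneg _)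
        _ = (C - 1) * ‖x - s‖ := by rw [hC]; ring
    have b4 : (C - 1) * ‖x - s‖ ≤ C * ‖x - s‖ := by
      apply mul_le_mul_of_nonneg_right _ (norm_nonneg _)
      linarith
    have b5 : C * ‖x - s‖ < C * (d / C) := mul_lt_mul_of_pos_left hε hCpos
    have b6 : C * (d / C) = d := by field_simp
    linarith
  have Hcor : ∀ f : A, IsStarProjection f → f ≠ 1 → ∀ α, H α f → ∀ x,
      f * x = x → x * f = x → H α x := by
    intro f hf hf1 α hα x hfx hxf
    have hsx : f * star x = star x := by
      have := congrArg star hxf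
      rw [star_mul, hf.isSelfAdjoint.star_eq] at this
      exact this
    have hA : H α (x + star x) := by
      apply Hsa f hf hf1 α hα
      · exact IsSelfAdjoint.add_star_self x
      · rw [mul_add, hfx, hsx]
    have hB : H α (Complex.I • (x - star x)) := by
      apply Hsa f hf hf1 α hα
      · rw [isSelfAdjoint_iff, star_smul, star_sub, star_star]
        simp only [Complex.star_def, Complex.conj_I, neg_smul]
        rw [← smul_neg, neg_sub]
      · rw [mul_smul_comm, mul_sub, hfx, hsx]
    have hC := Hadd α _ _ (Hsmul α (1/2) _ hA) (Hsmul α (-Complex.I/2) _ hB)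
    have : (1/2 : ℂ) • (x + star x) + (-Complex.I/2) • (Complex.I • (x - star x)) = x := by
      rw [smul_smul]
      have : (-Complex.I/2) * Complex.I = (1/2 : ℂ) := by
        rw [div_mul_eq_mul_div, neg_mul, Complex.I_mul_I]; norm_num
      rw [this, ← smul_add]
      have : x + star x + (x - star x) = (2 : ℂ) • x := by
        rw [two_smul]; abel
      rw [this, smul_smul]; norm_num
    rw [this] at hC
    exact hC
  -- orthogonality relations
  have h21 : e2 * e1 = 0 := by
    have := congrArg star h12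
    rw [star_mul, h1.isSelfAdjoint.star_eq, h2.isSelfAdjoint.star_eq, star_zero] at this
    exact this
  have h31 : e3 * e1 = 0 := by
    have := congrArg star h13
    rw [star_mul, h1.isSelfAdjoint.star_eq, h3.isSelfAdjoint.star_eq, star_zero] at this
    exact this
  have h32 : e3 * e2 = 0 := by
    have := congrArg star h23
    rw [star_mul, h2.isSelfAdjoint.star_eq, h3.isSelfAdjoint.star_eq, star_zero] at this
    exact this
  have h11 : e1 * e1 = e1 := h1.isIdempotentElem
  have h22 : e2 * e2 = e2 := h2.isIdempotentElem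
  have h33 : e3 * e3 = e3 := h3.isIdempotentElem
  have n12 : e1 + e2 ≠ 1 := by
    intro h; rw [h] at hsum; exact hn3 (by simpa using hsum)
  have n13 : e1 + e3 ≠ 1 := by
    intro h
    have : e2 + 1 = 1 := by rw [← h]; rw [← h] at hsum; nth_rewrite 2 [← hsum]; abel
    exact hn2 (by simpa using this)
  have n23 : e2 + e3 ≠ 1 := by
    intro h
    have : e1 + 1 = 1 := by rw [← h]; rw [← h] at hsum; nth_rewrite 2 [← hsum]; abel
    exact hn1 (by simpa using this)
  have e1ne : e1 ≠ 1 := by
    intro h; rw [h, one_mul] at h12; exact hn2 h12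
  obtain ⟨α, hα1⟩ := Hex e1 h1 hn1 e1ne
  have hα2 := Horth e1 e2 h1 h2 h12 hn1 hn2 n12 α hα1
  have hα3 := Horth e1 e3 h1 h3 h13 hn1 hn3 n13 α hα1
  have f12 := Hadd α _ _ hα1 hα2
  have f13 := Hadd α _ _ hα1 hα3
  have f23 := Hadd α _ _ hα2 hα3
  have c12 := Hcor _ (addProj h1 h2 h12) n12 α f12
  have c13 := Hcor _ (addProj h1 h3 h13) n13 α f13
  have c23 := Hcor _ (addProj h2 h3 h23) n23 α f23
  refine ⟨α, fun x => ?_⟩
  have key : H α x := by
    have s12 : ∀ a b : A, (e1 + e2) * a = a → b * (e1 + e2) = b → H α (a * x * b) := by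
      intro a b ha hb
      apply c12
      · rw [← mul_assoc, ← mul_assoc, ha]
      · rw [mul_assoc, hb]
    have s13 : ∀ a b : A, (e1 + e3) * a = a → b * (e1 + e3) = b → H α (a * x * b) := by
      intro a b ha hb
      apply c13
      · rw [← mul_assoc, ← mul_assoc, ha]
      · rw [mul_assoc, hb]
    have s23 : ∀ a b : A, (e2 + e3) * a = a → b * (e2 + e3) = b → H α (a * x * b) := by
      intro a b ha hb
      apply c23
      · rw [← mul_assoc, ← mul_assoc, ha]
      · rw [mul_assoc, hb]
    have t11 := s12 e1 e1 (by rw [add_mul, h11, h21, add_zero]) (by rw [mul_add, h11, h12, add_zero])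
    have t12 := s12 e1 e2 (by rw [add_mul, h11, h21, add_zero]) (by rw [mul_add, h21, h22, zero_add])
    have t21 := s12 e2 e1 (by rw [add_mul, h12, h22, zero_add]) (by rw [mul_add, h11, h12, add_zero])
    have t22 := s12 e2 e2 (by rw [add_mul, h12, h22, zero_add]) (by rw [mul_add, h21, h22, zero_add])
    have t13 := s13 e1 e3 (by rw [add_mul, h11, h31, add_zero]) (by rw [mul_add, h31, h33, zero_add])
    have t31 := s13 e3 e1 (by rw [add_mul, h13, h33, zero_add]) (by rw [mul_add, h11, h13, add_zero])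
    have t33 := s13 e3 e3 (by rw [add_mul, h13, h33, zero_add]) (by rw [mul_add, h31, h33, zero_add])
    have t23 := s23 e2 e3 (by rw [add_mul, h22, h32, add_zero]) (by rw [mul_add, h32, h33, zero_add])
    have t32 := s23 e3 e2 (by rw [add_mul, h23, h33, zero_add]) (by rw [mul_add, h22, h23, add_zero])
    have hx : x = e1 * x * e1 + e1 * x * e2 + e2 * x * e1 + e2 * x * e2 + e1 * x * e3 + e3 * x * e1
        + e3 * x * e3 + e2 * x * e3 + e3 * x * e2 := by
      calc x = (e1 + e2 + e3) * x * (e1 + e2 + e3) := by rw [hsum, one_mul, mul_one]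
        _ = _ := by noncomm_ring
    rw [hx]
    exact Hadd α _ _ (Hadd α _ _ (Hadd α _ _ (Hadd α _ _ (Hadd α _ _ (Hadd α _ _ (Hadd α _ _
      (Hadd α _ _ t11 t12) t21) t22) t13) t31) t33) t23) t32
  exact key

end Pool.Agent.Helper187.Fac
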