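import Mathlib

namespace Pool.Agent.Helper187.Fac

section aux

variable {A : Type*} [CStarAlgebra A]

/-- the third cumulant, expanded -/
noncomputable def cc (τ : A →ₗ[ℂ] ℂ) (x y z : A) : ℂ :=
  (τ (x * y * z) + τ (y * x * z)) / 2 - τ x * τ (y * z) - τ y * τ (x * z) - τ z * τ (x * y) +
    2 * τ x * τ y * τ z

theorem cc_eq (τ : A →ₗ[ℂ] ℂ) (hone : τ 1 = 1) (htr : ∀ x y, τ (x * y) = τ (y * x)) (x y z : A) :
    τ (((x - τ x • 1) * (y - τ y • 1) + (y - τ y • 1) * (x - τ x • 1)) * (z - τ z • 1)) / 2 =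
      cc τ x y z := by
  unfold cc
  simp only [sub_mul, mul_sub, add_mul, smul_mul_assoc, mul_smul_comm, one_mul, mul_one, map_sub,
    map_add, map_smul, smul_eq_mul, hone]
  rw [htr y x]
  ring

theorem cc_add (τ : A →ₗ[ℂ] ℂ) (x x' y z : A) : cc τ (x + x') y z = cc τ x y z + cc τ x' y z := by
  unfold cc
  simp only [add_mul, mul_add, map_add]
  ring

theorem cc_smul (τ : A →ₗ[ℂ] ℂ) (c : ℂ) (x y z : A) : cc τ (c • x) y z = c * cc τ x y z := by
  unfold cc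
  simp only [smul_mul_assoc, mul_smul_comm, map_smul, smul_eq_mul]
  ring

theorem cc_symm (τ : A →ₗ[ℂ] ℂ) (htr : ∀ x y, τ (x * y) = τ (y * x)) (x y z : A) :
    cc τ x y z = cc τ y x z := by
  unfold cc
  rw [htr x y]
  ring

theorem cc_bound (τ : A →ₗ[ℂ] ℂ) (hτ : ∀ x, ‖τ x‖ ≤ ‖x‖) (x y z : A) :
    ‖cc τ x y z‖ ≤ 6 * ‖x‖ * ‖y‖ * ‖z‖ := by
  unfold cc
  have h1 : ‖τ (x * y * z)‖ ≤ ‖x‖ * ‖y‖ * ‖z‖ :=
    (hτ _).trans ((norm_mul_le _ _).trans (mul_le_mul_of_nonneg_right (norm_mul_le _ _) (norm_nonneg _)))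
  have h2 : ‖τ (y * x * z)‖ ≤ ‖x‖ * ‖y‖ * ‖z‖ := by
    refine (hτ _).trans ((norm_mul_le _ _).trans (mul_le_mul_of_nonneg_right ?_ (norm_nonneg _)))
    rw [mul_comm ‖x‖]
    exact norm_mul_le _ _
  have h3 : ‖τ x * τ (y * z)‖ ≤ ‖x‖ * ‖y‖ * ‖z‖ := by
    rw [norm_mul, mul_assoc]
    exact mul_le_mul (hτ _) ((hτ _).trans (norm_mul_le _ _)) (norm_nonneg _) (norm_nonneg _)
  have h4 : ‖τ y * τ (x * z)‖ ≤ ‖x‖ * ‖y‖ * ‖z‖ := by
    rw [norm_mul, mul_comm ‖x‖ ‖y‖, mul_assoc]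
    exact mul_le_mul (hτ _) ((hτ _).trans (norm_mul_le _ _)) (norm_nonneg _) (norm_nonneg _)
  have h5 : ‖τ z * τ (x * y)‖ ≤ ‖x‖ * ‖y‖ * ‖z‖ := by
    rw [norm_mul, mul_comm (‖x‖ * ‖y‖) ‖z‖]
    exact mul_le_mul (hτ _) ((hτ _).trans (norm_mul_le _ _)) (norm_nonneg _) (norm_nonneg _)
  have h6 : ‖2 * τ x * τ y * τ z‖ ≤ 2 * (‖x‖ * ‖y‖ * ‖z‖) := by
    rw [norm_mul, norm_mul, norm_mul, Complex.norm_ofNat, mul_assoc 2, mul_assoc 2]
    refine mul_le_mul_of_nonneg_left ?_ (by norm_num)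
    exact mul_le_mul (mul_le_mul (hτ _) (hτ _) (norm_nonneg _) (norm_nonneg _)) (hτ _)
      (norm_nonneg _) (by positivity)
  have h7 : ‖(τ (x * y * z) + τ (y * x * z)) / 2‖ ≤ ‖x‖ * ‖y‖ * ‖z‖ := by
    rw [norm_div, Complex.norm_ofNat, div_le_iff₀ (by norm_num)]
    refine (norm_add_le _ _).trans ?_
    linarith
  calc _ ≤ ‖(τ (x * y * z) + τ (y * x * z)) / 2‖ + ‖τ x * τ (y * z)‖ + ‖τ y * τ (x * z)‖ +
        ‖τ z * τ (x * y)‖ + ‖2 * τ x * τ y * τ z‖ := by
        refine (norm_add_le _ _).trans (add_le_add_left ?_ _)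
        refine (norm_sub_le _ _).trans (add_le_add_left ?_ _)
        refine (norm_sub_le _ _).trans (add_le_add_left ?_ _)
        exact norm_sub_le _ _
    _ ≤ 6 * ‖x‖ * ‖y‖ * ‖z‖ := by linarith

/-- the difference of the two trilinear forms -/
noncomputable def DD (τ : A →ₗ[ℂ] ℂ) (κ : A →ₗ[ℂ] A →ₗ[ℂ] A →ₗ[ℂ] ℂ) (β : ℂ) (x y z : A) : ℂ :=
  κ x y z - β * cc τ x y z

variable {τ : A →ₗ[ℂ] ℂ} {κ : A →ₗ[ℂ] A →ₗ[ℂ] A →ₗ[ℂ] ℂ} {β : ℂ}

theorem DD_add (x x' y z : A) : DD τ κ β (x + x') y z = DD τ κ β x y z + DD τ κ β x' y z := by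
  unfold DD
  rw [cc_add, map_add, LinearMap.add_apply, LinearMap.add_apply]
  ring

theorem DD_smul (c : ℂ) (x y z : A) : DD τ κ β (c • x) y z = c * DD τ κ β x y z := by
  unfold DD
  rw [cc_smul, map_smul, LinearMap.smul_apply, LinearMap.smul_apply, smul_eq_mul]
  ring

theorem DD_symm (htr : ∀ x y, τ (x * y) = τ (y * x)) (hs1 : ∀ x y z, κ x y z = κ y x z)
    (x y z : A) : DD τ κ β x y z = DD τ κ β y x z := by
  unfold DD
  rw [cc_symm τ htr, hs1]

theorem DD_sum {ι : Type*} (s : Finset ι) (f : ι → A) (y z : A) :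
    DD τ κ β (∑ i ∈ s, f i) y z = ∑ i ∈ s, DD τ κ β (f i) y z :=
  map_sum (AddMonoidHom.mk' (fun x => DD τ κ β x y z) (fun x x' => DD_add x x' y z)) f s

theorem DD_add_right (htr : ∀ x y, τ (x * y) = τ (y * x)) (hs1 : ∀ x y z, κ x y z = κ y x z)
    (x y y' z : A) : DD τ κ β x (y + y') z = DD τ κ β x y z + DD τ κ β x y' z := by
  rw [DD_symm htr hs1, DD_add, DD_symm htr hs1 y, DD_symm htr hs1 y']

theorem DD_smul_right (htr : ∀ x y, τ (x * y) = τ (y * x)) (hs1 : ∀ x y z, κ x y z = κ y x z)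
    (c : ℂ) (x y z : A) : DD τ κ β x (c • y) z = c * DD τ κ β x y z := by
  rw [DD_symm htr hs1, DD_smul, DD_symm htr hs1 y]

theorem DD_sum_right (htr : ∀ x y, τ (x * y) = τ (y * x)) (hs1 : ∀ x y z, κ x y z = κ y x z)
    {ι : Type*} (s : Finset ι) (f : ι → A) (x z : A) :
    DD τ κ β x (∑ i ∈ s, f i) z = ∑ i ∈ s, DD τ κ β x (f i) z := by
  rw [DD_symm htr hs1, DD_sum]
  exact Finset.sum_congr rfl (fun i _ => DD_symm htr hs1 _ _ _)

theorem DD_bound (hτ : ∀ x, ‖τ x‖ ≤ ‖x‖) {K : ℝ}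
    (hK : ∀ x y z, ‖κ x y z‖ ≤ K * ‖x‖ * ‖y‖ * ‖z‖) (x y z : A) :
    ‖DD τ κ β x y z‖ ≤ (K + 6 * ‖β‖) * ‖x‖ * ‖y‖ * ‖z‖ := by
  unfold DD
  refine (norm_sub_le _ _).trans ?_
  rw [norm_mul]
  have h1 := hK x y z
  have h2 := mul_le_mul_of_nonneg_left (cc_bound τ hτ x y z) (norm_nonneg β)
  calc _ ≤ K * ‖x‖ * ‖y‖ * ‖z‖ + ‖β‖ * (6 * ‖x‖ * ‖y‖ * ‖z‖) := add_le_add h1 h2
    _ = _ := by ring

/-- step (1) -/
theorem step1 (hs1 : ∀ x y z, κ x y z = κ y x z)
    (hinv : ∀ x y, y * y = 0 → κ x x (y * x - x * y) = 0) (x z y : A) (hy : y * y = 0) :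
    2 * κ x z (y * x - x * y) + κ x x (y * z - z * y) = 0 := by
  have h0 := hinv x y hy
  have h3 := hinv z y hy
  have h1 := hinv (x + z) y hy
  have h2 := hinv (x - z) y hy
  simp only [mul_add, add_mul, mul_sub, sub_mul, map_add, map_sub, LinearMap.add_apply,
    LinearMap.sub_apply] at h0 h1 h2 h3 ⊢
  simp only [hs1 z x] at h1 h2
  linear_combination (1 / 2 : ℂ) * h1 - (1 / 2 : ℂ) * h2 - h3


theorem proj_tau_ne_zero (hfaith : ∀ x, τ (star x * x) = 0 → x = 0) {p : A}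
    (hp : IsStarProjection p) (h : p ≠ 0) : τ p ≠ 0 := by
  intro h0
  apply h
  apply hfaith
  rw [hp.isSelfAdjoint.star_eq, hp.isIdempotentElem.eq]
  exact h0

theorem kappa_one (hs1 : ∀ x y z, κ x y z = κ y x z) (hs2 : ∀ x y z, κ x y z = κ x z y)
    (hκ1 : ∀ x y, κ 1 x y = 0) (x y : A) : κ x y 1 = 0 := by
  rw [hs2, hs1, hκ1]

/-- step (2) -/
theorem step2 (hτ1 : τ 1 = 1) (htr : ∀ x y, τ (x * y) = τ (y * x))
    (hFU : ∀ (e : A) (_ : IsStarProjection e) (f : A →ₗ[ℂ] ℂ) (K : ℝ) (_ : ∀ x, ‖f x‖ ≤ K * ‖x‖)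
      (_ : ∀ v, e * v = v → v * e = v → v * v = 0 → f (star v * v) = f (v * star v)) (x : A),
      f (e * x * e) * τ e = f e * τ (e * x * e))
    {K : ℝ} (hK : ∀ x y z, ‖κ x y z‖ ≤ K * ‖x‖ * ‖y‖ * ‖z‖)
    (hs1 : ∀ x y z, κ x y z = κ y x z) (hs2 : ∀ x y z, κ x y z = κ x z y)
    (hκ1 : ∀ x y, κ 1 x y = 0)
    (hinv : ∀ x y, y * y = 0 → κ x x (y * x - x * y) = 0) {p : A} (hp : IsStarProjection p)
    (z : A) : κ p p z * (τ p * (1 - τ p)) = κ p p p * (τ (p * z) - τ p * τ z) := by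
  have hpp : p * p = p := hp.isIdempotentElem.eq
  have hq : IsStarProjection (1 - p) := hp.one_sub
  have hqq : (1 - p) * (1 - p) = 1 - p := hq.isIdempotentElem.eq
  have hpq : p * (1 - p) = 0 := by rw [mul_sub, mul_one, hpp, sub_self]
  have hqp : (1 - p) * p = 0 := by rw [sub_mul, one_mul, hpp, sub_self]
  have hbd : ∀ x, ‖κ p p x‖ ≤ (K * ‖p‖ * ‖p‖) * ‖x‖ := fun x => hK p p x
  -- off diagonal parts
  have off1 : κ p p (p * z * (1 - p)) = 0 := by
    have h1 : (p * z * (1 - p)) * (p * z * (1 - p)) = 0 := by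
      have : (p * z * (1 - p)) * (p * z * (1 - p)) = p * z * ((1 - p) * p) * z * (1 - p) := by
        noncomm_ring
      rw [this, hqp]
      simp
    have h2 := hinv p (p * z * (1 - p)) h1
    have h3 : (p * z * (1 - p)) * p = 0 := by rw [mul_assoc, hqp, mul_zero]
    have h4 : p * (p * z * (1 - p)) = p * z * (1 - p) := by
      rw [← mul_assoc, ← mul_assoc, hpp]
    rw [h3, h4, zero_sub, map_neg, neg_eq_zero] at h2
    exact h2
  have off2 : κ p p ((1 - p) * z * p) = 0 := by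
    have h1 : ((1 - p) * z * p) * ((1 - p) * z * p) = 0 := by
      have : ((1 - p) * z * p) * ((1 - p) * z * p) = (1 - p) * z * (p * (1 - p)) * z * p := by
        noncomm_ring
      rw [this, hpq]
      simp
    have h2 := hinv p ((1 - p) * z * p) h1
    have h3 : p * ((1 - p) * z * p) = 0 := by
      rw [← mul_assoc, ← mul_assoc, hpq, zero_mul, zero_mul]
    have h4 : ((1 - p) * z * p) * p = (1 - p) * z * p := by
      rw [mul_assoc, hpp]
    rw [h3, h4, sub_zero] at h2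
    exact h2
  have comm : ∀ v : A, v * p = p * v → v * v = 0 → κ p p (star v * v) = κ p p (v * star v) := by
    intro v hv hvv
    have h1 := step1 hs1 hinv p (star v) v hvv
    rw [hv, sub_self, map_zero, mul_zero, zero_add, map_sub, sub_eq_zero] at h1
    exact h1.symm
  have d1 := hFU p hp (κ p p) _ hbd (fun v h1 h2 h3 => comm v (h2.trans h1.symm) h3) z
  have d2 := hFU (1 - p) hq (κ p p) _ hbd (fun v h1 h2 h3 => by
    refine comm v ?_ h3
    have h4 : p * v = 0 := by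
      rw [← h1, ← mul_assoc, hpq, zero_mul]
    have h5 : v * p = 0 := by
      rw [← h2, mul_assoc, hqp, mul_zero]
    rw [h4, h5]) z
  have hdec : z = p * z * p + (1 - p) * z * (1 - p) + p * z * (1 - p) + (1 - p) * z * p := by
    noncomm_ring
  have hf : κ p p z = κ p p (p * z * p) + κ p p ((1 - p) * z * (1 - p)) := by
    conv_lhs => rw [hdec]
    rw [map_add, map_add, map_add, off1, off2, add_zero, add_zero]
  have t1 : τ (p * z * p) = τ (p * z) := by
    rw [htr (p * z) p, ← mul_assoc, hpp]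
  have t2 : τ ((1 - p) * z * (1 - p)) = τ z - τ (p * z) := by
    rw [htr ((1 - p) * z) (1 - p), ← mul_assoc, hqq, sub_mul, one_mul, map_sub]
  have t3 : τ (1 - p) = 1 - τ p := by rw [map_sub, hτ1]
  have t4 : κ p p (1 - p) = - κ p p p := by
    rw [map_sub, kappa_one hs1 hs2 hκ1, zero_sub]
  rw [t1] at d1
  rw [t2, t3, t4] at d2
  rw [hf]
  linear_combination (1 - τ p) * d1 + τ p * d2

/-- the constant of a projection -/
noncomputable def CC (τ : A →ₗ[ℂ] ℂ) (κ : A →ₗ[ℂ] A →ₗ[ℂ] A →ₗ[ℂ] ℂ) (p : A) : ℂ :=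
  κ p p p / (τ p * (1 - τ p))


theorem tau_one_sub (hτ1 : τ 1 = 1) (hfaith : ∀ x, τ (star x * x) = 0 → x = 0) {p : A}
    (hp : IsStarProjection p) (h : p ≠ 1) : 1 - τ p ≠ 0 := by
  have h1 := proj_tau_ne_zero hfaith hp.one_sub (sub_ne_zero.2 (Ne.symm h))
  rwa [map_sub, hτ1] at h1

theorem CC_spec (hτ1 : τ 1 = 1) (htr : ∀ x y, τ (x * y) = τ (y * x))
    (hfaith : ∀ x, τ (star x * x) = 0 → x = 0)
    (hFU : ∀ (e : A) (_ : IsStarProjection e) (f : A →ₗ[ℂ] ℂ) (K : ℝ) (_ : ∀ x, ‖f x‖ ≤ K * ‖x‖)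
      (_ : ∀ v, e * v = v → v * e = v → v * v = 0 → f (star v * v) = f (v * star v)) (x : A),
      f (e * x * e) * τ e = f e * τ (e * x * e))
    {K : ℝ} (hK : ∀ x y z, ‖κ x y z‖ ≤ K * ‖x‖ * ‖y‖ * ‖z‖)
    (hs1 : ∀ x y z, κ x y z = κ y x z) (hs2 : ∀ x y z, κ x y z = κ x z y)
    (hκ1 : ∀ x y, κ 1 x y = 0)
    (hinv : ∀ x y, y * y = 0 → κ x x (y * x - x * y) = 0) {p : A} (hp : IsStarProjection p)
    (h0 : p ≠ 0) (h1 : p ≠ 1) (z : A) :
    κ p p z = CC τ κ p * (τ (p * z) - τ p * τ z) := by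
  have h2 := step2 hτ1 htr hFU hK hs1 hs2 hκ1 hinv hp z
  have h3 := proj_tau_ne_zero hfaith hp h0
  have h4 := tau_one_sub hτ1 hfaith hp h1
  unfold CC
  rw [div_mul_eq_mul_div, eq_div_iff (mul_ne_zero h3 h4)]
  exact h2

theorem step4 (hτ1 : τ 1 = 1) (htr : ∀ x y, τ (x * y) = τ (y * x))
    (hfaith : ∀ x, τ (star x * x) = 0 → x = 0)
    (hFU : ∀ (e : A) (_ : IsStarProjection e) (f : A →ₗ[ℂ] ℂ) (K : ℝ) (_ : ∀ x, ‖f x‖ ≤ K * ‖x‖)
      (_ : ∀ v, e * v = v → v * e = v → v * v = 0 → f (star v * v) = f (v * star v)) (x : A),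
      f (e * x * e) * τ e = f e * τ (e * x * e))
    {K : ℝ} (hK : ∀ x y z, ‖κ x y z‖ ≤ K * ‖x‖ * ‖y‖ * ‖z‖)
    (hs1 : ∀ x y z, κ x y z = κ y x z) (hs2 : ∀ x y z, κ x y z = κ x z y)
    (hκ1 : ∀ x y, κ 1 x y = 0)
    (hinv : ∀ x y, y * y = 0 → κ x x (y * x - x * y) = 0) {p q : A} (hp : IsStarProjection p)
    (hq : IsStarProjection q) (hpq : p * q = 0) (hp0 : p ≠ 0) (hq0 : q ≠ 0) :
    CC τ κ p * (1 - 2 * τ q) = CC τ κ q * (1 - 2 * τ p) := by
  have hpp : p * p = p := hp.isIdempotentElem.eq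
  have hqq : q * q = q := hq.isIdempotentElem.eq
  have hqp : q * p = 0 := by
    have := congrArg star hpq
    rw [star_mul, hp.isSelfAdjoint.star_eq, hq.isSelfAdjoint.star_eq, star_zero] at this
    exact this
  have hp1 : p ≠ 1 := by
    intro h
    rw [h, one_mul] at hpq
    exact hq0 hpq
  have hq1 : q ≠ 1 := by
    intro h
    rw [h, mul_one] at hpq
    exact hp0 hpq
  have ha := proj_tau_ne_zero hfaith hp hp0
  have hb := proj_tau_ne_zero hfaith hq hq0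
  have ha1 := tau_one_sub hτ1 hfaith hp hp1
  have hb1 := tau_one_sub hτ1 hfaith hq hq1
  by_cases hr1 : p + q = 1
  · have hqe : q = 1 - p := by rw [← hr1]; abel
    have e1 : κ q q q = - κ p p p := by
      rw [hqe]
      have k1 : ∀ y z, κ (1 - p) y z = - κ p y z := by
        intro y z
        rw [map_sub, LinearMap.sub_apply, LinearMap.sub_apply, hκ1, zero_sub]
      rw [k1, hs1, k1, hs2, hs1, k1]
      ring
    have e2 : τ q = 1 - τ p := by rw [hqe, map_sub, hτ1]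
    unfold CC
    rw [e1, e2]
    rw [e2] at hb hb1
    have : (1 - (1 - τ p)) = τ p := by ring
    rw [this] at hb1 ⊢
    field_simp
    ring
  · have hr : IsStarProjection (p + q) := by
      refine ⟨?_, hp.isSelfAdjoint.add hq.isSelfAdjoint⟩
      show (p + q) * (p + q) = p + q
      rw [add_mul, mul_add, mul_add, hpp, hqq, hpq, hqp, add_zero, zero_add]
    have hr0 : p + q ≠ 0 := by
      intro h
      apply hp0
      have : p * (p + q) = p := by rw [mul_add, hpp, hpq, add_zero]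
      rw [← this, h, mul_zero]
    have hra := proj_tau_ne_zero hfaith hr hr0
    have hra1 := tau_one_sub hτ1 hfaith hr hr1
    rw [map_add] at hra hra1
    have s1 := step2 hτ1 htr hFU hK hs1 hs2 hκ1 hinv hr p
    have s2 := step2 hτ1 htr hFU hK hs1 hs2 hκ1 hinv hr q
    rw [add_mul, hpp, hqp, add_zero, map_add τ p q] at s1
    rw [add_mul, hqq, hpq, zero_add, map_add τ p q] at s2
    have c1 := CC_spec hτ1 htr hfaith hFU hK hs1 hs2 hκ1 hinv hp hp0 hp1 p
    have c2 := CC_spec hτ1 htr hfaith hFU hK hs1 hs2 hκ1 hinv hp hp0 hp1 q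
    have c3 := CC_spec hτ1 htr hfaith hFU hK hs1 hs2 hκ1 hinv hq hq0 hq1 p
    have c4 := CC_spec hτ1 htr hfaith hFU hK hs1 hs2 hκ1 hinv hq hq0 hq1 q
    rw [hpp] at c1
    rw [hpq, map_zero, zero_sub] at c2
    rw [hqp, map_zero, zero_sub] at c3
    rw [hqq] at c4
    have e1 : κ (p + q) (p + q) p = κ p p p + 2 * κ p p q + κ q q p := by
      simp only [map_add, LinearMap.add_apply]
      rw [hs1 q p p, hs2 p q p]
      ring
    have e2 : κ (p + q) (p + q) q = κ p p q + 2 * κ q q p + κ q q q := by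
      simp only [map_add, LinearMap.add_apply]
      rw [hs1 p q q, hs2 q p q]
      ring
    have e3 : κ (p + q) (p + q) p * τ q = κ (p + q) (p + q) q * τ p := by
      have h5 : (κ (p + q) (p + q) p * τ q - κ (p + q) (p + q) q * τ p) *
          ((τ p + τ q) * (1 - (τ p + τ q))) = 0 := by
        linear_combination τ q * s1 - τ p * s2
      have h6 := (mul_eq_zero.1 h5).resolve_right (mul_ne_zero hra hra1)
      exact sub_eq_zero.1 h6
    rw [e1, e2, c1, c2, c3, c4] at e3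
    have e4 : (τ p * τ q) * (CC τ κ p * (1 - 2 * τ q) - CC τ κ q * (1 - 2 * τ p)) = 0 := by
      linear_combination e3
    have e5 := (mul_eq_zero.1 e4).resolve_left (mul_ne_zero ha hb)
    exact sub_eq_zero.1 e5


/-- vanishing on the diagonal for projections, extended to corners -/
theorem corner_vanish (htr : ∀ x y, τ (x * y) = τ (y * x)) (hτ : ∀ x, ‖τ x‖ ≤ ‖x‖)
    {K : ℝ} (hK : ∀ x y z, ‖κ x y z‖ ≤ K * ‖x‖ * ‖y‖ * ‖z‖)
    (hs1 : ∀ x y z, κ x y z = κ y x z) {f : A} (hf : IsStarProjection f)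
    (hdense : ∀ x, IsSelfAdjoint x → f * x = x → ∀ ε : ℝ, 0 < ε →
      ∃ (n : ℕ) (p : Fin n → A) (t : Fin n → ℝ), (∀ i, IsStarProjection (p i)) ∧
        (∀ i, f * p i = p i) ∧ (∀ i j, i ≠ j → p i * p j = 0) ∧ ‖x - ∑ i, (t i : ℂ) • p i‖ < ε)
    (hD : ∀ p, IsStarProjection p → f * p = p → ∀ z, DD τ κ β p p z = 0) :
    ∀ x y z, f * x = x → x * f = x → f * y = y → y * f = y → DD τ κ β x y z = 0 := by
  -- orthogonal sums
  have hsumz : ∀ (n : ℕ) (p : Fin n → A) (t : Fin n → ℝ), (∀ i, IsStarProjection (p i)) →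
      (∀ i, f * p i = p i) → (∀ i j, i ≠ j → p i * p j = 0) → ∀ z,
      DD τ κ β (∑ i, (t i : ℂ) • p i) (∑ i, (t i : ℂ) • p i) z = 0 := by
    intro n p t hp hfp horth z
    rw [DD_sum]
    refine Finset.sum_eq_zero (fun i _ => ?_)
    rw [DD_smul, DD_sum_right htr hs1]
    rw [Finset.sum_eq_zero (fun j _ => ?_), mul_zero]
    rw [DD_smul_right htr hs1]
    by_cases hij : i = j
    · rw [hij, hD _ (hp j) (hfp j), mul_zero]
    · have hr : IsStarProjection (p i + p j) := by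
        refine ⟨?_, (hp i).isSelfAdjoint.add (hp j).isSelfAdjoint⟩
        show (p i + p j) * (p i + p j) = p i + p j
        rw [add_mul, mul_add, mul_add, (hp i).isIdempotentElem.eq, (hp j).isIdempotentElem.eq,
          horth i j hij, horth j i (Ne.symm hij), add_zero, zero_add]
      have h1 := hD _ hr (by rw [mul_add, hfp, hfp]) z
      rw [DD_add, DD_add_right htr hs1, DD_add_right htr hs1, hD _ (hp i) (hfp i),
        hD _ (hp j) (hfp j), DD_symm htr hs1 (p j) (p i)] at h1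
      have h2 : DD τ κ β (p i) (p j) z = 0 := by
        have h3 : (2 : ℂ) * DD τ κ β (p i) (p j) z = 0 := by linear_combination h1
        exact (mul_eq_zero.1 h3).resolve_left two_ne_zero
      rw [h2, mul_zero]
  -- self adjoint elements of the corner, diagonal
  have hsa : ∀ x, IsSelfAdjoint x → f * x = x → ∀ z, DD τ κ β x x z = 0 := by
    intro x hx hfx z
    set L : ℝ := |K + 6 * ‖β‖| with hL
    have hL0 : 0 ≤ L := abs_nonneg _
    have hbd : ∀ x y z, ‖DD τ κ β x y z‖ ≤ L * ‖x‖ * ‖y‖ * ‖z‖ := by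
      intro x y z
      refine (DD_bound hτ hK x y z).trans ?_
      have := le_abs_self (K + 6 * ‖β‖)
      gcongr
    have hle : ∀ ε : ℝ, 0 < ε → ε ≤ 1 → ‖DD τ κ β x x z‖ ≤ ε * (L * (2 * ‖x‖ + 1) * ‖z‖) := by
      intro ε hε hε1
      obtain ⟨n, p, t, hp, hfp, horth, hclose⟩ := hdense x hx hfx ε hε
      set x' := ∑ i, (t i : ℂ) • p i with hx'
      have h0 := hsumz n p t hp hfp horth z
      rw [← hx'] at h0
      have h1 : DD τ κ β x x z = DD τ κ β (x - x') x z + DD τ κ β (x - x') x' z := by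
        have e1 : DD τ κ β x x z = DD τ κ β (x - x') x z + DD τ κ β x' x z := by
          rw [← DD_add, sub_add_cancel]
        have e2 : DD τ κ β x' x z = DD τ κ β (x - x') x' z + DD τ κ β x' x' z := by
          rw [DD_symm htr hs1 x' x, ← DD_add, sub_add_cancel]
        rw [e1, e2, h0, add_zero]
      rw [h1]
      have hx'n : ‖x'‖ ≤ ‖x‖ + 1 := by
        have : x' = x - (x - x') := by abel
        rw [this]
        refine (norm_sub_le _ _).trans ?_
        linarith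
      calc ‖DD τ κ β (x - x') x z + DD τ κ β (x - x') x' z‖
          ≤ L * ‖x - x'‖ * ‖x‖ * ‖z‖ + L * ‖x - x'‖ * ‖x'‖ * ‖z‖ :=
            (norm_add_le _ _).trans (add_le_add (hbd _ _ _) (hbd _ _ _))
        _ ≤ L * ε * ‖x‖ * ‖z‖ + L * ε * (‖x‖ + 1) * ‖z‖ := by gcongr
        _ = ε * (L * (2 * ‖x‖ + 1) * ‖z‖) := by ring
    by_contra hne
    have hpos : 0 < ‖DD τ κ β x x z‖ := norm_pos_iff.2 hne
    set M : ℝ := L * (2 * ‖x‖ + 1) * ‖z‖ with hM
    have hM0 : 0 ≤ M := by positivity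
    have h1 := hle (min 1 (‖DD τ κ β x x z‖ / (2 * (M + 1)))) (lt_min one_pos (by positivity))
      (min_le_left _ _)
    have h2 : min 1 (‖DD τ κ β x x z‖ / (2 * (M + 1))) * M ≤
        ‖DD τ κ β x x z‖ / (2 * (M + 1)) * M :=
      mul_le_mul_of_nonneg_right (min_le_right _ _) hM0
    have h3 : ‖DD τ κ β x x z‖ / (2 * (M + 1)) * M < ‖DD τ κ β x x z‖ := by
      rw [div_mul_eq_mul_div, div_lt_iff₀ (by positivity)]
      nlinarith
    linarith
  -- self adjoint pairs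
  have hsa2 : ∀ x y, IsSelfAdjoint x → IsSelfAdjoint y → f * x = x → f * y = y → ∀ z,
      DD τ κ β x y z = 0 := by
    intro x y hx hy hfx hfy z
    have h1 := hsa (x + y) (hx.add hy) (by rw [mul_add, hfx, hfy]) z
    rw [DD_add, DD_add_right htr hs1, DD_add_right htr hs1, hsa x hx hfx, hsa y hy hfy,
      DD_symm htr hs1 y x] at h1
    have h3 : (2 : ℂ) * DD τ κ β x y z = 0 := by linear_combination h1
    exact (mul_eq_zero.1 h3).resolve_left two_ne_zero
  -- decomposition of corner elements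
  have hdecomp : ∀ x, f * x = x → x * f = x → ∃ u v : A, IsSelfAdjoint u ∧ IsSelfAdjoint v ∧
      f * u = u ∧ f * v = v ∧ x = u + Complex.I • v := by
    intro x h1 h2
    have h3 : f * star x = star x := by
      have := congrArg star h2
      rwa [star_mul, hf.isSelfAdjoint.star_eq] at this
    refine ⟨(2⁻¹ : ℂ) • (x + star x), (-(Complex.I / 2) : ℂ) • (x - star x), ?_, ?_, ?_, ?_, ?_⟩
    · rw [isSelfAdjoint_iff, star_smul, star_add, star_star, add_comm]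
      simp
    · rw [isSelfAdjoint_iff, star_smul, star_sub, star_star]
      rw [show star (-(Complex.I / 2) : ℂ) = Complex.I / 2 by simp; ring]
      rw [← neg_sub x (star x), smul_neg, ← neg_smul]
    · rw [mul_smul_comm, mul_add, h1, h3]
    · rw [mul_smul_comm, mul_sub, h1, h3]
    · rw [smul_smul]
      have : Complex.I * -(Complex.I / 2) = 2⁻¹ := by
        have := Complex.I_mul_I
        linear_combination (-(1 / 2 : ℂ)) * this
      rw [this, ← smul_add]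
      rw [show x + star x + (x - star x) = (2 : ℂ) • x by rw [two_smul]; abel]
      rw [smul_smul]
      norm_num
  intro x y z hx1 hx2 hy1 hy2
  obtain ⟨u, v, hu, hv, hfu, hfv, hxe⟩ := hdecomp x hx1 hx2
  obtain ⟨u', v', hu', hv', hfu', hfv', hye⟩ := hdecomp y hy1 hy2
  rw [hxe, hye, DD_add, DD_add_right htr hs1, DD_add_right htr hs1, DD_smul, DD_smul,
    DD_smul_right htr hs1, DD_smul_right htr hs1, hsa2 u u' hu hu' hfu hfu',
    hsa2 u v' hu hv' hfu hfv', hsa2 v u' hv hu' hfv hfu', hsa2 v v' hv hv' hfv hfv']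
  ring

end aux

/-- Classification of bounded invariant symmetric trilinear forms killing the unit. -/
theorem trilin_class {A : Type*} [CStarAlgebra A] (τ : A →ₗ[ℂ] ℂ)
    (hpos : ∀ x, 0 ≤ (τ (star x * x)).re ∧ (τ (star x * x)).im = 0) (hone : τ 1 = 1)
    (htr : ∀ x y, τ (x * y) = τ (y * x))
    (hfaith : ∀ x, τ (star x * x) = 0 → x = 0)
    (hτ : ∀ x, ‖τ x‖ ≤ ‖x‖)
    (hdense : ∀ e : A, IsStarProjection e → ∀ x, IsSelfAdjoint x → e * x = x → ∀ ε : ℝ, 0 < ε →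
      ∃ (n : ℕ) (p : Fin n → A) (t : Fin n → ℝ), (∀ i, IsStarProjection (p i)) ∧
        (∀ i, e * p i = p i) ∧ (∀ i j, i ≠ j → p i * p j = 0) ∧ ‖x - ∑ i, (t i : ℂ) • p i‖ < ε)
    (hFU : ∀ (e : A) (_ : IsStarProjection e) (f : A →ₗ[ℂ] ℂ) (K : ℝ) (_ : ∀ x, ‖f x‖ ≤ K * ‖x‖)
      (_ : ∀ v, e * v = v → v * e = v → v * v = 0 → f (star v * v) = f (v * star v)) (x : A),
      f (e * x * e) * τ e = f e * τ (e * x * e))
    (n : ℕ) (hn : 5 ≤ n) (e : Fin n → A) (he : ∀ i, IsStarProjection (e i))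
    (horth : ∀ i j, i ≠ j → e i * e j = 0) (hsum : ∑ i, e i = 1) (hne : ∀ i, e i ≠ 0)
    (hhalf : ∀ i, τ (e i) ≠ 1 / 2)
    (κ : A →ₗ[ℂ] A →ₗ[ℂ] A →ₗ[ℂ] ℂ) (K : ℝ) (hK : ∀ x y z, ‖κ x y z‖ ≤ K * ‖x‖ * ‖y‖ * ‖z‖)
    (hs1 : ∀ x y z, κ x y z = κ y x z) (hs2 : ∀ x y z, κ x y z = κ x z y)
    (hκ1 : ∀ x y, κ 1 x y = 0)
    (hinv : ∀ x y, y * y = 0 → κ x x (y * x - x * y) = 0) :
    ∃ β : ℂ, ∀ x y z, κ x y z =
      β * (τ (((x - τ x • 1) * (y - τ y • 1) + (y - τ y • 1) * (x - τ x • 1)) * (z - τ z • 1)) / 2) := by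
  have hn0 : 0 < n := by omega
  set i0 : Fin n := ⟨0, hn0⟩ with hi0
  have hh : ∀ i, 1 - 2 * τ (e i) ≠ 0 := by
    intro i h
    apply hhalf i
    linear_combination (-(1 / 2 : ℂ)) * h
  set β : ℂ := CC τ κ (e i0) / (1 - 2 * τ (e i0)) with hβ
  -- constants
  have hCe : ∀ q, IsStarProjection q → q ≠ 0 → e i0 * q = 0 →
      CC τ κ q = β * (1 - 2 * τ q) := by
    intro q hq hq0 h
    have h1 := step4 hone htr hfaith hFU hK hs1 hs2 hκ1 hinv (he i0) hq h (hne i0) hq0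
    rw [hβ, div_mul_eq_mul_div, eq_div_iff (hh i0)]
    exact h1.symm
  have hCi : ∀ i, CC τ κ (e i) = β * (1 - 2 * τ (e i)) := by
    intro i
    by_cases hi : i = i0
    · rw [hi, hβ, div_mul_cancel₀ _ (hh i0)]
    · exact hCe (e i) (he i) (hne i) (horth i0 i (Ne.symm hi))
  have hCp : ∀ m, ∀ p, IsStarProjection p → p ≠ 0 → e m * p = 0 →
      CC τ κ p = β * (1 - 2 * τ p) := by
    intro m p hp hp0 h
    have h1 := step4 hone htr hfaith hFU hK hs1 hs2 hκ1 hinv (he m) hp h (hne m) hp0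
    rw [hCi m] at h1
    have h2 : (CC τ κ p - β * (1 - 2 * τ p)) * (1 - 2 * τ (e m)) = 0 := by
      linear_combination (-1 : ℂ) * h1
    exact sub_eq_zero.1 ((mul_eq_zero.1 h2).resolve_right (hh m))
  have hDp : ∀ m, ∀ p, IsStarProjection p → (1 - e m) * p = p → ∀ z, DD τ κ β p p z = 0 := by
    intro m p hp h z
    by_cases hp0 : p = 0
    · rw [hp0]
      have := DD_smul (τ := τ) (κ := κ) (β := β) 0 (0 : A) 0 z
      rwa [zero_smul, zero_mul] at this
    have hemp : e m * p = 0 := by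
      rw [sub_mul, one_mul, sub_eq_self] at h
      exact h
    have hp1 : p ≠ 1 := by
      intro h1
      rw [h1, mul_one] at hemp
      exact hne m hemp
    have h1 := CC_spec hone htr hfaith hFU hK hs1 hs2 hκ1 hinv hp hp0 hp1 z
    unfold DD cc
    rw [h1, hCp m p hp hp0 hemp, hp.isIdempotentElem.eq]
    ring
  have hcorner : ∀ m, ∀ x y z, (1 - e m) * x = x → x * (1 - e m) = x → (1 - e m) * y = y →
      y * (1 - e m) = y → DD τ κ β x y z = 0 := fun m =>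
    corner_vanish htr hτ hK hs1 (he m).one_sub (hdense (1 - e m) (he m).one_sub) (hDp m)
  have hex : ∀ i j k l : Fin n, ∃ m, m ≠ i ∧ m ≠ j ∧ m ≠ k ∧ m ≠ l := by
    intro i j k l
    by_contra hcon
    push Not at hcon
    have h1 : (Finset.univ : Finset (Fin n)) ⊆ {i, j, k, l} := by
      intro m _
      simp only [Finset.mem_insert, Finset.mem_singleton]
      by_cases h1 : m = i
      · exact Or.inl h1
      · by_cases h2 : m = j
        · exact Or.inr (Or.inl h2)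
        · by_cases h3 : m = k
          · exact Or.inr (Or.inr (Or.inl h3))
          · exact Or.inr (Or.inr (Or.inr (hcon m h1 h2 h3)))
    have h2 := Finset.card_le_card h1
    have h3 : ({i, j, k, l} : Finset (Fin n)).card ≤ 4 := Finset.card_le_four
    rw [Finset.card_univ, Fintype.card_fin] at h2
    omega
  have hpart : ∀ i j k l : Fin n, ∀ x y z, DD τ κ β (e i * x * e j) (e k * y * e l) z = 0 := by
    intro i j k l x y z
    obtain ⟨m, hi, hj, hk, hl⟩ := hex i j k l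
    have hL : ∀ i, m ≠ i → ∀ w, (1 - e m) * (e i * w) = e i * w := by
      intro i hmi w
      rw [sub_mul, one_mul, ← mul_assoc, horth m i hmi, zero_mul, sub_zero]
    have hR : ∀ j, m ≠ j → ∀ w, (w * e j) * (1 - e m) = w * e j := by
      intro j hmj w
      rw [mul_sub, mul_one, mul_assoc, horth j m (Ne.symm hmj), mul_zero, sub_zero]
    refine hcorner m _ _ z ?_ ?_ ?_ ?_
    · rw [mul_assoc (e i)]
      exact hL i hi _
    · exact hR j hj _
    · rw [mul_assoc (e k)]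
      exact hL k hk _
    · exact hR l hl _
  have hdec : ∀ x : A, x = ∑ i, ∑ j, e i * x * e j := by
    intro x
    have h1 : ∀ i, ∑ j, e i * x * e j = e i * x := by
      intro i
      rw [← Finset.mul_sum, hsum, mul_one]
    rw [Finset.sum_congr rfl (fun i _ => h1 i), ← Finset.sum_mul, hsum, one_mul]
  refine ⟨β, fun x y z => ?_⟩
  rw [cc_eq τ hone htr]
  have hfin : DD τ κ β x y z = 0 := by
    rw [hdec x, hdec y, DD_sum]
    refine Finset.sum_eq_zero (fun i _ => ?_)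
    rw [DD_sum]
    refine Finset.sum_eq_zero (fun j _ => ?_)
    rw [DD_sum_right htr hs1]
    refine Finset.sum_eq_zero (fun k _ => ?_)
    rw [DD_sum_right htr hs1]
    refine Finset.sum_eq_zero (fun l _ => ?_)
    exact hpart i j k l x y z
  unfold DD at hfin
  exact sub_eq_zero.1 hfin

end Pool.Agent.Helper187.Fac
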