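import Mathlib

namespace Pool.Agent.Helper187.Fac

/-- an orthogonal family of nonzero projections with sum one -/
def Fam {A : Type*} [CStarAlgebra A] (n : ℕ) (e : Fin n → A) : Prop :=
  (∀ i, IsStarProjection (e i)) ∧ (∀ i j, i ≠ j → e i * e j = 0) ∧ ∑ i, e i = 1 ∧ ∀ i, e i ≠ 0

theorem Fam.split {A : Type*} [CStarAlgebra A]
    (hdiff : ∀ p : A, IsStarProjection p → p ≠ 0 →
      ∃ q, IsStarProjection q ∧ q ≠ 0 ∧ q ≠ p ∧ p * q = q) {n : ℕ} {e : Fin n → A}
    (he : Fam n e) (i : Fin n) :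
    ∃ e' : Fin (n + 1) → A, Fam (n + 1) e' ∧ e' 0 + e' i.succ = e i := by
  obtain ⟨h1, h2, h3, h4⟩ := he
  obtain ⟨q, hq, hq0, hqp, hpq⟩ := hdiff (e i) (h1 i) (h4 i)
  have hqp' : q * e i = q := by
    have := congrArg star hpq
    rwa [star_mul, hq.isSelfAdjoint.star_eq, (h1 i).isSelfAdjoint.star_eq] at this
  have hr : IsStarProjection (e i - q) := hq.sub_of_mul_eq_right (h1 i) hpq
  have hr0 : e i - q ≠ 0 := fun h => hqp (sub_eq_zero.1 h).symm
  have hqr : q * (e i - q) = 0 := by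
    rw [mul_sub, hqp', hq.isIdempotentElem.eq, sub_self]
  have hrq : (e i - q) * q = 0 := by
    rw [sub_mul, hpq, hq.isIdempotentElem.eq, sub_self]
  have hqj : ∀ j, j ≠ i → q * e j = 0 := by
    intro j hj
    rw [← hqp', mul_assoc, h2 i j hj.symm, mul_zero]
  have hjq : ∀ j, j ≠ i → e j * q = 0 := by
    intro j hj
    rw [← hpq, ← mul_assoc, h2 j i hj, zero_mul]
  set f : Fin n → A := Function.update e i (e i - q) with hf
  have hfi : f i = e i - q := Function.update_self _ _ _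
  have hfj : ∀ j, j ≠ i → f j = e j := fun j hj => Function.update_of_ne hj _ _
  have f1 : ∀ j, IsStarProjection (f j) := by
    intro j
    by_cases hj : j = i
    · rw [hj, hfi]; exact hr
    · rw [hfj j hj]; exact h1 j
  have f2 : ∀ j k, j ≠ k → f j * f k = 0 := by
    intro j k hjk
    by_cases hj : j = i
    · have hk : k ≠ i := fun h => hjk (hj.trans h.symm)
      rw [hj, hfi, hfj k hk, sub_mul, hqj k hk, h2 i k hk.symm, sub_zero]
    · by_cases hk : k = i
      · rw [hk, hfi, hfj j hj, mul_sub, hjq j hj, h2 j i hj, sub_zero]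
      · rw [hfj j hj, hfj k hk]; exact h2 j k hjk
  have f3 : q * f i = 0 ∧ f i * q = 0 := by rw [hfi]; exact ⟨hqr, hrq⟩
  have f4 : ∀ j, q * f j = 0 ∧ f j * q = 0 := by
    intro j
    by_cases hj : j = i
    · rw [hj]; exact f3
    · rw [hfj j hj]; exact ⟨hqj j hj, hjq j hj⟩
  have f5 : ∑ j, f j = 1 - q := by
    have : ∑ j, f j = ∑ j, (e j - if j = i then q else 0) := by
      refine Finset.sum_congr rfl fun j _ => ?_
      by_cases hj : j = i
      · rw [if_pos hj, hj, hfi]
      · rw [if_neg hj, hfj j hj, sub_zero]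
    rw [this, Finset.sum_sub_distrib, h3]
    simp
  refine ⟨Fin.cons q f, ⟨?_, ?_, ?_, ?_⟩, ?_⟩
  · intro j
    refine Fin.cases ?_ (fun j => ?_) j
    · simpa using hq
    · simpa using f1 j
  · intro j
    refine Fin.cases ?_ (fun j => ?_) j
    · intro k
      refine Fin.cases ?_ (fun k => ?_) k
      · intro h; exact absurd rfl h
      · intro _; simpa using (f4 k).1
    · intro k
      refine Fin.cases ?_ (fun k => ?_) k
      · intro _; simpa using (f4 j).2
      · intro h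
        have : j ≠ k := fun h' => h (by rw [h'])
        simpa using f2 j k this
  · rw [Fin.sum_univ_succ]
    simp only [Fin.cons_zero, Fin.cons_succ]
    rw [f5]; abel
  · intro j
    refine Fin.cases ?_ (fun j => ?_) j
    · simpa using hq0
    · rw [Fin.cons_succ]
      by_cases hj : j = i
      · rw [hj, hfi]; exact hr0
      · rw [hfj j hj]; exact h4 j
  · rw [Fin.cons_zero, Fin.cons_succ, hfi]; abel

/-- Partition of the unit into at least five nonzero projections, none of trace `1/2`. -/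
theorem exists_partition {A : Type*} [CStarAlgebra A] (τ : A →ₗ[ℂ] ℂ)
    (hpos : ∀ x, 0 ≤ (τ (star x * x)).re ∧ (τ (star x * x)).im = 0) (hone : τ 1 = 1)
    (hfaith : ∀ x, τ (star x * x) = 0 → x = 0)
    (hdiff : ∀ p : A, IsStarProjection p → p ≠ 0 →
      ∃ q, IsStarProjection q ∧ q ≠ 0 ∧ q ≠ p ∧ p * q = q) :
    ∃ (n : ℕ) (_ : 5 ≤ n) (e : Fin n → A), (∀ i, IsStarProjection (e i)) ∧
      (∀ i j, i ≠ j → e i * e j = 0) ∧ ∑ i, e i = 1 ∧ (∀ i, e i ≠ 0) ∧ (∀ i, τ (e i) ≠ 1 / 2) := by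
  have h10 : (1 : A) ≠ 0 := by
    intro h
    rw [h, map_zero] at hone
    exact zero_ne_one hone
  have hF1 : ∃ e : Fin 1 → A, Fam 1 e :=
    ⟨fun _ => 1, fun _ => IsStarProjection.one A, fun i j h => absurd (Subsingleton.elim i j) h,
      by simp, fun _ => h10⟩
  obtain ⟨e1, he1⟩ := hF1
  obtain ⟨e2, he2, -⟩ := he1.split hdiff 0
  obtain ⟨e3, he3, -⟩ := he2.split hdiff 0
  obtain ⟨e4, he4, -⟩ := he3.split hdiff 0
  obtain ⟨e5, he5, -⟩ := he4.split hdiff 0
  by_cases hgood : ∀ i, τ (e5 i) ≠ 1 / 2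
  · exact ⟨5, le_refl _, e5, he5.1, he5.2.1, he5.2.2.1, he5.2.2.2, hgood⟩
  push Not at hgood
  obtain ⟨i, hi⟩ := hgood
  obtain ⟨e6, he6, hsp⟩ := he5.split hdiff i
  have hpos' : ∀ j, 0 < (τ (e6 j)).re := by
    intro j
    have hp := he6.1 j
    have hx : star (e6 j) * e6 j = e6 j := by
      rw [hp.isSelfAdjoint.star_eq, hp.isIdempotentElem.eq]
    obtain ⟨h1, h2⟩ := hpos (e6 j)
    rw [hx] at h1 h2
    refine lt_of_le_of_ne h1 fun h => he6.2.2.2 j (hfaith _ ?_)
    rw [hx]
    exact Complex.ext h.symm h2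
  have hsum : ∑ j, (τ (e6 j)).re = 1 := by
    have := congrArg τ he6.2.2.1
    rw [map_sum, hone] at this
    have := congrArg Complex.re this
    rwa [Complex.re_sum, Complex.one_re] at this
  have hhalf : (τ (e6 0)).re + (τ (e6 i.succ)).re = 1 / 2 := by
    rw [← Complex.add_re, ← map_add, hsp, hi]
    norm_num
  refine ⟨6, by norm_num, e6, he6.1, he6.2.1, he6.2.2.1, he6.2.2.2, ?_⟩
  intro a ha
  have ha' : (τ (e6 a)).re = 1 / 2 := by rw [ha]; norm_num
  by_cases h0 : a = 0
  · rw [h0] at ha'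
    have := hpos' i.succ
    linarith
  by_cases h1 : a = i.succ
  · rw [h1] at ha'
    have := hpos' 0
    linarith
  -- another index
  obtain ⟨b, hb⟩ : ∃ b : Fin 6, b ∉ ({a, 0, i.succ} : Finset (Fin 6)) := by
    by_contra hcon
    push Not at hcon
    have : (Finset.univ : Finset (Fin 6)) ⊆ {a, 0, i.succ} := fun b _ => hcon b
    have := Finset.card_le_card this
    have h3 : ({a, 0, i.succ} : Finset (Fin 6)).card ≤ 3 := Finset.card_le_three
    simp only [Finset.card_univ, Fintype.card_fin] at this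
    omega
  have hle : ∑ j ∈ insert b ({a, 0, i.succ} : Finset (Fin 6)), (τ (e6 j)).re ≤
      ∑ j, (τ (e6 j)).re :=
    Finset.sum_le_sum_of_subset_of_nonneg (Finset.subset_univ _) fun j _ _ => (hpos' j).le
  have h0s : (0 : Fin 6) ≠ i.succ := (Fin.succ_ne_zero i).symm
  rw [Finset.sum_insert hb, Finset.sum_insert (by simp [h0, h1]), Finset.sum_insert (by simpa using h0s),
    Finset.sum_singleton, hsum] at hle
  have := hpos' b
  linarith

end Pool.Agent.Helper187.Fac
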