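import Mathlib

namespace Pool.Agent.Helper187.Fac

/-- Polarization bound, bilinear case. -/
theorem bilin_bound {A : Type*} [NormedAddCommGroup A] [NormedSpace ℂ A] (κ : A →ₗ[ℂ] A →ₗ[ℂ] ℂ)
    (K : ℝ) (hs : ∀ x y, κ x y = κ y x) (hQ : ∀ x, ‖κ x x‖ ≤ K * ‖x‖ ^ 2) (x y : A) :
    ‖κ x y‖ ≤ 2 * K * ‖x‖ * ‖y‖ := by
  have unit : ∀ a b : A, ‖a‖ = 1 → ‖b‖ = 1 → ‖κ a b‖ ≤ 2 * K := by
    intro a b ha hb
    have hK : 0 ≤ K := by
      have := hQ a
      rw [ha] at this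
      have h0 := norm_nonneg (κ a a)
      linarith
    have e : 4 * κ a b = κ (a + b) (a + b) - κ (a - b) (a - b) := by
      simp only [map_add, map_sub, LinearMap.add_apply, LinearMap.sub_apply]
      rw [hs b a]; ring
    have h1 : ‖a + b‖ ≤ 2 := (norm_add_le a b).trans (by rw [ha, hb]; norm_num)
    have h2 : ‖a - b‖ ≤ 2 := (norm_sub_le a b).trans (by rw [ha, hb]; norm_num)
    have h3 : ‖a + b‖ ^ 2 ≤ 2 ^ 2 := pow_le_pow_left₀ (norm_nonneg _) h1 2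
    have h4 : ‖a - b‖ ^ 2 ≤ 2 ^ 2 := pow_le_pow_left₀ (norm_nonneg _) h2 2
    have h5 : ‖4 * κ a b‖ ≤ K * 2 ^ 2 + K * 2 ^ 2 := by
      rw [e]
      refine (norm_sub_le _ _).trans (add_le_add ?_ ?_)
      · exact (hQ _).trans (mul_le_mul_of_nonneg_left h3 hK)
      · exact (hQ _).trans (mul_le_mul_of_nonneg_left h4 hK)
    rw [norm_mul] at h5
    norm_num at h5
    linarith
  rcases eq_or_ne x 0 with rfl | hx
  · simp
  rcases eq_or_ne y 0 with rfl | hy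
  · simp
  have hx' : 0 < ‖x‖ := norm_pos_iff.2 hx
  have hy' : 0 < ‖y‖ := norm_pos_iff.2 hy
  have hnx : ‖((‖x‖⁻¹ : ℝ) : ℂ) • x‖ = 1 := by
    rw [norm_smul, Complex.norm_real, Real.norm_of_nonneg (by positivity)]
    field_simp
  have hny : ‖((‖y‖⁻¹ : ℝ) : ℂ) • y‖ = 1 := by
    rw [norm_smul, Complex.norm_real, Real.norm_of_nonneg (by positivity)]
    field_simp
  have h := unit _ _ hnx hny
  simp only [map_smul, LinearMap.smul_apply, smul_eq_mul, norm_mul, Complex.norm_real] at h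
  rw [Real.norm_of_nonneg (by positivity), Real.norm_of_nonneg (by positivity)] at h
  have h6 : ‖κ x y‖ = (‖x‖⁻¹ * (‖y‖⁻¹ * ‖κ x y‖)) * (‖x‖ * ‖y‖) := by
    field_simp
  rw [h6]
  have h7 : ‖x‖⁻¹ * (‖y‖⁻¹ * ‖κ x y‖) ≤ 2 * K := by
    calc _ = ‖y‖⁻¹ * (‖x‖⁻¹ * ‖κ x y‖) := by ring
      _ ≤ 2 * K := by first | exact h | (calc _ = ‖x‖⁻¹ * (‖y‖⁻¹ * ‖κ x y‖) := by ring
                                          _ ≤ _ := h)
  calc _ ≤ (2 * K) * (‖x‖ * ‖y‖) := mul_le_mul_of_nonneg_right h7 (by positivity)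
    _ = _ := by ring

/-- Polarization bound, trilinear case. -/
theorem trilin_bound {A : Type*} [NormedAddCommGroup A] [NormedSpace ℂ A]
    (κ : A →ₗ[ℂ] A →ₗ[ℂ] A →ₗ[ℂ] ℂ)
    (K : ℝ) (hs1 : ∀ x y z, κ x y z = κ y x z) (hs2 : ∀ x y z, κ x y z = κ x z y)
    (hQ : ∀ x, ‖κ x x x‖ ≤ K * ‖x‖ ^ 3) (x y z : A) :
    ‖κ x y z‖ ≤ 9 * K * ‖x‖ * ‖y‖ * ‖z‖ := by
  have unit : ∀ a b c : A, ‖a‖ = 1 → ‖b‖ = 1 → ‖c‖ = 1 → ‖κ a b c‖ ≤ 9 * K := by
    intro a b c ha hb hc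
    have hK : 0 ≤ K := by
      have := hQ a
      rw [ha] at this
      have h0 := norm_nonneg (κ a a a)
      linarith
    have e : 24 * κ a b c = κ (a + b + c) (a + b + c) (a + b + c)
        - κ (a + b - c) (a + b - c) (a + b - c) - κ (a - b + c) (a - b + c) (a - b + c)
        + κ (a - b - c) (a - b - c) (a - b - c) := by
      simp only [map_add, map_sub, LinearMap.add_apply, LinearMap.sub_apply]
      rw [hs2 a c b, hs1 b a c, hs2 b c a, hs1 b a c, hs1 c a b, hs2 a c b, hs2 c b a, hs1 c a b,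
        hs2 a c b]
      ring
    have key : ∀ w : A, ‖w‖ ≤ 3 → ‖κ w w w‖ ≤ K * 3 ^ 3 := fun w hw =>
      (hQ w).trans (mul_le_mul_of_nonneg_left (pow_le_pow_left₀ (norm_nonneg _) hw 3) hK)
    have n1 : ‖a + b + c‖ ≤ 3 := by
      have := norm_add_le (a + b) c
      have := norm_add_le a b
      linarith
    have n2 : ‖a + b - c‖ ≤ 3 := by
      have := norm_sub_le (a + b) c
      have := norm_add_le a b
      linarith
    have n3 : ‖a - b + c‖ ≤ 3 := by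
      have := norm_add_le (a - b) c
      have := norm_sub_le a b
      linarith
    have n4 : ‖a - b - c‖ ≤ 3 := by
      have := norm_sub_le (a - b) c
      have := norm_sub_le a b
      linarith
    have h5 : ‖24 * κ a b c‖ ≤ K * 3 ^ 3 + K * 3 ^ 3 + K * 3 ^ 3 + K * 3 ^ 3 := by
      rw [e]
      refine (norm_add_le _ _).trans (add_le_add ?_ (key _ n4))
      refine (norm_sub_le _ _).trans (add_le_add ?_ (key _ n3))
      exact (norm_sub_le _ _).trans (add_le_add (key _ n1) (key _ n2))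
    rw [norm_mul] at h5
    norm_num at h5
    linarith
  rcases eq_or_ne x 0 with rfl | hx
  · simp
  rcases eq_or_ne y 0 with rfl | hy
  · simp
  rcases eq_or_ne z 0 with rfl | hz
  · simp
  have hx' : 0 < ‖x‖ := norm_pos_iff.2 hx
  have hy' : 0 < ‖y‖ := norm_pos_iff.2 hy
  have hz' : 0 < ‖z‖ := norm_pos_iff.2 hz
  have hn : ∀ w : A, 0 < ‖w‖ → ‖((‖w‖⁻¹ : ℝ) : ℂ) • w‖ = 1 := by
    intro w hw
    rw [norm_smul, Complex.norm_real, Real.norm_of_nonneg (by positivity)]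
    field_simp
  have h := unit _ _ _ (hn x hx') (hn y hy') (hn z hz')
  simp only [map_smul, LinearMap.smul_apply, smul_eq_mul, norm_mul, Complex.norm_real] at h
  rw [Real.norm_of_nonneg (by positivity), Real.norm_of_nonneg (by positivity),
    Real.norm_of_nonneg (by positivity)] at h
  have h6 : ‖κ x y z‖ = (‖x‖⁻¹ * (‖y‖⁻¹ * (‖z‖⁻¹ * ‖κ x y z‖))) * (‖x‖ * ‖y‖ * ‖z‖) := by
    field_simp
  rw [h6]
  have h7 : ‖x‖⁻¹ * (‖y‖⁻¹ * (‖z‖⁻¹ * ‖κ x y z‖)) ≤ 9 * K := by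
    refine le_trans (le_of_eq ?_) h
    ring
  calc _ ≤ (9 * K) * (‖x‖ * ‖y‖ * ‖z‖) := mul_le_mul_of_nonneg_right h7 (by positivity)
    _ = _ := by ring

end Pool.Agent.Helper187.Fac
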