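import Mathlib
import Pool.Agent.Helper187.Fac.F1
import Pool.Agent.Helper187.Fac.F2
import Pool.Agent.Helper187.Fac.F3
import Pool.Agent.Helper187.Fac.F4
import Pool.Agent.Helper187.Fac.F5
import Pool.Agent.Helper187.Fac.F6
import Pool.Agent.Helper187.Fac.F8
import Pool.Agent.Helper187.Fac.F9
import Pool.Agent.Helper187.Fac.Alg

namespace Pool.Agent.Helper187.Fac

/-- The element `u` generating a non-quadratic subalgebra. -/
theorem exists_nonquadratic {A : Type*} [CStarAlgebra A] (τ : A →ₗ[ℂ] ℂ)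
    (hpos : ∀ x, 0 ≤ (τ (star x * x)).re ∧ (τ (star x * x)).im = 0) (hone : τ 1 = 1)
    (hfaith : ∀ x, τ (star x * x) = 0 → x = 0)
    (e1 e2 e3 : A) (h1 : IsStarProjection e1) (h2 : IsStarProjection e2) (h3 : IsStarProjection e3)
    (h12 : e1 * e2 = 0) (h13 : e1 * e3 = 0) (h23 : e2 * e3 = 0)
    (hn1 : e1 ≠ 0) (hn2 : e2 ≠ 0) (hn3 : e3 ≠ 0) :
    ∃ u : A, τ u = 0 ∧ τ (u * u) ≠ 0 ∧
      ∀ a b c : ℂ, a • (u * u) + b • u + c • (1 : A) = 0 → a = 0 := by
  have hst : ∀ x : A, IsStarProjection x → star x = x := fun x hx => hx.isSelfAdjoint.star_eq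
  have h21 : e2 * e1 = 0 := by
    have := congrArg star h12; rwa [star_mul, star_zero, hst _ h1, hst _ h2] at this
  have hreal : ∀ x : A, IsStarProjection x → (τ x).im = 0 := by
    intro x hx
    have := (hpos x).2
    rwa [hst _ hx, hx.isIdempotentElem.eq] at this
  set b0 : A := e1 + (2 : ℂ) • e2 with hb0
  set s := τ b0 with hs
  set u : A := b0 - s • 1 with hu
  have hsreal : star s = s := by
    rw [hs, hb0, map_add, map_smul, smul_eq_mul]
    apply Complex.ext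
    · simp
    · simp [hreal _ h1, hreal _ h2]
  have hustar : star u = u := by
    rw [hu, hb0, star_sub, star_add, star_smul, star_smul, star_one, hst _ h1, hst _ h2, hsreal]
    simp
  have hi1 : e1 * e1 = e1 := h1.isIdempotentElem.eq
  have hi2 : e2 * e2 = e2 := h2.isIdempotentElem.eq
  have hue1 : u * e1 = (1 - s) • e1 := by
    rw [hu, hb0, sub_mul, add_mul, smul_mul_assoc, smul_mul_assoc, one_mul, hi1, h21]; module
  have hue2 : u * e2 = (2 - s) • e2 := by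
    rw [hu, hb0, sub_mul, add_mul, smul_mul_assoc, smul_mul_assoc, one_mul, hi2, h12]; module
  have hue3 : u * e3 = (-s) • e3 := by
    rw [hu, hb0, sub_mul, add_mul, smul_mul_assoc, smul_mul_assoc, one_mul, h13, h23]; module
  have key : ∀ (e : A) (t : ℂ), e ≠ 0 → u * e = t • e → ∀ a b c : ℂ,
      a • (u * u) + b • u + c • (1 : A) = 0 → a * t ^ 2 + b * t + c = 0 := by
    intro e t he hue a b c h
    have h0 : (a • (u * u) + b • u + c • (1 : A)) * e = 0 := by rw [h, zero_mul]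
    rw [add_mul, add_mul, smul_mul_assoc, smul_mul_assoc, smul_mul_assoc, one_mul, mul_assoc, hue,
      mul_smul_comm, hue] at h0
    have h5 : (a * t ^ 2 + b * t + c) • e = 0 := by
      rw [← h0]; module
    exact (smul_eq_zero.mp h5).resolve_right he
  have hquad : ∀ a b c : ℂ, a • (u * u) + b • u + c • (1 : A) = 0 → a = 0 := by
    intro a b c h
    have k1 := key e1 _ hn1 hue1 a b c h
    have k2 := key e2 _ hn2 hue2 a b c h
    have k3 := key e3 _ hn3 hue3 a b c h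
    linear_combination (1 / 2 : ℂ) * k2 - k1 + (1 / 2 : ℂ) * k3
  refine ⟨u, ?_, ?_, hquad⟩
  · rw [hu, map_sub, map_smul, hone, ← hs]; simp
  · intro h0
    have h00 : u = 0 := by
      apply hfaith
      rw [hustar]; exact h0
    have := hquad 1 0 0 (by rw [h00]; simp)
    exact one_ne_zero this

/-- The abstract version of the theorem. -/
theorem abstract_main {A : Type*} [CStarAlgebra A] (τ : A →ₗ[ℂ] ℂ)
    (hpos : ∀ x, 0 ≤ (τ (star x * x)).re ∧ (τ (star x * x)).im = 0) (hone : τ 1 = 1)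
    (htr : ∀ x y, τ (x * y) = τ (y * x))
    (hfaith : ∀ x, τ (star x * x) = 0 → x = 0)
    (hcomp : ∀ p q : A, IsStarProjection p → IsStarProjection q →
      (∃ v, star v * v = p ∧ q * (v * star v) = v * star v) ∨
      (∃ v, star v * v = q ∧ p * (v * star v) = v * star v))
    (hdense : ∀ e : A, IsStarProjection e → ∀ x, IsSelfAdjoint x → e * x = x → ∀ ε : ℝ, 0 < ε →
      ∃ (n : ℕ) (p : Fin n → A) (t : Fin n → ℝ), (∀ i, IsStarProjection (p i)) ∧
        (∀ i, e * p i = p i) ∧ (∀ i j, i ≠ j → p i * p j = 0) ∧ ‖x - ∑ i, (t i : ℂ) • p i‖ < ε)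
    (hdiff : ∀ p : A, IsStarProjection p → p ≠ 0 →
      ∃ q, IsStarProjection q ∧ q ≠ 0 ∧ q ≠ p ∧ p * q = q)
    (T : A →ₗ[ℂ] A) (hT1 : T 1 = 1) (hsurj : Function.Surjective T) (C : NNReal)
    (hspec : ∀ x, spectralRadius ℂ (T x) ≤ (C : ENNReal) * spectralRadius ℂ x) :
    ∃ S : A →ₗ[ℂ] A, Function.Bijective S ∧ (∀ x, S (x * x) = S x * S x) ∧
      ∃ γ : ℂ, γ ≠ 0 ∧ ∀ x, T x = γ • S x + (1 - γ) • algebraMap ℂ A (τ x) := by
  have hR := trace_le_spectralRadius τ hpos hone htr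
  have hAn : Nontrivial A := by
    refine ⟨1, 0, ?_⟩
    intro h
    rw [h, map_zero] at hone
    exact zero_ne_one hone
  have hτ : ∀ x, ‖τ x‖ ≤ ‖x‖ := by
    intro x
    have h1 := (hR x).trans (spectrum.spectralRadius_le_nnnorm x)
    have h2 : ((‖x‖₊ : NNReal) : ENNReal) = ENNReal.ofReal ‖x‖ := by
      rw [← coe_nnnorm, ENNReal.ofReal_coe_nnreal]
    rw [h2] at h1
    exact (ENNReal.ofReal_le_ofReal_iff (norm_nonneg _)).mp h1
  obtain ⟨hI1, hI2, hI3, hB1, hB2, hB3⟩ := inv_identities τ hR htr T C hspec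
  have hU := fun e he D hadd hinv K hbd p hp hpe =>
    proj_unique τ hpos htr hfaith hcomp e he D hadd hinv K hbd p hp hpe
  have hFU := fun e he f K hf hinv x =>
    functional_unique τ hτ hU hdense e he f K hf hinv x
  -- τ ∘ T = τ
  have hτT : ∀ x, τ (T x) = τ x := by
    intro x
    have h1 := hFU 1 (IsStarProjection.one A) (τ ∘ₗ T) C (fun y => hB1 y) (by
      intro v _ _ hv
      have := hI1 (star v) v hv
      rw [map_sub, map_sub, sub_eq_zero] at this
      simp only [LinearMap.comp_apply]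
      exact this.symm) x
    simp only [one_mul, mul_one, LinearMap.comp_apply, hT1, hone] at h1
    simpa using h1
  -- the projection onto trace zero elements
  let P : A →ₗ[ℂ] A := LinearMap.id - (LinearMap.toSpanSingleton ℂ A 1 ∘ₗ τ)
  have hP : ∀ x, P x = x - τ x • (1 : A) := fun x => by
    simp [P, LinearMap.toSpanSingleton_apply]
  have hτP : ∀ x, τ (P x) = 0 := fun x => by rw [hP, map_sub, map_smul, hone]; simp
  have hP0 : ∀ x, τ x = 0 → P x = x := fun x hx => by rw [hP, hx, zero_smul, sub_zero]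
  have hTP : ∀ x, T (P x) = T x - τ x • (1 : A) := fun x => by rw [hP, map_sub, map_smul, hT1]
  have hPn : ∀ x, ‖P x‖ ≤ 2 * ‖x‖ := by
    intro x
    rw [hP]
    calc ‖x - τ x • (1 : A)‖ ≤ ‖x‖ + ‖τ x • (1 : A)‖ := norm_sub_le _ _
      _ ≤ ‖x‖ + ‖x‖ := by
        rw [norm_smul, norm_one, mul_one]
        linarith [hτ x]
      _ = 2 * ‖x‖ := by ring
  have hcomm0 : ∀ x y, τ (y * x - x * y) = 0 := fun x y => by rw [map_sub, htr, sub_self]
  -- the bilinear form
  let Q : A →ₗ[ℂ] A := T ∘ₗ P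
  have hQ : ∀ x, Q x = T (P x) := fun x => rfl
  let κ2 : A →ₗ[ℂ] A →ₗ[ℂ] ℂ := ((LinearMap.mul ℂ A).compl₁₂ Q Q).compr₂ τ
  have hκ2 : ∀ x y, κ2 x y = τ (Q x * Q y) := fun x y => rfl
  have hs2 : ∀ x y, κ2 x y = κ2 y x := fun x y => by rw [hκ2, hκ2, htr]
  have hκ21 : ∀ x, κ2 1 x = 0 := fun x => by
    rw [hκ2, hQ, hTP, hT1, hone]; simp
  have hinv2 : ∀ x y, y * y = 0 → κ2 x (y * x - x * y) = 0 := by
    intro x y hy
    rw [hκ2, hQ, hQ, hP0 _ (hcomm0 x y), hTP, sub_mul, map_sub, hI2 x y hy, smul_mul_assoc, one_mul,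
      map_smul, hI1 x y hy]
    simp
  have hb2 : ∀ x, ‖κ2 x x‖ ≤ (4 * C ^ 2 : ℝ) * ‖x‖ ^ 2 := by
    intro x
    rw [hκ2, hQ]
    refine (hB2 (P x)).trans ?_
    have h1 : (C : ℝ) * ‖P x‖ ≤ C * (2 * ‖x‖) := mul_le_mul_of_nonneg_left (hPn x) C.2
    calc ((C : ℝ) * ‖P x‖) ^ 2 ≤ (C * (2 * ‖x‖)) ^ 2 :=
          pow_le_pow_left₀ (mul_nonneg C.2 (norm_nonneg _)) h1 2
      _ = _ := by ring
  have hB2' := bilin_bound κ2 _ hs2 hb2
  -- the trilinear form
  let κ3a : A →ₗ[ℂ] A →ₗ[ℂ] A →ₗ[ℂ] ℂ :=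
    ((LinearMap.mul ℂ A).compl₁₂ Q Q).compr₂ (((LinearMap.mul ℂ A).compl₂ Q).compr₂ τ)
  have hκ3a : ∀ x y z, κ3a x y z = τ (Q x * Q y * Q z) := fun x y z => rfl
  let κ3 : A →ₗ[ℂ] A →ₗ[ℂ] A →ₗ[ℂ] ℂ := (2 : ℂ)⁻¹ • (κ3a + κ3a.flip)
  have hκ3 : ∀ x y z, κ3 x y z = (2 : ℂ)⁻¹ * (τ (Q x * Q y * Q z) + τ (Q y * Q x * Q z)) := by
    intro x y z
    simp only [κ3, LinearMap.smul_apply, LinearMap.add_apply, LinearMap.flip_apply, hκ3a,
      smul_eq_mul]
  have hs31 : ∀ x y z, κ3 x y z = κ3 y x z := fun x y z => by rw [hκ3, hκ3, add_comm]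
  have hs32 : ∀ x y z, κ3 x y z = κ3 x z y := by
    intro x y z
    rw [hκ3, hκ3]
    have e1 : τ (Q x * Q y * Q z) = τ (Q z * Q x * Q y) := by rw [htr, mul_assoc]
    have e2 : τ (Q y * Q x * Q z) = τ (Q x * Q z * Q y) := by rw [mul_assoc, htr]
    rw [e1, e2, add_comm]
  have hκ31 : ∀ x y, κ3 1 x y = 0 := fun x y => by
    have : Q 1 = 0 := by rw [hQ, hTP, hT1, hone]; simp
    rw [hκ3, this]; simp
  have hinv3 : ∀ x y, y * y = 0 → κ3 x x (y * x - x * y) = 0 := by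
    intro x y hy
    rw [hκ3, hQ, hQ, hP0 _ (hcomm0 x y), hTP]
    have : (T x - τ x • (1 : A)) * (T x - τ x • (1 : A)) * T (y * x - x * y) =
        T x * T x * T (y * x - x * y) - (2 * τ x) • (T x * T (y * x - x * y)) +
          (τ x ^ 2) • T (y * x - x * y) := by
      simp only [mul_sub, sub_mul, smul_mul_assoc, mul_smul_comm, mul_one, one_mul]
      module
    rw [this, map_add, map_sub, map_smul, map_smul, hI1 x y hy, hI2 x y hy, hI3 x y hy]
    simp
  have hb3 : ∀ x, ‖κ3 x x x‖ ≤ (8 * C ^ 3 : ℝ) * ‖x‖ ^ 3 := by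
    intro x
    have : κ3 x x x = τ (Q x * Q x * Q x) := by rw [hκ3]; ring
    rw [this, hQ]
    refine (hB3 (P x)).trans ?_
    have h1 : (C : ℝ) * ‖P x‖ ≤ C * (2 * ‖x‖) := mul_le_mul_of_nonneg_left (hPn x) C.2
    calc ((C : ℝ) * ‖P x‖) ^ 3 ≤ (C * (2 * ‖x‖)) ^ 3 :=
          pow_le_pow_left₀ (mul_nonneg C.2 (norm_nonneg _)) h1 3
      _ = _ := by ring
  have hB3' := trilin_bound κ3 _ hs31 hs32 hb3
  -- partition of the unit
  obtain ⟨n, hn, e, he, horth, hsum, hne, hhalf⟩ := exists_partition τ hpos hone hfaith hdiff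
  set i0 : Fin n := ⟨0, by omega⟩
  set i1 : Fin n := ⟨1, by omega⟩
  set i2 : Fin n := ⟨2, by omega⟩
  have h01 : i0 ≠ i1 := by simp [i0, i1]
  have h02 : i0 ≠ i2 := by simp [i0, i2]
  have h12 : i1 ≠ i2 := by simp [i1, i2]
  have he3 : IsStarProjection (1 - (e i0 + e i1)) :=
    ((he i0).add (he i1) (horth _ _ h01)).one_sub
  have hid : ∀ i, e i * e i = e i := fun i => (he i).isIdempotentElem.eq
  have hm0 : e i0 * (1 - (e i0 + e i1)) = 0 := by
    rw [mul_sub, mul_add, mul_one, hid, horth _ _ h01]; simp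
  have hm1 : e i1 * (1 - (e i0 + e i1)) = 0 := by
    rw [mul_sub, mul_add, mul_one, hid, horth _ _ h01.symm]; simp
  have hne3 : 1 - (e i0 + e i1) ≠ 0 := by
    intro h
    have h5 : e i2 * (1 - (e i0 + e i1)) = 0 := by rw [h, mul_zero]
    rw [mul_sub, mul_add, mul_one, horth _ _ h02.symm, horth _ _ h12.symm] at h5
    exact hne i2 (by simpa using h5)
  obtain ⟨α, hα⟩ := bilin_class τ hpos hone htr hfaith hτ hdense hFU (e i0) (e i1)
    (1 - (e i0 + e i1)) (he _) (he _) he3 (horth _ _ h01) hm0 hm1 (by abel) (hne _) (hne _) hne3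
    κ2 _ hB2' hs2 hκ21 hinv2
  obtain ⟨β, hβ⟩ := trilin_class τ hpos hone htr hfaith hτ hdense hFU n hn e he horth hsum hne hhalf
    κ3 _ hB3' hs31 hs32 hκ31 hinv3
  obtain ⟨u, hu0, hu2, hu⟩ := exists_nonquadratic τ hpos hone hfaith (e i0) (e i1) (e i2)
    (he _) (he _) (he _) (horth _ _ h01) (horth _ _ h02) (horth _ _ h12) (hne _) (hne _) (hne _)
  refine algebra_part τ hone htr ?_ T hT1 hsurj hτT α β ?_ ?_ u hu0 hu2 hu
  · intro x hx
    apply hfaith
    rw [htr]; exact hx (star x)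
  · intro x z
    have h1 := hα x z
    rw [hκ2, hQ, hQ, hTP, hTP] at h1
    have e1 : τ ((T x - τ x • (1 : A)) * (T z - τ z • (1 : A))) = τ (T x * T z) - τ x * τ z := by
      simp only [mul_sub, sub_mul, smul_mul_assoc, mul_smul_comm, mul_one, one_mul, map_sub,
        map_smul, hτT, hone, smul_eq_mul]
      ring
    rw [e1] at h1
    linear_combination h1
  · intro x z hx hz
    have h1 := hβ x x z
    rw [hκ3, hQ, hQ, hP0 x hx, hP0 z hz, hx, hz] at h1
    simp only [zero_smul, sub_zero, add_mul, map_add] at h1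
    linear_combination h1

end Pool.Agent.Helper187.Fac
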