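import Mathlib

namespace Pool.Agent.Helper187.Fac

variable {H : Type*} [NormedAddCommGroup H] [InnerProductSpace ℂ H] [CompleteSpace H]

/-- the closure of a submodule has a star projection which lies in `M` as soon as the submodule
is invariant under the commutant -/
theorem j3366_closure (M : VonNeumannAlgebra H) (U : Submodule ℂ H)
    (hU : ∀ z ∈ M.commutant, ∀ x ∈ U, z x ∈ U) :
    ∃ e ∈ M, IsStarProjection e ∧ (∀ x ∈ U, e x = x) ∧
      ∀ z : H →L[ℂ] H, (∀ x ∈ U, z x = 0) → z * e = 0 := by
  set K := U.topologicalClosure with hK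
  have hcl : IsClosed (K : Set H) := U.isClosed_topologicalClosure
  have : CompleteSpace K := hcl.completeSpace_coe
  refine ⟨K.starProjection, ?_, isStarProjection_starProjection, ?_, ?_⟩
  · rw [VonNeumannAlgebra.IsStarProjection.mem_iff isStarProjection_starProjection]
    intro z hz
    rw [Submodule.range_starProjection, Module.End.mem_invtSubmodule_iff_forall_mem_of_mem]
    intro x hx
    have h1 : x ∈ closure (U : Set H) := hx
    have h2 : z x ∈ closure (U : Set H) :=
      map_mem_closure z.continuous h1 (fun y hy => hU z hz y hy)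
    exact h2
  · intro x hx
    exact Submodule.starProjection_eq_self_iff.2 (U.le_topologicalClosure hx)
  · intro z hz
    ext x
    have h1 : K.starProjection x ∈ K := by
      rw [← Submodule.starProjection_eq_self_iff]
      exact congrArg (fun f : H →L[ℂ] H => f x)
        (isStarProjection_starProjection (U := K)).isIdempotentElem
    have h2 : IsClosed {y : H | z y = 0} := isClosed_eq z.continuous continuous_const
    have h3 : closure (U : Set H) ⊆ {y : H | z y = 0} :=
      closure_minimal (fun y hy => hz y hy) h2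
    exact h3 h1

/-- Range projections belong to the von Neumann algebra. -/
theorem exists_rangeProj (M : VonNeumannAlgebra H) (y : H →L[ℂ] H) (hy : y ∈ M) :
    ∃ e ∈ M, IsStarProjection e ∧ e * y = y ∧ ∀ z : H →L[ℂ] H, z * y = 0 → z * e = 0 := by
  obtain ⟨e, heM, he, h1, h2⟩ := j3366_closure M y.range (by
    intro z hz x hx
    obtain ⟨v, rfl⟩ := hx
    rw [VonNeumannAlgebra.mem_commutant_iff] at hz
    refine ⟨z v, ?_⟩
    exact congrArg (fun f : H →L[ℂ] H => f v) (hz y hy))
  refine ⟨e, heM, he, ?_, ?_⟩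
  · ext v
    exact h1 _ ⟨v, rfl⟩
  · intro z hz
    apply h2
    rintro x ⟨v, rfl⟩
    exact congrArg (fun f : H →L[ℂ] H => f v) hz

/-- In a factor (trivial centre), `q M p ≠ 0` for nonzero projections. -/
theorem exists_corner_ne_zero (M : VonNeumannAlgebra H)
    (hfac : ∀ z ∈ M, (∀ x ∈ M, z * x = x * z) → ∃ c : ℂ, z = algebraMap ℂ (H →L[ℂ] H) c)
    (p q : H →L[ℂ] H) (hpM : p ∈ M) (hqM : q ∈ M) (hp : IsStarProjection p)
    (hq : IsStarProjection q) (hp0 : p ≠ 0) (hq0 : q ≠ 0) :
    ∃ x ∈ M, q * x * p ≠ 0 := by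
  by_contra hcon
  push Not at hcon
  set U : Submodule ℂ H := Submodule.span ℂ {v : H | ∃ x ∈ M, ∃ ξ : H, v = x (p ξ)} with hU
  have hspan : ∀ z : H →L[ℂ] H, (∀ x ∈ M, ∀ ξ : H, z (x (p ξ)) ∈ U) → ∀ v ∈ U, z v ∈ U := by
    intro z hz v hv
    induction hv using Submodule.span_induction with
    | mem v hv =>
      obtain ⟨x, hx, ξ, rfl⟩ := hv
      exact hz x hx ξ
    | zero => rw [map_zero]; exact U.zero_mem
    | add v w _ _ h1 h2 => rw [map_add]; exact U.add_mem h1 h2
    | smul c v _ h1 => rw [map_smul]; exact U.smul_mem c h1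
  have hinv1 : ∀ z ∈ M.commutant, ∀ v ∈ U, z v ∈ U := by
    intro z hz
    rw [VonNeumannAlgebra.mem_commutant_iff] at hz
    apply hspan
    intro x hx ξ
    apply Submodule.subset_span
    refine ⟨x, hx, z ξ, ?_⟩
    have h1 : z (x (p ξ)) = x (z (p ξ)) :=
      (congrArg (fun f : H →L[ℂ] H => f (p ξ)) (hz x hx)).symm
    have h2 : z (p ξ) = p (z ξ) := (congrArg (fun f : H →L[ℂ] H => f ξ) (hz p hpM)).symm
    rw [h1, h2]
  have hinv2 : ∀ z ∈ M.commutant.commutant, ∀ v ∈ U, z v ∈ U := by
    intro z hz
    rw [VonNeumannAlgebra.commutant_commutant] at hz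
    apply hspan
    intro x hx ξ
    apply Submodule.subset_span
    exact ⟨z * x, mul_mem hz hx, ξ, rfl⟩
  obtain ⟨e, heM, he, h1, h2⟩ := j3366_closure M U hinv1
  obtain ⟨e', heM', he', h1', h2'⟩ := j3366_closure M.commutant U hinv2
  -- the two projections agree
  have hee : e = e' := by
    have h3 : e' * e = e := by
      have := h2 (1 - e') (fun x hx => by simp [h1' x hx])
      rw [sub_mul, one_mul, sub_eq_zero] at this
      exact this.symm
    have h4 : e * e' = e' := by
      have := h2' (1 - e) (fun x hx => by simp [h1 x hx])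
      rw [sub_mul, one_mul, sub_eq_zero] at this
      exact this.symm
    have h5 : star (e' * e) = star e := by rw [h3]
    rw [star_mul, he.isSelfAdjoint.star_eq, he'.isSelfAdjoint.star_eq] at h5
    rw [← h5, h4]
  obtain ⟨c, hc⟩ := hfac e heM (by
    intro x hx
    have h3 := heM'
    rw [← hee, VonNeumannAlgebra.mem_commutant_iff] at h3
    exact (h3 x hx).symm)
  have hqe : q * e = 0 := by
    apply h2
    intro v hv
    induction hv using Submodule.span_induction with
    | mem v hv =>
      obtain ⟨x, hx, ξ, rfl⟩ := hv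
      exact congrArg (fun f : H →L[ℂ] H => f ξ) (hcon x hx)
    | zero => exact map_zero q
    | add v w _ _ h1 h2 => rw [map_add, h1, h2, add_zero]
    | smul c v _ h1 => rw [map_smul, h1, smul_zero]
  have hc0 : c = 0 := by
    by_contra hc0
    apply hq0
    rw [hc, ← Algebra.commutes, ← Algebra.smul_def] at hqe
    exact (smul_eq_zero.1 hqe).resolve_left hc0
  apply hp0
  ext ξ
  have h6 : p ξ ∈ U := Submodule.subset_span ⟨1, one_mem M, ξ, rfl⟩
  have h7 := h1 _ h6
  rw [hc, hc0, map_zero] at h7
  exact h7.symm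

end Pool.Agent.Helper187.Fac
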