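import Mathlib

namespace Pool.Agent.Helper187.Fac

variable {H : Type*} [NormedAddCommGroup H] [InnerProductSpace ℂ H] [CompleteSpace H]

theorem cfc_mem_vN (M : VonNeumannAlgebra H) (h : H →L[ℂ] H) (hh : h ∈ M)
    (f : ℝ → ℝ) : cfc f h ∈ M := by
  rw [← VonNeumannAlgebra.commutant_commutant M, VonNeumannAlgebra.mem_commutant_iff]
  intro z hz
  have h1 : Commute h z := (VonNeumannAlgebra.mem_commutant_iff.1 hz h hh)
  exact (h1.cfc_real f).symm

/-- From a nonzero element `x = q x p` of `M` one gets a nonzero partial isometry of `M` in `q M p`. -/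
theorem exists_partialIsometry (M : VonNeumannAlgebra H)
    (hrange : ∀ y ∈ M, ∃ e ∈ M, IsStarProjection e ∧ e * y = y ∧
      ∀ z : H →L[ℂ] H, z * y = 0 → z * e = 0)
    (x p q : H →L[ℂ] H) (hx : x ∈ M) (hx0 : x ≠ 0)
    (hp : IsStarProjection p) (hq : IsStarProjection q) (hqx : q * x = x) (hxp : x * p = x) :
    ∃ v ∈ M, v ≠ 0 ∧ IsStarProjection (star v * v) ∧ IsStarProjection (v * star v) ∧
      q * v = v ∧ v * p = v ∧ ∃ a ∈ M, v = x * a := by
  set h : H →L[ℂ] H := star x * x with hh
  have hsa : IsSelfAdjoint h := IsSelfAdjoint.star_mul_self x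
  have hM : h ∈ M := mul_mem (star_mem hx) hx
  have hne : h ≠ 0 := by
    intro h0
    exact hx0 (CStarRing.star_mul_self_eq_zero_iff x |>.1 h0)
  have hspec : ∀ t ∈ spectrum ℝ h, 0 ≤ t := fun t ht => spectrum_star_mul_self_nonneg t ht
  obtain ⟨t0, ht0, ht0n⟩ : ∃ t0 ∈ spectrum ℝ h, t0 ≠ 0 := by
    by_contra hcon
    push Not at hcon
    apply hne
    have e1 : cfc (id : ℝ → ℝ) h = h := cfc_id ℝ h
    have e2 : cfc (id : ℝ → ℝ) h = cfc (fun _ : ℝ => (0:ℝ)) h :=
      cfc_congr fun t ht => hcon t ht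
    rw [← e1, e2, cfc_const_zero]
  have ht0p : 0 < t0 := lt_of_le_of_ne (hspec t0 ht0) (Ne.symm ht0n)
  obtain ⟨δ, hδ, hδt⟩ : ∃ δ : ℝ, 0 < δ ∧ δ < t0 := ⟨t0 / 2, by positivity, by linarith⟩
  set g : ℝ → ℝ := fun t => max (t - δ) 0 with hg
  set f : ℝ → ℝ := fun t => (Real.sqrt (max t δ))⁻¹ with hf
  set k : ℝ → ℝ := fun t => max (t - δ) 0 / max t δ with hk
  have hgc : Continuous g := by simp only [hg]; fun_prop
  have hfc : Continuous f := by
    simp only [hf]
    refine Continuous.inv₀ (by fun_prop) fun t => ?_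
    have : 0 < Real.sqrt (max t δ) := Real.sqrt_pos.2 (lt_max_of_lt_right hδ)
    exact this.ne'
  have hkc : Continuous k := by
    simp only [hk]
    refine Continuous.div (by fun_prop) (by fun_prop) fun t => ?_
    exact (lt_max_of_lt_right hδ).ne'
  have hid : cfc (id : ℝ → ℝ) h = h := cfc_id ℝ h
  have hgM : cfc g h ∈ M := cfc_mem_vN M h hM g
  have hfM : cfc f h ∈ M := cfc_mem_vN M h hM f
  obtain ⟨e, heM, hep, hey, hez⟩ := hrange (cfc g h) hgM
  -- identities
  have hcomm : cfc f h * h = h * cfc f h := by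
    have h1 : Commute (cfc f h) (cfc id h) := cfc_commute_cfc f id h
    rw [hid] at h1
    exact h1
  have hI1 : (h * cfc f h * cfc f h) * cfc g h = cfc g h := by
    have e1 : h * cfc f h * cfc f h * cfc g h = cfc (fun t => t * f t * f t * g t) h := by
      rw [cfc_mul (fun t => t * f t * f t) g h (by fun_prop) (by fun_prop),
        cfc_mul (fun t => t * f t) f h (by fun_prop) (by fun_prop),
        cfc_mul (fun t => t) f h (by fun_prop) (by fun_prop), cfc_id' ℝ h]
    rw [e1]
    refine cfc_congr fun t ht => ?_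
    have ht1 := hspec t ht
    simp only [hg, hf]
    rcases le_or_gt t δ with h1 | h1
    · rw [max_eq_right (by linarith : t - δ ≤ 0)]; simp
    · rw [max_eq_left h1.le]
      have h2 : 0 < t := by linarith
      have h3 : Real.sqrt t * Real.sqrt t = t := Real.mul_self_sqrt h2.le
      have h4 : 0 < Real.sqrt t := Real.sqrt_pos.2 h2
      have h5 : t * (Real.sqrt t)⁻¹ * (Real.sqrt t)⁻¹ = 1 := by
        field_simp
        nlinarith
      rw [h5, one_mul]
  have hI2 : cfc g h = h * cfc k h := by
    have e1 : h * cfc k h = cfc (fun t => t * k t) h := by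
      rw [cfc_mul (fun t => t) k h (by fun_prop) (by fun_prop), cfc_id' ℝ h]
    rw [e1]
    refine cfc_congr fun t ht => ?_
    simp only [hg, hk]
    rcases le_or_gt t δ with h1 | h1
    · rw [max_eq_right (by linarith : t - δ ≤ 0)]; simp
    · rw [max_eq_left h1.le]
      have h2 : 0 < t := by linarith
      field_simp
  have hze : (h * cfc f h * cfc f h) * e = e := by
    have := hez (h * cfc f h * cfc f h - 1) (by rw [sub_mul, hI1, one_mul, sub_self])
    rw [sub_mul, one_mul, sub_eq_zero] at this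
    exact this
  have hph : p * h = h := by
    have h1 : h * p = h := by rw [hh, mul_assoc, hxp]
    have h2 := congrArg star h1
    rw [star_mul, hsa.star_eq, hp.isSelfAdjoint.star_eq] at h2
    exact h2
  have hpe : p * e = e := by
    have := hez (p - 1) (by rw [hI2, sub_mul, one_mul, ← mul_assoc, hph, sub_self])
    rw [sub_mul, one_mul, sub_eq_zero] at this
    exact this
  have hestar : star e = e := hep.isSelfAdjoint.star_eq
  have hee : e * e = e := hep.isIdempotentElem
  have hep' : e * p = e := by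
    have h2 := congrArg star hpe
    rwa [star_mul, hestar, hp.isSelfAdjoint.star_eq] at h2
  have hfsa : star (cfc f h) = cfc f h := (cfc_predicate f h : IsSelfAdjoint _).star_eq
  have hvv : star (x * (cfc f h * e)) * (x * (cfc f h * e)) = e := by
    rw [star_mul, star_mul, hestar, hfsa]
    calc e * cfc f h * star x * (x * (cfc f h * e)) = e * ((cfc f h * h) * cfc f h * e) := by
          rw [hh]; noncomm_ring
      _ = e * ((h * cfc f h * cfc f h) * e) := by rw [hcomm]
      _ = e := by rw [hze, hee]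
  refine ⟨x * (cfc f h * e), M.mul_mem hx (M.mul_mem hfM heM), ?_, ?_, ?_, ?_, ?_,
    cfc f h * e, M.mul_mem hfM heM, rfl⟩
  · intro hv0
    rw [hv0, mul_zero] at hvv
    have hg0 : cfc g h = 0 := by rw [← hey, ← hvv, zero_mul]
    have h1 := cfc_map_spectrum g h
    rw [hg0] at h1
    have h2 : g t0 ∈ spectrum ℝ (0 : H →L[ℂ] H) := by rw [h1]; exact ⟨t0, ht0, rfl⟩
    have h3 : g t0 = 0 := by
      by_contra hne'
      rw [spectrum.mem_iff, sub_zero] at h2
      apply h2
      exact (IsUnit.mk0 _ hne').map (algebraMap ℝ (H →L[ℂ] H))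
    have h4 : g t0 = t0 - δ := by simp only [hg]; exact max_eq_left (by linarith)
    linarith
  · rw [hvv]; exact hep
  · refine ⟨?_, ?_⟩
    · show _ * _ = _
      calc x * (cfc f h * e) * star (x * (cfc f h * e)) * (x * (cfc f h * e) * star (x * (cfc f h * e)))
          = x * (cfc f h * e) * (star (x * (cfc f h * e)) * (x * (cfc f h * e))) * star (x * (cfc f h * e)) := by
            noncomm_ring
        _ = x * (cfc f h * (e * e)) * star (x * (cfc f h * e)) := by rw [hvv]; noncomm_ring
        _ = _ := by rw [hee]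
    · exact IsSelfAdjoint.mul_star_self _
  · rw [← mul_assoc, hqx]
  · rw [mul_assoc, mul_assoc, hep']

end Pool.Agent.Helper187.Fac
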