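import Mathlib

namespace Pool.Agent.Helper187.Fac

variable {H : Type*} [NormedAddCommGroup H] [InnerProductSpace ℂ H] [CompleteSpace H]

theorem pi_of_proj {v : H →L[ℂ] H} (h : IsStarProjection (star v * v)) :
    v * star v * v = v := by
  have h1 : (star v * v) * (star v * v) = star v * v := h.isIdempotentElem
  have h2 : star (v - v * star v * v) * (v - v * star v * v) = 0 := by
    have e1 : star (v - v * star v * v) * (v - v * star v * v) =
        star v * v - (star v * v) * (star v * v) - (star v * v) * (star v * v)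
          + (star v * v) * ((star v * v) * (star v * v)) := by
      simp only [star_sub, star_mul, star_star]
      noncomm_ring
    rw [e1, h1, h1]
    simp
  have h3 := (CStarRing.star_mul_self_eq_zero_iff _).1 h2
  rw [sub_eq_zero] at h3
  exact h3.symm

theorem norm_le_one_of {P : H →L[ℂ] H} (h1 : star P = P) (h2 : P * P = P) : ‖P‖ ≤ 1 := by
  have h3 : ‖star P * P‖ = ‖P‖ * ‖P‖ := CStarRing.norm_star_mul_self
  rw [h1, h2] at h3
  by_contra hc
  push Not at hc
  nlinarith

/-- The system of partial isometries -/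
def Good (F : Set (H →L[ℂ] H)) : Prop :=
  (∀ v ∈ F, v * star v * v = v) ∧
  (∀ v ∈ F, ∀ w ∈ F, v ≠ w → v * star w = 0 ∧ star v * w = 0)

theorem Good.norm_sum_le {F : Set (H →L[ℂ] H)} (hF : Good F) (s : Finset F) :
    ‖∑ v ∈ s, (v : H →L[ℂ] H)‖ ≤ 1 := by
  set U : H →L[ℂ] H := ∑ v ∈ s, (v : H →L[ℂ] H) with hU
  set P : H →L[ℂ] H := ∑ v ∈ s, (star (v : H →L[ℂ] H) * (v : H →L[ℂ] H)) with hP
  have h1 : star U * U = P := by
    rw [hU, hP, star_sum, Finset.sum_mul]
    refine Finset.sum_congr rfl fun v hv => ?_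
    rw [Finset.mul_sum, Finset.sum_eq_single_of_mem v hv]
    intro w hw hne
    exact (hF.2 v v.2 w w.2 (fun h => hne (Subtype.ext h.symm))).2
  have h2 : U * P = U := by
    rw [hU, hP, Finset.sum_mul]
    refine Finset.sum_congr rfl fun v hv => ?_
    rw [Finset.mul_sum, Finset.sum_eq_single_of_mem v hv, ← mul_assoc, hF.1 v v.2]
    intro w hw hne
    rw [← mul_assoc, (hF.2 v v.2 w w.2 (fun h => hne (Subtype.ext h.symm))).1, zero_mul]
  have h3 : star P = P := by
    rw [← h1]; simp
  have h4 : P * P = P := by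
    nth_rw 1 [← h1]
    rw [mul_assoc, h2, h1]
  have h5 := norm_le_one_of h3 h4
  rw [← h1, CStarRing.norm_star_mul_self] at h5
  have h6 := norm_nonneg U
  by_contra hc
  push Not at hc
  nlinarith

theorem Good.norm_sum_apply_le {F : Set (H →L[ℂ] H)} (hF : Good F) (s : Finset F) (ξ : H) :
    ‖∑ v ∈ s, (v : H →L[ℂ] H) ξ‖ ≤ ‖ξ‖ := by
  have h1 : ∑ v ∈ s, (v : H →L[ℂ] H) ξ = (∑ v ∈ s, (v : H →L[ℂ] H)) ξ := by
    simp
  rw [h1]
  calc _ ≤ ‖∑ v ∈ s, (v : H →L[ℂ] H)‖ * ‖ξ‖ := ContinuousLinearMap.le_opNorm _ _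
    _ ≤ 1 * ‖ξ‖ := by
      apply mul_le_mul_of_nonneg_right (hF.norm_sum_le s) (norm_nonneg _)
    _ = ‖ξ‖ := one_mul _

theorem Good.orth {F : Set (H →L[ℂ] H)} (hF : Good F) :
    OrthogonalFamily ℂ (fun v : F => LinearMap.range ((v : H →L[ℂ] H) : H →ₗ[ℂ] H))
      (fun v => (LinearMap.range ((v : H →L[ℂ] H) : H →ₗ[ℂ] H)).subtypeₗᵢ) := by
  intro v w hne x y
  obtain ⟨x, a, rfl⟩ := x
  obtain ⟨y, b, rfl⟩ := y
  have h1 := (hF.2 v v.2 w w.2 (fun h => hne (Subtype.ext h))).2
  have h2 : inner ℂ ((v : H →L[ℂ] H) a) ((w : H →L[ℂ] H) b) = 0 := by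
    rw [← ContinuousLinearMap.adjoint_inner_right]
    have h3 : (star (v : H →L[ℂ] H) * (w : H →L[ℂ] H)) b = 0 := by rw [h1]; simp
    have h4 : (ContinuousLinearMap.adjoint (v : H →L[ℂ] H)) ((w : H →L[ℂ] H) b) = 0 := h3
    rw [h4, inner_zero_right]
  exact h2

theorem Good.summable {F : Set (H →L[ℂ] H)} (hF : Good F) (ξ : H) :
    Summable fun v : F => (v : H →L[ℂ] H) ξ := by
  have h1 := hF.orth.summable_iff_norm_sq_summable
    (fun v : F => (⟨(v : H →L[ℂ] H) ξ, ξ, rfl⟩ :
      LinearMap.range ((v : H →L[ℂ] H) : H →ₗ[ℂ] H)))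
  refine h1.2 ?_
  refine summable_of_sum_le (c := ‖ξ‖ ^ 2) (fun v => by positivity) fun s => ?_
  rw [← hF.orth.norm_sum]
  have h2 := hF.norm_sum_apply_le s ξ
  have h3 : ‖∑ i ∈ s, (LinearMap.range ((i : H →L[ℂ] H) : H →ₗ[ℂ] H)).subtypeₗᵢ
      (⟨(i : H →L[ℂ] H) ξ, ξ, rfl⟩ : LinearMap.range ((i : H →L[ℂ] H) : H →ₗ[ℂ] H))‖ =
      ‖∑ v ∈ s, (v : H →L[ℂ] H) ξ‖ := rfl
  rw [h3]
  gcongr

/-- strong sum -/
theorem Good.exists_U {F : Set (H →L[ℂ] H)} (hF : Good F) :
    ∃ U : H →L[ℂ] H, ∀ ξ, HasSum (fun v : F => (v : H →L[ℂ] H) ξ) (U ξ) := by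
  let L : H →ₗ[ℂ] H :=
    { toFun := fun ξ => ∑' v : F, (v : H →L[ℂ] H) ξ
      map_add' := fun x y => by
        simp only [map_add]
        exact (hF.summable x).tsum_add (hF.summable y)
      map_smul' := fun c x => by
        simp only [map_smul, RingHom.id_apply]
        exact (hF.summable x).tsum_const_smul c }
  refine ⟨L.mkContinuous 1 fun ξ => ?_, fun ξ => (hF.summable ξ).hasSum⟩
  rw [one_mul]
  have h1 := (hF.summable ξ).hasSum
  refine le_of_tendsto h1.norm (Filter.Eventually.of_forall fun s => ?_)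
  exact hF.norm_sum_apply_le s ξ

/-- Comparison of projections in a factor. -/
theorem comparison (M : VonNeumannAlgebra H)
    (hloc : ∀ p ∈ M, ∀ q ∈ M, IsStarProjection p → IsStarProjection q → p ≠ 0 → q ≠ 0 →
      ∃ v ∈ M, v ≠ 0 ∧ IsStarProjection (star v * v) ∧ IsStarProjection (v * star v) ∧
        q * v = v ∧ v * p = v)
    (p q : H →L[ℂ] H) (hpM : p ∈ M) (hqM : q ∈ M) (hp : IsStarProjection p)
    (hq : IsStarProjection q) :
    (∃ v ∈ M, star v * v = p ∧ q * (v * star v) = v * star v) ∨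
    (∃ v ∈ M, star v * v = q ∧ p * (v * star v) = v * star v) := by
  -- Zorn
  let S : Set (Set (H →L[ℂ] H)) :=
    {F | Good F ∧ ∀ v ∈ F, v ∈ M ∧ q * v = v ∧ v * p = v}
  obtain ⟨F, hFmax⟩ : ∃ F, Maximal (fun F => F ∈ S) F := by
    refine zorn_subset S fun c hcS hc => ?_
    refine ⟨⋃₀ c, ⟨⟨?_, ?_⟩, ?_⟩, fun s hs => Set.subset_sUnion_of_mem hs⟩
    · rintro v ⟨F, hF, hv⟩
      exact (hcS hF).1.1 v hv
    · rintro v ⟨F, hF, hv⟩ w ⟨G, hG, hw⟩ hne
      rcases hc.total hF hG with h | h
      · exact (hcS hG).1.2 v (h hv) w hw hne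
      · exact (hcS hF).1.2 v hv w (h hw) hne
    · rintro v ⟨F, hF, hv⟩
      exact (hcS hF).2 v hv
  have hFS : F ∈ S := hFmax.prop
  have hG : Good F := hFS.1
  obtain ⟨U, hU⟩ := hG.exists_U
  have hqs : star q = q := hq.isSelfAdjoint
  have hps : star p = p := hp.isSelfAdjoint
  have hqi : q * q = q := hq.isIdempotentElem
  have hpi : p * p = p := hp.isIdempotentElem
  -- U in M
  have hUM : U ∈ M := by
    rw [← M.commutant_commutant, VonNeumannAlgebra.mem_commutant_iff]
    intro z hz
    rw [VonNeumannAlgebra.mem_commutant_iff] at hz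
    ext ξ
    have h1 : HasSum (fun v : F => (v : H →L[ℂ] H) (z ξ)) (U (z ξ)) := hU (z ξ)
    have h2 : HasSum (fun v : F => z ((v : H →L[ℂ] H) ξ)) (z (U ξ)) := (hU ξ).mapL z
    have h3 : (fun v : F => z ((v : H →L[ℂ] H) ξ)) = fun v : F => (v : H →L[ℂ] H) (z ξ) := by
      funext v
      have := hz v (hFS.2 v v.2).1
      have h4 : ((v : H →L[ℂ] H) * z) ξ = (z * (v : H →L[ℂ] H)) ξ := by rw [this]
      exact h4.symm
    rw [h3] at h2
    exact h2.unique h1
  -- left multiplication
  have hleft : ∀ (A B : H →L[ℂ] H) (v : F), (∀ w : F, w ≠ v → A * (w : H →L[ℂ] H) = 0) →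
      A * U = A * (v : H →L[ℂ] H) := by
    intro A B v hA
    ext ξ
    have h1 : HasSum (fun w : F => A ((w : H →L[ℂ] H) ξ)) (A (U ξ)) := (hU ξ).mapL A
    have h2 : HasSum (fun w : F => A ((w : H →L[ℂ] H) ξ)) (A ((v : H →L[ℂ] H) ξ)) :=
      hasSum_single v fun w hw => by
        have : (A * (w : H →L[ℂ] H)) ξ = 0 := by rw [hA w hw]; simp
        exact this
    exact h1.unique h2
  have hright : ∀ (A : H →L[ℂ] H) (v : F), (∀ w : F, w ≠ v → (w : H →L[ℂ] H) * A = 0) →
      U * A = (v : H →L[ℂ] H) * A := by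
    intro A v hA
    ext ξ
    have h1 : HasSum (fun w : F => (w : H →L[ℂ] H) (A ξ)) (U (A ξ)) := hU (A ξ)
    have h2 : HasSum (fun w : F => (w : H →L[ℂ] H) (A ξ)) ((v : H →L[ℂ] H) (A ξ)) :=
      hasSum_single v fun w hw => by
        have : ((w : H →L[ℂ] H) * A) ξ = 0 := by rw [hA w hw]; simp
        exact this
    exact h1.unique h2
  have hsU : ∀ v : F, star (v : H →L[ℂ] H) * U = star (v : H →L[ℂ] H) * (v : H →L[ℂ] H) := by
    intro v
    refine hleft _ 0 v fun w hw => ?_
    exact (hG.2 v v.2 w w.2 (fun h => hw (Subtype.ext h.symm))).2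
  have hUs : ∀ v : F, U * star (v : H →L[ℂ] H) = (v : H →L[ℂ] H) * star (v : H →L[ℂ] H) := by
    intro v
    refine hright _ v fun w hw => ?_
    exact (hG.2 w w.2 v v.2 (fun h => hw (Subtype.ext h))).1
  have hUsv : ∀ v : F, star U * (v : H →L[ℂ] H) = star (v : H →L[ℂ] H) * (v : H →L[ℂ] H) := by
    intro v
    have := congrArg star (hsU v)
    simpa [star_mul] using this
  have hvP : ∀ v : F, star U * U * star (v : H →L[ℂ] H) = star (v : H →L[ℂ] H) := by
    intro v
    rw [mul_assoc, hUs, ← mul_assoc, hUsv]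
    have := congrArg star (hG.1 v v.2)
    simpa [star_mul, mul_assoc] using this
  have hRv : ∀ v : F, U * star U * (v : H →L[ℂ] H) = (v : H →L[ℂ] H) := by
    intro v
    rw [mul_assoc, hUsv, ← mul_assoc, hUs, hG.1 v v.2]
  have hPs : star (star U * U) = star U * U := by simp
  have hRs : star (U * star U) = U * star U := by simp
  have hvP' : ∀ v : F, (v : H →L[ℂ] H) * (star U * U) = (v : H →L[ℂ] H) := by
    intro v
    have := congrArg star (hvP v)
    rwa [star_mul, star_star, hPs] at this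
  have hUP : U * (star U * U) = U := by
    ext ξ
    have h1 : HasSum (fun w : F => (w : H →L[ℂ] H) ((star U * U) ξ)) (U ((star U * U) ξ)) :=
      hU _
    have h2 : (fun w : F => (w : H →L[ℂ] H) ((star U * U) ξ)) =
        fun w : F => (w : H →L[ℂ] H) ξ := by
      funext w
      have : ((w : H →L[ℂ] H) * (star U * U)) ξ = (w : H →L[ℂ] H) ξ := by rw [hvP']
      exact this
    rw [h2] at h1
    exact h1.unique (hU ξ)
  have hPP : (star U * U) * (star U * U) = star U * U := by
    rw [mul_assoc, hUP]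
  have hRR : (U * star U) * (U * star U) = U * star U := by
    calc (U * star U) * (U * star U) = (U * (star U * U)) * star U := by noncomm_ring
      _ = U * star U := by rw [hUP]
  have hqU : q * U = U := by
    ext ξ
    have h1 : HasSum (fun w : F => q ((w : H →L[ℂ] H) ξ)) (q (U ξ)) := (hU ξ).mapL q
    have h2 : (fun w : F => q ((w : H →L[ℂ] H) ξ)) = fun w : F => (w : H →L[ℂ] H) ξ := by
      funext w
      have : (q * (w : H →L[ℂ] H)) ξ = (w : H →L[ℂ] H) ξ := by rw [(hFS.2 w w.2).2.1]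
      exact this
    rw [h2] at h1
    exact h1.unique (hU ξ)
  have hUp : U * p = U := by
    ext ξ
    have h1 : HasSum (fun w : F => (w : H →L[ℂ] H) (p ξ)) (U (p ξ)) := hU _
    have h2 : (fun w : F => (w : H →L[ℂ] H) (p ξ)) = fun w : F => (w : H →L[ℂ] H) ξ := by
      funext w
      have : ((w : H →L[ℂ] H) * p) ξ = (w : H →L[ℂ] H) ξ := by rw [(hFS.2 w w.2).2.2]
      exact this
    rw [h2] at h1
    exact h1.unique (hU ξ)
  have hpU : p * star U = star U := by
    have := congrArg star hUp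
    rwa [star_mul, hps] at this
  have hUq : star U * q = star U := by
    have := congrArg star hqU
    rwa [star_mul, hqs] at this
  have hUsM : star U ∈ M := star_mem hUM
  by_cases h1 : p - star U * U = 0
  · left
    refine ⟨U, hUM, (sub_eq_zero.1 h1).symm, ?_⟩
    rw [← mul_assoc, hqU]
  by_cases h2 : q - U * star U = 0
  · right
    refine ⟨star U, hUsM, ?_, ?_⟩
    · rw [star_star]; exact (sub_eq_zero.1 h2).symm
    · rw [star_star, ← mul_assoc, hpU]
  exfalso
  have hp' : IsStarProjection (p - star U * U) := by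
    refine ⟨?_, ?_⟩
    · change (p - star U * U) * (p - star U * U) = p - star U * U
      have e : (p - star U * U) * (p - star U * U) = p * p - (p * star U) * U
        - star U * (U * p) + (star U * U) * (star U * U) := by noncomm_ring
      rw [e, hpi, hpU, hUp, hPP]
      abel
    · change star (p - star U * U) = p - star U * U
      rw [star_sub, hps, hPs]
  have hq' : IsStarProjection (q - U * star U) := by
    refine ⟨?_, ?_⟩
    · change (q - U * star U) * (q - U * star U) = q - U * star U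
      have e : (q - U * star U) * (q - U * star U) = q * q - (q * U) * star U
        - U * (star U * q) + (U * star U) * (U * star U) := by noncomm_ring
      rw [e, hqi, hqU, hUq, hRR]
      abel
    · change star (q - U * star U) = q - U * star U
      rw [star_sub, hqs, hRs]
  obtain ⟨w, hwM, hw0, hw1, hw2, hw3, hw4⟩ := hloc (p - star U * U)
    (sub_mem hpM (mul_mem hUsM hUM)) (q - U * star U) (sub_mem hqM (mul_mem hUM hUsM))
    hp' hq' h1 h2
  have hwv : ∀ v ∈ F, w * star v = 0 := by
    intro v hv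
    have h3 := hvP ⟨v, hv⟩
    have h4 : p * star v = star v := by
      have := congrArg star (hFS.2 v hv).2.2
      rwa [star_mul, hps] at this
    simp only at h3
    calc w * star v = w * (p - star U * U) * star v := by rw [hw4]
      _ = w * (p * star v - star U * U * star v) := by noncomm_ring
      _ = 0 := by rw [h4, h3, sub_self, mul_zero]
  have hvw : ∀ v ∈ F, star v * w = 0 := by
    intro v hv
    have h3 := congrArg star (hRv ⟨v, hv⟩)
    have h4 : star v * q = star v := by
      have := congrArg star (hFS.2 v hv).2.1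
      rwa [star_mul, hqs] at this
    rw [star_mul, hRs] at h3
    simp only at h3
    calc star v * w = star v * ((q - U * star U) * w) := by rw [hw3]
      _ = (star v * q - star v * (U * star U)) * w := by noncomm_ring
      _ = 0 := by rw [h4, h3, sub_self, zero_mul]
  have hwnF : w ∉ F := by
    intro hwF
    have h3 := hwv w hwF
    exact hw0 ((CStarRing.mul_star_self_eq_zero_iff _).1 h3)
  have hnew : insert w F ∈ S := by
    refine ⟨⟨?_, ?_⟩, ?_⟩
    · rintro v (rfl | hv)
      · exact pi_of_proj hw1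
      · exact hG.1 v hv
    · rintro v (rfl | hv) u (rfl | hu) hne
      · exact absurd rfl hne
      · refine ⟨hwv u hu, ?_⟩
        have := congrArg star (hvw u hu)
        simpa [star_mul] using this
      · refine ⟨?_, hvw v hv⟩
        have := congrArg star (hwv v hv)
        simpa [star_mul] using this
      · exact hG.2 v hv u hu hne
    · rintro v (rfl | hv)
      · refine ⟨hwM, ?_, ?_⟩
        · calc q * v = q * ((q - U * star U) * v) := by rw [hw3]
            _ = (q * q - (q * U) * star U) * v := by noncomm_ring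
            _ = v := by rw [hqi, hqU, hw3]
        · calc v * p = (v * (p - star U * U)) * p := by rw [hw4]
            _ = v * (p * p - star U * (U * p)) := by noncomm_ring
            _ = v := by rw [hpi, hUp, hw4]
      · exact hFS.2 v hv
  have h5 := hFmax.le_of_ge hnew (Set.subset_insert w F)
  exact hwnF (h5 (Set.mem_insert w F))

end Pool.Agent.Helper187.Fac
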