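import Mathlib

namespace Pool.Agent.Helper187.Fac

variable {H : Type*} [NormedAddCommGroup H] [InnerProductSpace ℂ H] [CompleteSpace H]

theorem v4_mem_cfc (M : VonNeumannAlgebra H) (x : H →L[ℂ] H) (hxM : x ∈ M) (hx : IsSelfAdjoint x)
    (f : ℝ → ℝ) : cfc f x ∈ M := by
  rw [← VonNeumannAlgebra.commutant_commutant M, VonNeumannAlgebra.mem_commutant_iff]
  intro g hg
  rw [VonNeumannAlgebra.mem_commutant_iff] at hg
  have h1 : Commute x g := hg x hxM
  exact (h1.cfc_real f).symm

/-- one spectral projection -/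
theorem v4_proj (M : VonNeumannAlgebra H)
    (hrange : ∀ y ∈ M, ∃ e ∈ M, IsStarProjection e ∧ e * y = y ∧
      ∀ z : H →L[ℂ] H, z * y = 0 → z * e = 0)
    (e : H →L[ℂ] H) (he : IsStarProjection e)
    (x : H →L[ℂ] H) (hxM : x ∈ M) (hx : IsSelfAdjoint x) (hex : Commute e x) :
    ∃ E : ℝ → H →L[ℂ] H, ∀ s, E s ∈ M ∧ IsStarProjection (E s) ∧ Commute (E s) x ∧ Commute (E s) e ∧
      0 ≤ (x - algebraMap ℝ _ s) * E s ∧ (x - algebraMap ℝ _ s) * (1 - E s) ≤ 0 ∧
      ∀ s', s < s' → E s * E s' = E s' := by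
  have hex1 : ∀ s : ℝ, ∃ E ∈ M, IsStarProjection E ∧ E * cfc (fun t : ℝ => max (t - s) 0) x = cfc (fun t : ℝ => max (t - s) 0) x ∧
      ∀ z : H →L[ℂ] H, z * cfc (fun t : ℝ => max (t - s) 0) x = 0 → z * E = 0 :=
    fun s => hrange _ (v4_mem_cfc M x hxM hx _)
  choose E hEM hEp hEy hEz using hex1
  refine ⟨E, fun s => ?_⟩
  set y : H →L[ℂ] H := cfc (fun t : ℝ => max (t - s) 0) x with hy
  set n : H →L[ℂ] H := cfc (fun t : ℝ => max (s - t) 0) x with hn
  have hcy : Continuous (fun t : ℝ => max (t - s) 0) := by fun_prop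
  have hcn : Continuous (fun t : ℝ => max (s - t) 0) := by fun_prop
  have hyn : y - n = x - algebraMap ℝ _ s := by
    rw [hy, hn, ← cfc_sub (fun t : ℝ => max (t - s) 0) (fun t : ℝ => max (s - t) 0) x hcy.continuousOn hcn.continuousOn]
    have h1 : (fun t : ℝ => max (t - s) 0 - max (s - t) 0) = (fun t : ℝ => t - s) := by
      funext t
      rcases le_total t s with h | h
      · rw [max_eq_right (by linarith), max_eq_left (by linarith)]; ring
      · rw [max_eq_left (by linarith), max_eq_right (by linarith)]; ring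
    rw [h1, cfc_sub (fun t : ℝ => t) (fun _ => s) x (by fun_prop) (by fun_prop), cfc_id' ℝ x, cfc_const s x]
  have hny : n * y = 0 := by
    rw [hy, hn, ← cfc_mul (fun t : ℝ => max (s - t) 0) (fun t : ℝ => max (t - s) 0) x hcn.continuousOn hcy.continuousOn]
    have h1 : (fun t : ℝ => max (s - t) 0 * max (t - s) 0) = (fun t : ℝ => 0) := by
      funext t
      rcases le_total t s with h | h
      · rw [max_eq_right (show t - s ≤ 0 by linarith)]; ring
      · rw [max_eq_right (show s - t ≤ 0 by linarith)]; ring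
    rw [h1, cfc_const_zero]
  have hy0 : 0 ≤ y := cfc_nonneg (fun t _ => le_max_right _ _)
  have hn0 : 0 ≤ n := cfc_nonneg (fun t _ => le_max_right _ _)
  have hnE : n * E s = 0 := hEz s n hny
  have hEy' : E s * y = y := hEy s
  have hysa : IsSelfAdjoint y := IsSelfAdjoint.of_nonneg hy0
  have hEsa : IsSelfAdjoint (E s) := (hEp s).isSelfAdjoint
  have hyE : y * E s = y := by
    have := congrArg star hEy'
    rwa [star_mul, hysa.star_eq, hEsa.star_eq] at this
  have hcomm : ∀ z : H →L[ℂ] H, Commute z x → Commute (star z) x → Commute (E s) z := by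
    intro z hz hz'
    have key : ∀ w : H →L[ℂ] H, Commute w x → w * E s = E s * w * E s := by
      intro w hw
      have h1 : Commute w y := (hw.symm.cfc_real _).symm
      have h2 : ((1 - E s) * w) * y = 0 := by
        rw [mul_assoc, h1.eq, ← mul_assoc, sub_mul, one_mul, hEy', sub_self, zero_mul]
      have h3 := hEz s _ h2
      rw [sub_mul, one_mul, sub_mul, sub_eq_zero] at h3
      exact h3
    have k1 := key z hz
    have k2 := key (star z) hz'
    have k3 := congrArg star k2
    simp only [star_mul, star_star, hEsa.star_eq] at k3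
    -- k3 : E s * z = E s * (z * E s)
    change E s * z = z * E s
    rw [k3, ← mul_assoc]
    exact k1.symm
  refine ⟨hEM s, hEp s, hcomm x (Commute.refl x) (by rw [hx.star_eq]), hcomm e hex (by rw [he.isSelfAdjoint.star_eq]; exact hex), ?_, ?_, ?_⟩
  · rw [← hyn, sub_mul, hnE, sub_zero, hyE]; exact hy0
  · rw [← hyn, sub_mul, mul_sub, mul_sub, hnE, hyE, mul_one, mul_one, sub_self, sub_zero, zero_sub]
    exact neg_nonpos.2 hn0
  · intro s' hss'
    have hk : Continuous (fun t : ℝ => max (t - s') 0 / max (t - s) (s' - s)) := by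
      apply Continuous.div (by fun_prop) (by fun_prop)
      intro t
      have : 0 < max (t - s) (s' - s) := lt_max_of_lt_right (by linarith)
      exact this.ne'
    have h1 : cfc (fun t : ℝ => max (t - s') 0) x = y * cfc (fun t : ℝ => max (t - s') 0 / max (t - s) (s' - s)) x := by
      rw [hy, ← cfc_mul (fun t : ℝ => max (t - s) 0) (fun t : ℝ => max (t - s') 0 / max (t - s) (s' - s)) x hcy.continuousOn hk.continuousOn]
      congr 1
      funext t
      rcases le_total t s' with h | h
      · rw [max_eq_right (show t - s' ≤ 0 by linarith)]; ring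
      · rw [max_eq_left (show (0:ℝ) ≤ t - s' by linarith), max_eq_left (show s' - s ≤ t - s by linarith),
          max_eq_left (show (0:ℝ) ≤ t - s by linarith)]
        have : t - s ≠ 0 := by
          have : 0 < t - s := by linarith
          exact this.ne'
        field_simp
    have h2 : (1 - E s) * cfc (fun t : ℝ => max (t - s') 0) x = 0 := by
      rw [h1, ← mul_assoc, sub_mul, one_mul, hEy', sub_self, zero_mul]
    have h3 := hEz s' _ h2
    rw [sub_mul, one_mul, sub_eq_zero] at h3
    exact h3.symm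

/-- Norm approximation of selfadjoint elements of a corner by real combinations of orthogonal
projections of the corner. -/
theorem dense_projections (M : VonNeumannAlgebra H)
    (hrange : ∀ y ∈ M, ∃ e ∈ M, IsStarProjection e ∧ e * y = y ∧
      ∀ z : H →L[ℂ] H, z * y = 0 → z * e = 0)
    (e : H →L[ℂ] H) (heM : e ∈ M) (he : IsStarProjection e)
    (x : H →L[ℂ] H) (hxM : x ∈ M) (hx : IsSelfAdjoint x) (hex : e * x = x) (ε : ℝ) (hε : 0 < ε) :
    ∃ (n : ℕ) (p : Fin n → H →L[ℂ] H) (t : Fin n → ℝ), (∀ i, p i ∈ M) ∧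
      (∀ i, IsStarProjection (p i)) ∧ (∀ i, e * p i = p i) ∧ (∀ i j, i ≠ j → p i * p j = 0) ∧
      ‖x - ∑ i, (t i : ℂ) • p i‖ < ε := by
  have hesa : IsSelfAdjoint e := he.isSelfAdjoint
  have hxe : x * e = x := by
    have := congrArg star hex
    rwa [star_mul, hx.star_eq, hesa.star_eq] at this
  have hcex : Commute e x := by change e * x = x * e; rw [hex, hxe]
  obtain ⟨E, hE⟩ := v4_proj M hrange e he x hxM hx hcex
  set δ : ℝ := ε / 2 with hδ
  have hδpos : 0 < δ := by positivity
  obtain ⟨N, hN⟩ := exists_nat_gt (2 * ‖x‖ / δ)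
  set n : ℕ := N + 1 with hn
  have hNδ : 2 * ‖x‖ ≤ n * δ := by
    rw [div_lt_iff₀ hδpos] at hN
    rw [hn]; push_cast
    nlinarith
  let s : ℕ → ℝ := fun i => -‖x‖ + i * δ
  let F : ℕ → H →L[ℂ] H := fun i => if i = 0 then 1 else if n ≤ i then 0 else E (s i)
  have hF0 : F 0 = 1 := by simp [F]
  have hFn : F n = 0 := by simp [F, hn]
  have hFM : ∀ i, F i ∈ M := by
    intro i; simp only [F]; split_ifs
    · exact one_mem M
    · exact zero_mem M
    · exact (hE _).1
  have hFp : ∀ i, IsStarProjection (F i) := by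
    intro i; simp only [F]; split_ifs
    · exact IsStarProjection.one _
    · exact IsStarProjection.zero _
    · exact (hE _).2.1
  have hFx : ∀ i, Commute (F i) x := by
    intro i; simp only [F]; split_ifs
    · exact Commute.one_left _
    · exact Commute.zero_left _
    · exact (hE _).2.2.1
  have hFe : ∀ i, Commute (F i) e := by
    intro i; simp only [F]; split_ifs
    · exact Commute.one_left _
    · exact Commute.zero_left _
    · exact (hE _).2.2.2.1
  have hxlow : algebraMap ℝ (H →L[ℂ] H) (-‖x‖) ≤ x := by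
    rw [map_neg]; exact hx.neg_algebraMap_norm_le_self
  have hxup : x ≤ algebraMap ℝ (H →L[ℂ] H) ‖x‖ := hx.le_algebraMap_norm_self
  have hA : ∀ i ≤ n, 0 ≤ (x - algebraMap ℝ _ (s i)) * F i := by
    intro i hi
    simp only [F]
    split_ifs with h1 h2
    · rw [mul_one, h1, sub_nonneg]; simp only [s, Nat.cast_zero, zero_mul, add_zero]; exact hxlow
    · rw [mul_zero]
    · exact (hE _).2.2.2.2.1
  have hB : ∀ i ≤ n, (x - algebraMap ℝ _ (s i)) * (1 - F i) ≤ 0 := by
    intro i hi
    simp only [F]
    split_ifs with h1 h2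
    · rw [sub_self, mul_zero]
    · rw [sub_zero, mul_one, sub_nonpos]
      refine hxup.trans ?_
      have hin : i = n := le_antisymm hi h2
      have : ‖x‖ ≤ s i := by
        simp only [s]; rw [hin]; linarith
      rw [← sub_nonneg, ← map_sub]
      exact algebraMap_nonneg _ (by linarith)
    · exact (hE _).2.2.2.2.2.1
  have hFF : ∀ i j, i ≤ j → F i * F j = F j := by
    intro i j hij
    rcases eq_or_lt_of_le hij with h | h
    · rw [h]; exact (hFp j).isIdempotentElem
    · have hj0 : j ≠ 0 := by omega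
      by_cases h1 : i = 0
      · subst h1; rw [hF0, one_mul]
      · by_cases h2 : n ≤ j
        · have : F j = 0 := by simp [F, hj0, h2]
          rw [this, mul_zero]
        · have h3 : ¬ n ≤ i := by omega
          have e1 : F i = E (s i) := by simp [F, h1, h3]
          have e2 : F j = E (s j) := by simp [F, hj0, h2]
          rw [e1, e2]
          apply (hE _).2.2.2.2.2.2
          simp only [s]
          have : (i:ℝ) < j := by exact_mod_cast h
          nlinarith
  have hFF' : ∀ i j, i ≤ j → F j * F i = F j := by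
    intro i j hij
    have := congrArg star (hFF i j hij)
    rwa [star_mul, (hFp i).isSelfAdjoint.star_eq, (hFp j).isSelfAdjoint.star_eq] at this
  let P : ℕ → H →L[ℂ] H := fun i => F i - F (i + 1)
  have hPsa : ∀ i, IsSelfAdjoint (P i) := fun i => (hFp i).isSelfAdjoint.sub (hFp (i+1)).isSelfAdjoint
  have hPid : ∀ i, P i * P i = P i := by
    intro i
    simp only [P]
    rw [sub_mul, mul_sub, mul_sub, (hFp i).isIdempotentElem.eq, (hFp (i+1)).isIdempotentElem.eq,
      hFF i (i+1) (Nat.le_succ i), hFF' i (i+1) (Nat.le_succ i)]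
    abel
  have hPort : ∀ i j, i < j → P i * P j = 0 := by
    intro i j hij
    simp only [P]
    rw [sub_mul, mul_sub, mul_sub, hFF i j hij.le, hFF i (j+1) (by omega), hFF (i+1) j hij,
      hFF (i+1) (j+1) (by omega)]
    abel
  have hPort' : ∀ i j, i ≠ j → P i * P j = 0 := by
    intro i j hij
    rcases lt_or_gt_of_ne hij with h | h
    · exact hPort i j h
    · have := congrArg star (hPort j i h)
      rwa [star_mul, (hPsa i).star_eq, (hPsa j).star_eq, star_zero] at this
  have hPe : ∀ i, Commute (P i) e := fun i => (hFe i).sub_left (hFe (i+1))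
  -- order bounds
  have hc : ∀ i (r : ℝ), Commute (F i) (x - algebraMap ℝ _ r) := fun i r =>
    (hFx i).sub_right (Algebra.commutes r (F i)).symm
  have hlow : ∀ i < n, 0 ≤ (x - algebraMap ℝ _ (s i)) * P i := by
    intro i hi
    have h1 := hA i hi.le
    have hq : IsSelfAdjoint (1 - F (i+1)) := (IsSelfAdjoint.one _).sub (hFp (i+1)).isSelfAdjoint
    have h2 := hq.conjugate_nonneg h1
    have h3 : (1 - F (i+1)) * ((x - algebraMap ℝ _ (s i)) * F i) * (1 - F (i+1)) = (x - algebraMap ℝ _ (s i)) * P i := by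
      have c1 : Commute (1 - F (i+1)) (x - algebraMap ℝ _ (s i)) := (Commute.one_left _).sub_left (hc _ _)
      have e1 : (1 - F (i+1)) * (F i * (1 - F (i+1))) = P i := by
        simp only [P]
        rw [mul_sub, mul_one, hFF i (i+1) (Nat.le_succ i), sub_mul, one_mul, mul_sub, hFF' i (i+1) (Nat.le_succ i),
          (hFp (i+1)).isIdempotentElem.eq, sub_self, sub_zero]
      calc (1 - F (i+1)) * ((x - algebraMap ℝ _ (s i)) * F i) * (1 - F (i+1))
          = ((1 - F (i+1)) * (x - algebraMap ℝ _ (s i))) * (F i * (1 - F (i+1))) := by noncomm_ring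
        _ = ((x - algebraMap ℝ _ (s i)) * (1 - F (i+1))) * (F i * (1 - F (i+1))) := by rw [c1.eq]
        _ = (x - algebraMap ℝ _ (s i)) * ((1 - F (i+1)) * (F i * (1 - F (i+1)))) := by rw [mul_assoc]
        _ = _ := by rw [e1]
    rwa [h3] at h2
  have hup : ∀ i < n, (x - algebraMap ℝ _ (s i)) * P i ≤ algebraMap ℝ _ δ * P i := by
    intro i hi
    have h1 := hB (i+1) hi
    have hq : IsSelfAdjoint (F i) := (hFp i).isSelfAdjoint
    have h2 := hq.conjugate_nonneg (neg_nonneg.2 h1)
    have h3 : (F i) * (-((x - algebraMap ℝ _ (s (i+1))) * (1 - F (i+1)))) * (F i) = -((x - algebraMap ℝ _ (s (i+1))) * P i) := by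
      have c1 : Commute (F i) (x - algebraMap ℝ _ (s (i+1))) := hc _ _
      have e1 : F i * ((1 - F (i+1)) * F i) = P i := by
        simp only [P]
        rw [sub_mul, one_mul, hFF' i (i+1) (Nat.le_succ i), mul_sub, (hFp i).isIdempotentElem.eq,
          hFF i (i+1) (Nat.le_succ i)]
      calc (F i) * (-((x - algebraMap ℝ _ (s (i+1))) * (1 - F (i+1)))) * (F i)
          = -((F i * (x - algebraMap ℝ _ (s (i+1)))) * ((1 - F (i+1)) * F i)) := by noncomm_ring
        _ = -(((x - algebraMap ℝ _ (s (i+1))) * F i) * ((1 - F (i+1)) * F i)) := by rw [c1.eq]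
        _ = -((x - algebraMap ℝ _ (s (i+1))) * (F i * ((1 - F (i+1)) * F i))) := by rw [mul_assoc]
        _ = _ := by rw [e1]
    rw [h3] at h2
    have h4 : algebraMap ℝ (H →L[ℂ] H) δ * P i - (x - algebraMap ℝ _ (s i)) * P i =
        -((x - algebraMap ℝ _ (s (i+1))) * P i) := by
      have : algebraMap ℝ (H →L[ℂ] H) (s (i+1)) = algebraMap ℝ _ (s i) + algebraMap ℝ _ δ := by
        rw [← map_add]; congr 1; simp only [s]; push_cast; ring
      rw [this]; noncomm_ring
    rw [← sub_nonneg, h4]; exact h2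
  have hsumP : ∀ m, ∑ i ∈ Finset.range m, P i = F 0 - F m := by
    intro m
    induction m with
    | zero => simp
    | succ m ih => rw [Finset.sum_range_succ, ih]; simp only [P]; abel
  have hdiff : x - ∑ i ∈ Finset.range n, algebraMap ℝ _ (s i) * P i =
      ∑ i ∈ Finset.range n, (x - algebraMap ℝ _ (s i)) * P i := by
    have h1 : x = x * ∑ i ∈ Finset.range n, P i := by
      rw [hsumP, hF0, hFn, sub_zero, mul_one]
    conv_lhs => rw [h1]
    rw [Finset.mul_sum, ← Finset.sum_sub_distrib]
    apply Finset.sum_congr rfl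
    intro i _
    rw [sub_mul]
  set R := ∑ i ∈ Finset.range n, (x - algebraMap ℝ _ (s i)) * P i with hR
  have hR0 : 0 ≤ R := Finset.sum_nonneg (fun i hi => hlow i (Finset.mem_range.1 hi))
  have hRle : R ≤ algebraMap ℝ _ δ := by
    have h1 : R ≤ ∑ i ∈ Finset.range n, algebraMap ℝ _ δ * P i :=
      Finset.sum_le_sum (fun i hi => hup i (Finset.mem_range.1 hi))
    rw [← Finset.mul_sum, hsumP, hF0, hFn, sub_zero, mul_one] at h1
    exact h1
  have hRn : ‖R‖ ≤ δ := (CStarAlgebra.norm_le_iff_le_algebraMap R hδpos.le hR0).2 hRle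
  refine ⟨n, fun i => e * P i, fun i => s i, fun i => mul_mem heM (sub_mem (hFM _) (hFM _)), ?_, ?_, ?_, ?_⟩
  · intro i
    have hc := (hPe i).eq
    refine ⟨?_, ?_⟩
    · change e * P i * (e * P i) = e * P i
      calc e * P i * (e * P i) = e * (P i * e) * P i := by noncomm_ring
        _ = e * (e * P i) * P i := by rw [hc]
        _ = (e * e) * (P i * P i) := by noncomm_ring
        _ = e * P i := by rw [he.isIdempotentElem.eq, hPid]
    · change star (e * P i) = e * P i
      rw [star_mul, (hPsa i).star_eq, hesa.star_eq, hc]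
  · intro i
    rw [← mul_assoc, he.isIdempotentElem.eq]
  · intro i j hij
    have hc := (hPe i).eq
    have hij' : (i:ℕ) ≠ j := fun h => hij (Fin.ext h)
    calc e * P i * (e * P j) = e * (P i * e) * P j := by noncomm_ring
      _ = e * (e * P i) * P j := by rw [hc]
      _ = (e * e) * (P i * P j) := by noncomm_ring
      _ = 0 := by rw [hPort' i j hij', mul_zero]
  · have h1 : x - ∑ i : Fin n, ((s i : ℝ) : ℂ) • (e * P i) = e * R := by
      rw [← hdiff, mul_sub, hex, Finset.mul_sum, ← Fin.sum_univ_eq_sum_range (fun i => e * (algebraMap ℝ (H →L[ℂ] H) (s i) * P i)) n]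
      congr 1
      apply Finset.sum_congr rfl
      intro i _
      rw [← mul_assoc, ← Algebra.commutes, mul_assoc, ← Algebra.smul_def]
      rw [Complex.coe_smul]
    rw [h1]
    have hen : ‖e‖ ≤ 1 := he.norm_le
    calc ‖e * R‖ ≤ ‖e‖ * ‖R‖ := norm_mul_le _ _
      _ ≤ 1 * δ := mul_le_mul hen hRn (norm_nonneg _) zero_le_one
      _ < ε := by rw [one_mul, hδ]; linarith

end Pool.Agent.Helper187.Fac
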