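import Mathlib

namespace Pool.Agent.Helper187.Fac

variable {H : Type*} [NormedAddCommGroup H] [InnerProductSpace ℂ H] [CompleteSpace H]

open Filter Topology Finset in
theorem summable_of_orth_aux (x : ℕ → H) (h : ∀ m n, m ≠ n → inner ℂ (x m) (x n) = 0)
    (hs : Summable fun k => ‖x k‖ ^ 2) : Summable x := by
  have hV : OrthogonalFamily ℂ (fun k => (Submodule.span ℂ {x k} : Submodule ℂ H))
      (fun k => (Submodule.span ℂ {x k}).subtypeₗᵢ) := by
    intro m n hmn a b
    obtain ⟨a, ha⟩ := a
    obtain ⟨b, hb⟩ := b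
    rw [Submodule.mem_span_singleton] at ha hb
    obtain ⟨c, rfl⟩ := ha
    obtain ⟨d, rfl⟩ := hb
    simp [inner_smul_left, inner_smul_right, h m n hmn]
  have := (hV.summable_iff_norm_sq_summable
    (fun k => ⟨x k, Submodule.mem_span_singleton_self (x k)⟩)).2 (by simpa using hs)
  simpa using this

open Filter Topology Finset in
/-- An infinite sequence of nonzero pairwise orthogonal equivalent projections in a von Neumann algebra
gives a non-unitary isometry in it. -/
theorem exists_nonunitary_isometry (M : VonNeumannAlgebra H) (p : H →L[ℂ] H) (hp0 : p ≠ 0)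
    (hp : IsStarProjection p) (v : ℕ → H →L[ℂ] H) (hvM : ∀ n, v n ∈ M)
    (hv : ∀ n, star (v n) * v n = p) (horth : ∀ m n, m ≠ n → star (v m) * v n = 0) :
    ∃ u ∈ M, star u * u = 1 ∧ u * star u ≠ 1 := by
  have hpp : p * p = p := hp.isIdempotentElem
  have hps : star p = p := hp.isSelfAdjoint
  have hvp : ∀ n, v n * p = v n := by
    intro n
    have h0 : star (v n * p - v n) * (v n * p - v n) = 0 := by
      simp only [star_sub, star_mul, hps, sub_mul, mul_sub]
      have e1 : p * star (v n) * (v n * p) = p := by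
        rw [mul_assoc, ← mul_assoc (star (v n)), hv, hpp, hpp]
      have e2 : p * star (v n) * v n = p := by rw [mul_assoc, hv, hpp]
      have e3 : star (v n) * (v n * p) = p := by rw [← mul_assoc, hv, hpp]
      rw [e1, e2, e3, hv]; simp
    rw [CStarRing.star_mul_self_eq_zero_iff] at h0
    exact sub_eq_zero.1 h0
  have hpv : ∀ n, p * star (v n) = star (v n) := by
    intro n
    have := congrArg star (hvp n)
    simpa [star_mul, hps] using this
  -- partial operators
  let W : ℕ → H →L[ℂ] H := fun N => ∑ k ∈ range N, v (k + 1) * star (v k)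
  let E : ℕ → H →L[ℂ] H := fun N => ∑ k ∈ range N, v k * star (v k)
  let U : ℕ → H →L[ℂ] H := fun N => W N + (1 - E (N + 1))
  have hUM : ∀ N, U N ∈ M := by
    intro N
    refine add_mem (sum_mem fun k _ => mul_mem (hvM _) (star_mem (hvM _)))
      (sub_mem (one_mem _) (sum_mem fun k _ => mul_mem (hvM _) (star_mem (hvM _))))
  -- algebra
  have hEv : ∀ N j, j < N → E N * v j = v j := by
    intro N j hj
    simp only [E, Finset.sum_mul]
    rw [Finset.sum_eq_single j]
    · rw [mul_assoc, hv, hvp]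
    · intro b _ hb
      rw [mul_assoc, horth b j hb, mul_zero]
    · intro h; exact absurd (mem_range.2 hj) h
  have hEs : ∀ N, star (E N) = E N := by
    intro N; simp [E, star_sum, star_mul]
  have hEE : ∀ N, E N * E N = E N := by
    intro N
    have : E N * E N = ∑ k ∈ range N, (E N * v k) * star (v k) := by
      conv_lhs => rw [show E N * E N = E N * ∑ k ∈ range N, v k * star (v k) from rfl]
      rw [Finset.mul_sum]
      exact Finset.sum_congr rfl fun k _ => by rw [mul_assoc]
    rw [this]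
    exact Finset.sum_congr rfl fun k hk => by rw [hEv N k (mem_range.1 hk)]
  have hEW : ∀ N, E (N + 1) * W N = W N := by
    intro N
    simp only [W, Finset.mul_sum]
    exact Finset.sum_congr rfl fun k hk => by
      rw [← mul_assoc, hEv (N + 1) (k + 1) (by have := mem_range.1 hk; omega)]
  have hWE : ∀ N, star (W N) * E (N + 1) = star (W N) := by
    intro N
    have := congrArg star (hEW N)
    simpa [star_mul, hEs] using this
  have hWW : ∀ N, star (W N) * W N = E N := by
    intro N
    simp only [W, star_sum, star_mul, star_star, Finset.sum_mul, Finset.mul_sum, E]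
    refine Finset.sum_congr rfl fun k hk => ?_
    rw [Finset.sum_eq_single k]
    · rw [mul_assoc, ← mul_assoc (star (v (k+1))), hv, hpv]
    · intro b _ hb
      rw [mul_assoc, ← mul_assoc (star (v (b + 1))), horth (b + 1) (k + 1) (by omega)]
      simp
    · intro h; exact absurd hk h
  have hUU : ∀ N, star (U N) * U N = 1 - v N * star (v N) := by
    intro N
    simp only [U, star_add, star_sub, star_one, hEs, add_mul, mul_add, sub_mul, mul_sub, one_mul,
      mul_one, hWW, hWE, hEW, hEE]
    simp only [E, Finset.sum_range_succ]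
    abel
  have hvU : ∀ N, star (v 0) * U N = 0 := by
    intro N
    have h1 : star (v 0) * W N = 0 := by
      simp only [W, Finset.mul_sum]
      exact Finset.sum_eq_zero fun k _ => by
        rw [← mul_assoc, horth 0 (k + 1) (by omega), zero_mul]
    have h2 : star (v 0) * E (N + 1) = star (v 0) := by
      have := congrArg star (hEv (N + 1) 0 (by omega))
      simpa [star_mul, hEs] using this
    simp only [U, mul_add, mul_sub, mul_one, h1, h2]; simp
  -- norms
  have hnorm : ∀ m n (ξ : H), ‖(v m) (star (v n) ξ)‖ ^ 2 = ‖star (v n) ξ‖ ^ 2 := by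
    intro m n ξ
    have h1 : inner ℂ ((v m) (star (v n) ξ)) ((v m) (star (v n) ξ)) =
        inner ℂ (star (v n) ξ) (star (v n) ξ) := by
      rw [← ContinuousLinearMap.adjoint_inner_right]
      have : (ContinuousLinearMap.adjoint (v m)) ((v m) (star (v n) ξ)) = star (v n) ξ := by
        have h2 : (star (v m) * v m) * star (v n) = star (v n) := by rw [hv, hpv]
        exact congrArg (fun T : H →L[ℂ] H => T ξ) h2
      rw [this]
    have h3 := congrArg Complex.re h1
    have h4 : ∀ x : H, (inner ℂ x x : ℂ).re = ‖x‖ ^ 2 := fun x => by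
      have := inner_self_eq_norm_sq (𝕜 := ℂ) x
      simpa using this
    rw [h4, h4] at h3
    exact h3
  have hbes : ∀ (ξ : H) (s : Finset ℕ), ∑ k ∈ s, ‖star (v k) ξ‖ ^ 2 ≤ ‖ξ‖ ^ 2 := by
    intro ξ s
    set y : H := ∑ k ∈ s, (v k) (star (v k) ξ) with hy
    have hoi : ∀ m n, m ≠ n → inner ℂ ((v m) (star (v m) ξ)) ((v n) (star (v n) ξ)) = (0 : ℂ) := by
      intro m n hmn
      rw [← ContinuousLinearMap.adjoint_inner_right]
      have : (ContinuousLinearMap.adjoint (v m)) ((v n) (star (v n) ξ)) = 0 := by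
        have h2 : (star (v m) * v n) * star (v n) = 0 := by rw [horth m n hmn, zero_mul]
        exact congrArg (fun T : H →L[ℂ] H => T ξ) h2
      rw [this, inner_zero_right]
    have h4 : ∀ x : H, (inner ℂ x x : ℂ) = ((‖x‖ ^ 2 : ℝ) : ℂ) := fun x => by
      have := inner_self_eq_norm_sq_to_K (𝕜 := ℂ) x
      simpa using this
    have hyy : inner ℂ y y = ((∑ k ∈ s, ‖star (v k) ξ‖ ^ 2 : ℝ) : ℂ) := by
      rw [hy, sum_inner]
      push_cast
      refine Finset.sum_congr rfl fun k hk => ?_
      rw [inner_sum, Finset.sum_eq_single k]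
      · rw [h4, hnorm]; push_cast; rfl
      · intro b _ hb; exact hoi k b (Ne.symm hb)
      · intro h; exact absurd hk h
    have hξy : inner ℂ ξ y = ((∑ k ∈ s, ‖star (v k) ξ‖ ^ 2 : ℝ) : ℂ) := by
      rw [hy, inner_sum]
      push_cast
      refine Finset.sum_congr rfl fun k hk => ?_
      rw [← ContinuousLinearMap.adjoint_inner_left]
      have := h4 (star (v k) ξ)
      push_cast at this
      exact this
    have hyξ : inner ℂ y ξ = ((∑ k ∈ s, ‖star (v k) ξ‖ ^ 2 : ℝ) : ℂ) := by
      rw [← inner_conj_symm, hξy, Complex.conj_ofReal]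
    have h0 : (0 : ℝ) ≤ ‖ξ - y‖ ^ 2 := by positivity
    have h5 : ((‖ξ - y‖ ^ 2 : ℝ) : ℂ) = ((‖ξ‖ ^ 2 - ∑ k ∈ s, ‖star (v k) ξ‖ ^ 2 : ℝ) : ℂ) := by
      rw [← h4, inner_sub_left, inner_sub_right, inner_sub_right, hξy, hyξ, hyy, h4]
      push_cast
      ring
    have h6 := Complex.ofReal_injective h5
    linarith
  have hsum : ∀ ξ : H, Summable fun k => ‖star (v k) ξ‖ ^ 2 := by
    intro ξ
    exact summable_of_sum_le (fun k => by positivity) (hbes ξ)
  have horth' : ∀ (ξ : H) (a : ℕ → ℕ), (∀ m n, m ≠ n → a m ≠ a n) → ∀ m n, m ≠ n →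
      inner ℂ ((v (a m)) (star (v m) ξ)) ((v (a n)) (star (v n) ξ)) = (0 : ℂ) := by
    intro ξ a ha m n hmn
    rw [← ContinuousLinearMap.adjoint_inner_right]
    have : (ContinuousLinearMap.adjoint (v (a m))) ((v (a n)) (star (v n) ξ)) = 0 := by
      have h2 : (star (v (a m)) * v (a n)) * star (v n) = 0 := by
        rw [horth _ _ (ha m n hmn), zero_mul]
      exact congrArg (fun T : H →L[ℂ] H => T ξ) h2
    rw [this, inner_zero_right]
  have hsW : ∀ ξ : H, Summable fun k => (v (k + 1)) (star (v k) ξ) := by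
    intro ξ
    refine summable_of_orth_aux _ (horth' ξ (fun k => k + 1) (by intro m n h; omega)) ?_
    refine (hsum ξ).congr fun k => ?_
    rw [hnorm]
  have hsE : ∀ ξ : H, Summable fun k => (v k) (star (v k) ξ) := by
    intro ξ
    refine summable_of_orth_aux _ (horth' ξ (fun k => k) (by intro m n h; omega)) ?_
    refine (hsum ξ).congr fun k => ?_
    rw [hnorm]
  -- the limit
  let f : H → H := fun ξ => (∑' k, (v (k + 1)) (star (v k) ξ)) + (ξ - ∑' k, (v k) (star (v k) ξ))
  have hlim : ∀ ξ, Tendsto (fun N => U N ξ) atTop (𝓝 (f ξ)) := by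
    intro ξ
    have h1 := (hsW ξ).hasSum.tendsto_sum_nat
    have h2 := ((hsE ξ).hasSum.tendsto_sum_nat).comp (tendsto_add_atTop_nat 1)
    have h3 := h1.add (tendsto_const_nhds (x := ξ) |>.sub h2)
    refine h3.congr fun N => ?_
    simp [U, W, E]
  have hlim' : Tendsto (fun N ξ => U N ξ) atTop (𝓝 f) := tendsto_pi_nhds.2 hlim
  let u : H →L[ℂ] H := continuousLinearMapOfTendsto U hlim'
  have hu : ∀ ξ, u ξ = f ξ := fun ξ => rfl
  have hU : ∀ ξ, Tendsto (fun N => U N ξ) atTop (𝓝 (u ξ)) := hlim
  refine ⟨u, ?_, ?_, ?_⟩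
  · rw [← VonNeumannAlgebra.commutant_commutant M, VonNeumannAlgebra.mem_commutant_iff]
    intro g hg
    rw [VonNeumannAlgebra.mem_commutant_iff] at hg
    ext ξ
    have h1 : Tendsto (fun N => g (U N ξ)) atTop (𝓝 (g (u ξ))) :=
      (g.continuous.tendsto _).comp (hU ξ)
    have h2 : Tendsto (fun N => U N (g ξ)) atTop (𝓝 (u (g ξ))) := hU (g ξ)
    have h3 : (fun N => g (U N ξ)) = fun N => U N (g ξ) := by
      funext N
      have := hg (U N) (hUM N)
      exact (congrArg (fun T : H →L[ℂ] H => T ξ) this).symm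
    rw [h3] at h1
    exact tendsto_nhds_unique h1 h2
  · have hiso : ∀ ξ, ‖u ξ‖ = ‖ξ‖ := by
      intro ξ
      have h1 : Tendsto (fun N => ‖U N ξ‖ ^ 2) atTop (𝓝 (‖u ξ‖ ^ 2)) := (hU ξ).norm.pow 2
      have h2 : ∀ N, ‖U N ξ‖ ^ 2 = ‖ξ‖ ^ 2 - ‖star (v N) ξ‖ ^ 2 := by
        intro N
        have h4 : ∀ x : H, (inner ℂ x x : ℂ) = ((‖x‖ ^ 2 : ℝ) : ℂ) := fun x => by
          have := inner_self_eq_norm_sq_to_K (𝕜 := ℂ) x
          simpa using this
        have h5 : ((‖U N ξ‖ ^ 2 : ℝ) : ℂ) = ((‖ξ‖ ^ 2 - ‖star (v N) ξ‖ ^ 2 : ℝ) : ℂ) := by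
          rw [← h4, ← ContinuousLinearMap.adjoint_inner_right]
          have h6 : (ContinuousLinearMap.adjoint (U N)) (U N ξ) = ξ - (v N) (star (v N) ξ) :=
            congrArg (fun T : H →L[ℂ] H => T ξ) (hUU N)
          rw [h6, inner_sub_right, h4]
          have h7 : inner ℂ ξ ((v N) (star (v N) ξ)) = ((‖star (v N) ξ‖ ^ 2 : ℝ) : ℂ) := by
            rw [← ContinuousLinearMap.adjoint_inner_left]
            exact h4 (star (v N) ξ)
          rw [h7]
          push_cast
          ring
        exact Complex.ofReal_injective h5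
      have h3 : Tendsto (fun N => ‖ξ‖ ^ 2 - ‖star (v N) ξ‖ ^ 2) atTop (𝓝 (‖ξ‖ ^ 2 - 0)) :=
        tendsto_const_nhds.sub (hsum ξ).tendsto_atTop_zero
      have h8 : ‖u ξ‖ ^ 2 = ‖ξ‖ ^ 2 := by
        have := tendsto_nhds_unique h1 (h3.congr fun N => (h2 N).symm)
        simpa using this
      have := (sq_eq_sq₀ (norm_nonneg (u ξ)) (norm_nonneg ξ)).1 h8
      exact this
    exact (ContinuousLinearMap.norm_map_iff_adjoint_comp_self u).1 hiso
  · intro hcon
    have h1 : star (v 0) * u = 0 := by
      ext ξ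
      have h2 : Tendsto (fun N => (star (v 0)) (U N ξ)) atTop (𝓝 ((star (v 0)) (u ξ))) :=
        ((star (v 0)).continuous.tendsto _).comp (hU ξ)
      have h3 : (fun N => (star (v 0)) (U N ξ)) = fun _ => (0 : H) := by
        funext N
        exact congrArg (fun T : H →L[ℂ] H => T ξ) (hvU N)
      rw [h3] at h2
      exact tendsto_nhds_unique h2 tendsto_const_nhds
    have h2 : star (v 0) = 0 := by
      calc star (v 0) = star (v 0) * (u * star u) := by rw [hcon, mul_one]
        _ = 0 := by rw [← mul_assoc, h1, zero_mul]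
    apply hp0
    rw [← hv 0, h2, zero_mul]

end Pool.Agent.Helper187.Fac
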