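import Mathlib

namespace Pool.Agent.Helper187.Fac

variable {H : Type*} [NormedAddCommGroup H] [InnerProductSpace ℂ H] [CompleteSpace H]


theorem mul_proj_eq {v p : H →L[ℂ] H} (hp : IsStarProjection p) (hv : star v * v = p) :
    v * p = v := by
  have hpp : p * p = p := hp.isIdempotentElem
  have hps : star p = p := hp.isSelfAdjoint
  have h : star (v - v * p) * (v - v * p) = 0 := by
    rw [star_sub, star_mul, hps]
    have e1 : (star v - p * star v) * (v - v * p) =
        star v * v - star v * v * p - p * (star v * v) + p * (star v * v) * p := by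
      noncomm_ring
    rw [e1, hv, hpp, hpp]
    simp
  have := CStarRing.star_mul_self_eq_zero_iff (v - v * p) |>.1 h
  exact (sub_eq_zero.1 this).symm

/-- sum of range projections -/
noncomputable def rs (l : List (H →L[ℂ] H)) : H →L[ℂ] H := (l.map fun v => v * star v).sum

theorem rs_cons (v : H →L[ℂ] H) (l : List (H →L[ℂ] H)) : rs (v :: l) = v * star v + rs l := by
  simp [rs]

theorem rs_nil : rs ([] : List (H →L[ℂ] H)) = 0 := by simp [rs]

theorem rs_star (l : List (H →L[ℂ] H)) : star (rs l) = rs l := by
  induction l with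
  | nil => simp [rs_nil]
  | cons v l ih => rw [rs_cons, star_add, ih, star_mul, star_star]

theorem rs_mem (M : VonNeumannAlgebra H) (l : List (H →L[ℂ] H)) (hl : ∀ v ∈ l, v ∈ M) :
    rs l ∈ M := by
  induction l with
  | nil => rw [rs_nil]; exact zero_mem M
  | cons v l ih =>
    rw [rs_cons]
    have hv := hl v List.mem_cons_self
    exact add_mem (mul_mem hv (star_mem hv)) (ih fun u hu => hl u (List.mem_cons_of_mem _ hu))

theorem rs_mul_zero (l : List (H →L[ℂ] H)) (w : H →L[ℂ] H) (h : ∀ u ∈ l, star u * w = 0) :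
    rs l * w = 0 := by
  induction l with
  | nil => rw [rs_nil, zero_mul]
  | cons v l ih =>
    rw [rs_cons, add_mul, mul_assoc, h v List.mem_cons_self, mul_zero, zero_add]
    exact ih fun u hu => h u (List.mem_cons_of_mem _ hu)

theorem rs_mul_self {p : H →L[ℂ] H} (hp : IsStarProjection p) (l : List (H →L[ℂ] H))
    (h1 : ∀ v ∈ l, star v * v = p) (h2 : l.Pairwise fun x y => star x * y = 0) :
    ∀ v ∈ l, rs l * v = v := by
  induction l with
  | nil => simp
  | cons w l ih =>
    intro v hv
    rw [List.pairwise_cons] at h2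
    rw [rs_cons, add_mul]
    rcases List.mem_cons.1 hv with rfl | hv
    · have h3 : rs l * v = 0 := by
        refine rs_mul_zero l v fun u hu => ?_
        have := congrArg star (h2.1 u hu)
        rwa [star_mul, star_star, star_zero] at this
      rw [h3, add_zero, mul_assoc, h1 v List.mem_cons_self,
        mul_proj_eq hp (h1 v List.mem_cons_self)]
    · rw [mul_assoc, h2.1 v hv, mul_zero, zero_add]
      exact ih (fun u hu => h1 u (List.mem_cons_of_mem _ hu)) h2.2 v hv

theorem rs_idem_aux (e : H →L[ℂ] H) (l : List (H →L[ℂ] H)) (h : ∀ v ∈ l, e * v = v) :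
    e * rs l = rs l := by
  induction l with
  | nil => simp [rs_nil]
  | cons v l ih =>
    rw [rs_cons, mul_add, ← mul_assoc, h v List.mem_cons_self,
      ih fun u hu => h u (List.mem_cons_of_mem _ hu)]

/-- A tracial state on a finite factor is faithful. -/
theorem trace_faithful (M : VonNeumannAlgebra H)
    (hcomp : ∀ p ∈ M, ∀ q ∈ M, IsStarProjection p → IsStarProjection q →
      (∃ v ∈ M, star v * v = p ∧ q * (v * star v) = v * star v) ∨
      (∃ v ∈ M, star v * v = q ∧ p * (v * star v) = v * star v))
    (hinf : ∀ p : H →L[ℂ] H, p ≠ 0 → IsStarProjection p → ∀ v : ℕ → H →L[ℂ] H,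
      (∀ n, v n ∈ M) → (∀ n, star (v n) * v n = p) → (∀ m n, m ≠ n → star (v m) * v n = 0) → False)
    (hpi : ∀ x ∈ M, x ≠ 0 → ∃ a ∈ M, x * a ≠ 0 ∧ IsStarProjection (star (x * a) * (x * a)))
    (τ : (H →L[ℂ] H) → ℂ)
    (hadd : ∀ x ∈ M, ∀ y ∈ M, τ (x + y) = τ x + τ y)
    (hsmul : ∀ c : ℂ, ∀ x ∈ M, τ (c • x) = c * τ x)
    (hpos : ∀ x ∈ M, 0 ≤ (τ (star x * x)).re ∧ (τ (star x * x)).im = 0)
    (hone : τ 1 = 1) (htr : ∀ x ∈ M, ∀ y ∈ M, τ (x * y) = τ (y * x)) :
    ∀ x ∈ M, τ (star x * x) = 0 → x = 0 := by
  have hsm : ∀ (c : ℂ) (x : H →L[ℂ] H), x ∈ M → c • x ∈ M := fun c x hx =>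
    M.toStarSubalgebra.smul_mem hx c
  have hzero : τ 0 = 0 := by
    have := hsmul 0 0 (zero_mem M)
    simpa using this
  -- Cauchy-Schwarz
  have hcs : ∀ y ∈ M, ∀ z ∈ M, τ (star y * y) = 0 → τ (star y * z) = 0 := by
    intro y hy z hz hy0
    set A := τ (star y * z) with hA
    set B := τ (star z * y) with hB
    set D := τ (star z * z) with hD
    have key : ∀ c : ℂ, τ (star (c • y + z) * (c • y + z)) = star c * A + c * B + D := by
      intro c
      have e1 : star (c • y + z) * (c • y + z) =
          (star c * c) • (star y * y) + ((star c) • (star y * z) +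
            (c • (star z * y) + star z * z)) := by
        rw [star_add, star_smul, add_mul, mul_add, mul_add, smul_mul_smul_comm, smul_mul_assoc,
          mul_smul_comm]
        abel
      have m1 := mul_mem (star_mem hy) hy
      have m2 := mul_mem (star_mem hy) hz
      have m3 := mul_mem (star_mem hz) hy
      have m4 := mul_mem (star_mem hz) hz
      rw [e1, hadd _ (hsm _ _ m1) _ (add_mem (hsm _ _ m2) (add_mem (hsm _ _ m3) m4)),
        hadd _ (hsm _ _ m2) _ (add_mem (hsm _ _ m3) m4), hadd _ (hsm _ _ m3) _ m4,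
        hsmul _ _ m1, hsmul _ _ m2, hsmul _ _ m3, hy0]
      ring
    have hp : ∀ c : ℂ, 0 ≤ (star c * A + c * B + D).re ∧ (star c * A + c * B + D).im = 0 := by
      intro c
      rw [← key c]
      exact hpos _ (add_mem (hsm _ _ hy) hz)
    have h0 := hp 0
    have hDi : D.im = 0 := by simpa using h0.2
    have hr1 : ∀ t : ℝ, 0 ≤ t * (A.re + B.re) + D.re := by
      intro t
      have := (hp t).1
      simp at this
      linarith
    have hr2 : ∀ t : ℝ, 0 ≤ t * (A.im - B.im) + D.re := by
      intro t
      have := (hp (t * Complex.I)).1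
      simp at this
      linarith
    have hi1 : A.im + B.im = 0 := by
      have := (hp 1).2
      simp [hDi] at this
      linarith
    have hi2 : B.re - A.re = 0 := by
      have := (hp Complex.I).2
      simp [hDi] at this
      linarith
    have lin : ∀ a d : ℝ, (∀ t : ℝ, 0 ≤ t * a + d) → a = 0 := by
      intro a d h
      by_contra ha
      have := h (-(d + 1) / a)
      rw [div_mul_cancel₀ _ ha] at this
      linarith
    have h1 := lin _ _ hr1
    have h2 := lin _ _ hr2
    apply Complex.ext
    · simp; linarith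
    · simp; linarith
  intro x hx hx0
  by_contra hne
  obtain ⟨a, ha, hxa, hp⟩ := hpi x hx hne
  set p := star (x * a) * (x * a) with hpdef
  have hpM : p ∈ M := mul_mem (star_mem (mul_mem hx ha)) (mul_mem hx ha)
  have hp0 : p ≠ 0 := by
    intro h
    exact hxa ((CStarRing.star_mul_self_eq_zero_iff (x * a)).1 h)
  have hτp : τ p = 0 := by
    have e : p = star a * (star x * (x * a)) := by
      rw [hpdef, star_mul, mul_assoc]
    rw [e, htr _ (star_mem ha) _ (mul_mem (star_mem hx) (mul_mem hx ha)), mul_assoc]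
    exact hcs x hx _ (mul_mem (mul_mem hx ha) (star_mem ha)) hx0
  have hps : star p = p := hp.isSelfAdjoint
  have hpp : p * p = p := hp.isIdempotentElem
  have step : ∀ l : List (H →L[ℂ] H), (∀ v ∈ l, v ∈ M ∧ star v * v = p) →
      l.Pairwise (fun x y => star x * y = 0) →
      ∃ w, w ∈ M ∧ star w * w = p ∧ ∀ v ∈ l, star w * v = 0 := by
    intro l hl hpw
    have heM : rs l ∈ M := rs_mem M l fun v hv => (hl v hv).1
    have hev := rs_mul_self hp l (fun v hv => (hl v hv).2) hpw
    have hee : rs l * rs l = rs l := rs_idem_aux _ l hev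
    have hes := rs_star l
    have hτe : τ (rs l) = 0 := by
      clear hpw heM hev hee hes
      induction l with
      | nil => rw [rs_nil, hzero]
      | cons v l ih =>
        have hv := hl v List.mem_cons_self
        have hl' : ∀ u ∈ l, u ∈ M ∧ star u * u = p := fun u hu => hl u (List.mem_cons_of_mem _ hu)
        rw [rs_cons, hadd _ (mul_mem hv.1 (star_mem hv.1)) _ (rs_mem M l fun u hu => (hl' u hu).1),
          ih hl', htr _ hv.1 _ (star_mem hv.1), hv.2, hτp, add_zero]
    set q := 1 - rs l with hq
    have hqM : q ∈ M := sub_mem (one_mem M) heM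
    have hqP : IsStarProjection q := by
      refine ⟨?_, ?_⟩
      · show q * q = q
        rw [hq, mul_sub, sub_mul, mul_one, sub_mul, hee, one_mul]
        simp
      · show star q = q
        rw [hq, star_sub, star_one, hes]
    have hτq : τ q = 1 := by
      have : τ (q + rs l) = τ q + τ (rs l) := hadd _ hqM _ heM
      rw [hτe, add_zero, hq, sub_add_cancel, hone] at this
      exact this.symm
    rcases hcomp p hpM q hqM hp hqP with ⟨w, hw, hwp, hqw⟩ | ⟨w, hw, hwq, hpw'⟩
    · refine ⟨w, hw, hwp, fun v hv => ?_⟩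
      have h1 : star v * q = 0 := by
        have h2 := congrArg star (hev v hv)
        rw [star_mul, hes] at h2
        rw [hq, mul_sub, mul_one, h2, sub_self]
      have h3 : w * star w * w = w := by
        rw [mul_assoc, hwp, mul_proj_eq hp hwp]
      have h4 : star v * w = 0 := by
        rw [← h3, ← hqw, ← mul_assoc, ← mul_assoc, h1, zero_mul, zero_mul]
      have := congrArg star h4
      rwa [star_mul, star_star, star_zero] at this
    · exfalso
      have h1 : τ (w * star w) = 1 := by
        rw [htr _ hw _ (star_mem hw), hwq, hτq]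
      have h2 : τ (w * star w) = 0 := by
        rw [← hpw']
        have := hcs p hpM (w * star w) (mul_mem hw (star_mem hw)) (by rw [hps, hpp, hτp])
        rwa [hps] at this
      rw [h1] at h2
      exact one_ne_zero h2
  let St := {l : List (H →L[ℂ] H) // (∀ v ∈ l, v ∈ M ∧ star v * v = p) ∧
    l.Pairwise (fun x y => star x * y = 0)}
  have step' : ∀ s : St, ∃ w, w ∈ M ∧ star w * w = p ∧ ∀ v ∈ s.1, star w * v = 0 :=
    fun s => step s.1 s.2.1 s.2.2
  choose f hf1 hf2 hf3 using step'
  let nx : St → St := fun s => ⟨f s :: s.1, by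
    intro v hv
    rcases List.mem_cons.1 hv with rfl | hv
    · exact ⟨hf1 s, hf2 s⟩
    · exact s.2.1 v hv, List.pairwise_cons.2 ⟨hf3 s, s.2.2⟩⟩
  let sq : ℕ → St := fun n => nx^[n] ⟨[], by simp, by simp⟩
  have hsq : ∀ n, (sq (n + 1)).1 = f (sq n) :: (sq n).1 := by
    intro n
    show (nx^[n + 1] _).1 = _
    rw [Function.iterate_succ_apply']
  have hmem : ∀ n m, m < n → f (sq m) ∈ (sq n).1 := by
    intro n
    induction n with
    | zero => intro m hm; omega
    | succ n ih =>
      intro m hm
      rw [hsq]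
      rcases Nat.lt_succ_iff_lt_or_eq.1 hm with h | h
      · exact List.mem_cons_of_mem _ (ih m h)
      · subst h; exact List.mem_cons_self
  have hlt : ∀ m n, m < n → star (f (sq n)) * f (sq m) = 0 := fun m n h =>
    hf3 (sq n) _ (hmem n m h)
  refine hinf p hp0 hp (fun n => f (sq n)) (fun n => hf1 _) (fun n => hf2 _) fun m n hmn => ?_
  rcases lt_or_gt_of_ne hmn with h | h
  · have := congrArg star (hlt m n h)
    rwa [star_mul, star_star, star_zero] at this
  · exact hlt n m h

end Pool.Agent.Helper187.Fac
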