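import Mathlib

namespace Pool.Agent.Helper187.Fac

variable {H : Type*} [NormedAddCommGroup H] [InnerProductSpace ℂ H] [CompleteSpace H]

/-- An infinite dimensional factor with a faithful tracial state has no minimal projections. -/
theorem no_minimal (M : VonNeumannAlgebra H)
    (hcomp : ∀ p ∈ M, ∀ q ∈ M, IsStarProjection p → IsStarProjection q →
      (∃ v ∈ M, star v * v = p ∧ q * (v * star v) = v * star v) ∨
      (∃ v ∈ M, star v * v = q ∧ p * (v * star v) = v * star v))
    (hdense : ∀ e ∈ M, IsStarProjection e → ∀ x ∈ M, IsSelfAdjoint x → e * x = x →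
      ∀ ε : ℝ, 0 < ε →
      ∃ (n : ℕ) (p : Fin n → H →L[ℂ] H) (t : Fin n → ℝ), (∀ i, p i ∈ M) ∧
      (∀ i, IsStarProjection (p i)) ∧ (∀ i, e * p i = p i) ∧ (∀ i j, i ≠ j → p i * p j = 0) ∧
      ‖x - ∑ i, (t i : ℂ) • p i‖ < ε)
    (hdim : ¬ ∃ s : Finset (H →L[ℂ] H), ∀ x ∈ M, x ∈ Submodule.span ℂ (s : Set (H →L[ℂ] H)))
    (τ : (H →L[ℂ] H) → ℂ)
    (hadd : ∀ x ∈ M, ∀ y ∈ M, τ (x + y) = τ x + τ y)
    (hsmul : ∀ c : ℂ, ∀ x ∈ M, τ (c • x) = c * τ x)
    (hpos : ∀ x ∈ M, 0 ≤ (τ (star x * x)).re ∧ (τ (star x * x)).im = 0)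
    (hone : τ 1 = 1) (htr : ∀ x ∈ M, ∀ y ∈ M, τ (x * y) = τ (y * x))
    (hfaith : ∀ x ∈ M, τ (star x * x) = 0 → x = 0)
    (p : H →L[ℂ] H) (hpM : p ∈ M) (hp : IsStarProjection p) (hp0 : p ≠ 0) :
    ∃ q ∈ M, IsStarProjection q ∧ q ≠ 0 ∧ q ≠ p ∧ p * q = q := by
  classical
  by_contra hcon
  have hmin : ∀ q ∈ M, IsStarProjection q → p * q = q → q = 0 ∨ q = p := by
    intro q hq h1 h2
    by_contra h3
    push Not at h3
    exact hcon ⟨q, hq, h1, h3.1, h3.2, h2⟩
  have hpp : p * p = p := hp.isIdempotentElem.eq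
  have hps : star p = p := hp.isSelfAdjoint.star_eq
  have hsm : ∀ (c : ℂ) (x : H →L[ℂ] H), x ∈ M → c • x ∈ M := by
    intro c x hx
    exact M.toStarSubalgebra.smul_mem (x := x) hx c
  -- step 1
  have hsa : ∀ x ∈ M, IsSelfAdjoint x → p * x = x → x ∈ Submodule.span ℂ ({p} : Set (H →L[ℂ] H)) := by
    intro x hx hxs hpx
    have hcl : IsClosed ((Submodule.span ℂ ({p} : Set (H →L[ℂ] H)) : Submodule ℂ (H →L[ℂ] H)) : Set (H →L[ℂ] H)) :=
      Submodule.closed_of_finiteDimensional _
    have : x ∈ closure ((Submodule.span ℂ ({p} : Set (H →L[ℂ] H)) : Submodule ℂ (H →L[ℂ] H)) : Set (H →L[ℂ] H)) := by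
      rw [Metric.mem_closure_iff]
      intro ε hε
      obtain ⟨n, q, t, hqM, hqp, hpq, -, hlt⟩ := hdense p hpM hp x hx hxs hpx ε hε
      refine ⟨∑ i, (t i : ℂ) • q i, ?_, by rwa [dist_eq_norm]⟩
      refine Submodule.sum_mem _ fun i _ => Submodule.smul_mem _ _ ?_
      rcases hmin (q i) (hqM i) (hqp i) (hpq i) with h | h
      · rw [h]; exact Submodule.zero_mem _
      · rw [h]; exact Submodule.mem_span_singleton_self p
    rwa [hcl.closure_eq] at this
  have hgen : ∀ x ∈ M, ∃ c : ℂ, p * x * p = c • p := by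
    intro x hx
    have hy : p * x * p ∈ M := mul_mem (mul_mem hpM hx) hpM
    set y := p * x * p with hydef
    have hpy : p * y = y := by rw [hydef, ← mul_assoc, ← mul_assoc, hpp]
    have hpys : p * star y = star y := by
      rw [hydef, star_mul, star_mul, hps, ← mul_assoc, hpp]
    have ha := hsa ((2⁻¹ : ℂ) • (y + star y)) (hsm _ _ (add_mem hy (star_mem hy)))
      (by
        rw [IsSelfAdjoint, star_smul, star_add, star_star, add_comm (star y)]
        simp)
      (by rw [mul_smul_comm, mul_add, hpy, hpys])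
    have hb := hsa ((2⁻¹ * Complex.I : ℂ) • (star y - y)) (hsm _ _ (sub_mem (star_mem hy) hy))
      (by
        rw [IsSelfAdjoint, star_smul, star_sub, star_star, ← neg_sub, smul_neg, ← neg_smul]
        congr 1
        simp)
      (by rw [mul_smul_comm, mul_sub, hpy, hpys])
    have hy2 : y = (2⁻¹ : ℂ) • (y + star y) + Complex.I • ((2⁻¹ * Complex.I : ℂ) • (star y - y)) := by
      rw [smul_smul]
      have : Complex.I * (2⁻¹ * Complex.I) = -(2⁻¹ : ℂ) := by
        rw [mul_comm (2⁻¹ : ℂ), ← mul_assoc, Complex.I_mul_I]; ring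
      rw [this, smul_add, smul_sub, neg_smul, neg_smul, sub_neg_eq_add]
      have h2 : (2⁻¹ : ℂ) • y + (2⁻¹ : ℂ) • y = y := by
        rw [← add_smul]; norm_num
      calc y = (2⁻¹ : ℂ) • y + (2⁻¹ : ℂ) • y := h2.symm
        _ = _ := by abel
    have hmem : y ∈ Submodule.span ℂ ({p} : Set (H →L[ℂ] H)) := by
      rw [hy2]
      exact Submodule.add_mem _ ha (Submodule.smul_mem _ _ hb)
    obtain ⟨c, hc⟩ := Submodule.mem_span_singleton.1 hmem
    exact ⟨c, hc.symm⟩
  -- step 2
  have hτp : 0 < (τ p).re := by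
    have h1 := hpos p hpM
    rw [hps, hpp] at h1
    rcases h1.1.lt_or_eq with h | h
    · exact h
    · exfalso
      apply hp0
      apply hfaith p hpM
      rw [hps, hpp]
      exact Complex.ext h.symm h1.2
  have hvp : ∀ v : H →L[ℂ] H, star v * v = p → v * p = v := by
    intro v hv
    have h1 : star (v - v * p) * (v - v * p) = 0 := by
      rw [star_sub, star_mul, hps, sub_mul, mul_sub, mul_sub, hv, ← mul_assoc, hv, mul_assoc p,
        hv, hpp, ← mul_assoc, mul_assoc p, hv, hpp, hpp, sub_self]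
    rw [CStarRing.star_mul_self_eq_zero_iff, sub_eq_zero] at h1
    exact h1.symm
  have hpv : ∀ v : H →L[ℂ] H, star v * v = p → p * star v = star v := by
    intro v hv
    have := congrArg star (hvp v hv)
    rwa [star_mul, hps] at this
  let P : ℕ → Prop := fun n => ∃ v : Fin n → (H →L[ℂ] H), (∀ i, v i ∈ M) ∧
    (∀ i, star (v i) * v i = p) ∧ (∀ i j, i ≠ j → star (v i) * v j = 0)
  have hτsum : ∀ (n : ℕ) (f : Fin n → (H →L[ℂ] H)), (∀ i, f i ∈ M) → τ (∑ i, f i) = ∑ i, τ (f i) := by
    intro n
    induction n with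
    | zero =>
      intro f _
      simp only [Finset.univ_eq_empty, Finset.sum_empty]
      have := hsmul 0 1 (one_mem M)
      simpa using this
    | succ n ih =>
      intro f hf
      rw [Fin.sum_univ_succ, Fin.sum_univ_succ, hadd _ (hf 0) _ (sum_mem fun i _ => hf i.succ), ih _ fun i => hf i.succ]
  have hproj : ∀ (n : ℕ) (v : Fin n → (H →L[ℂ] H)), (∀ i, star (v i) * v i = p) →
      (∀ i j, i ≠ j → star (v i) * v j = 0) →
      (∑ i, v i * star (v i)) * (∑ i, v i * star (v i)) = ∑ i, v i * star (v i) := by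
    intro n v h1 h2
    rw [Finset.sum_mul]
    refine Finset.sum_congr rfl fun i _ => ?_
    rw [Finset.mul_sum, Finset.sum_eq_single i]
    · rw [mul_assoc, ← mul_assoc (star (v i)), h1 i, hpv _ (h1 i)]
    · intro j _ hj
      rw [mul_assoc, ← mul_assoc (star (v i)), h2 i j (Ne.symm hj), zero_mul, mul_zero]
    · intro h; exact absurd (Finset.mem_univ i) h
  have hstar : ∀ (n : ℕ) (v : Fin n → (H →L[ℂ] H)), star (∑ i, v i * star (v i)) = ∑ i, v i * star (v i) := by
    intro n v
    rw [star_sum]
    refine Finset.sum_congr rfl fun i _ => ?_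
    rw [star_mul, star_star]
  have hbound : ∀ n, P n → (n : ℝ) * (τ p).re ≤ 1 := by
    rintro n ⟨v, hvM, h1, h2⟩
    have heM : (∑ i, v i * star (v i)) ∈ M := sum_mem fun i _ => mul_mem (hvM i) (star_mem (hvM i))
    set e := ∑ i, v i * star (v i) with he
    have hee : e * e = e := hproj n v h1 h2
    have hes : star e = e := hstar n v
    have hτe : τ e = n * τ p := by
      rw [he, hτsum n _ fun i => mul_mem (hvM i) (star_mem (hvM i))]
      rw [Finset.sum_congr rfl fun i _ => (htr (v i) (hvM i) (star (v i)) (star_mem (hvM i)))]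
      simp [h1]
    have h3 := (hpos (1 - e) (sub_mem (one_mem M) heM)).1
    have h4 : star (1 - e) * (1 - e) = 1 + (-1 : ℂ) • e := by
      rw [star_sub, star_one, hes, sub_mul, mul_sub, mul_sub, hee, one_mul, mul_one, one_mul, sub_self, sub_zero]
      rw [neg_smul, one_smul, ← sub_eq_add_neg]
    rw [h4, hadd _ (one_mem M) _ (hsm _ _ heM), hsmul _ _ heM, hone, hτe] at h3
    simp at h3
    linarith
  have hex : ∃ n, P n ∧ ¬ P (n + 1) := by
    by_contra hno
    push Not at hno
    have hall : ∀ n, P n := by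
      intro n
      induction n with
      | zero => exact ⟨fun i => i.elim0, fun i => i.elim0, fun i => i.elim0, fun i => i.elim0⟩
      | succ n ih => exact hno n ih
    obtain ⟨n, hn⟩ := exists_nat_gt (1 / (τ p).re)
    have h1 := hbound n (hall n)
    rw [div_lt_iff₀ hτp] at hn
    linarith
  obtain ⟨n, ⟨v, hvM, h1, h2⟩, hmax⟩ := hex
  have heM : (∑ i, v i * star (v i)) ∈ M := sum_mem fun i _ => mul_mem (hvM i) (star_mem (hvM i))
  set e := ∑ i, v i * star (v i) with he
  have hee : e * e = e := hproj n v h1 h2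
  have hes : star e = e := hstar n v
  have hve : ∀ i, star (v i) * e = star (v i) := by
    intro i
    rw [he, Finset.mul_sum, Finset.sum_eq_single i]
    · rw [← mul_assoc, h1 i, hpv _ (h1 i)]
    · intro j _ hj
      rw [← mul_assoc, h2 i j (Ne.symm hj), zero_mul]
    · intro h; exact absurd (Finset.mem_univ i) h
  have hrM : (1 - e) ∈ M := sub_mem (one_mem M) heM
  have hrr : (1 - e) * (1 - e) = 1 - e := by
    rw [sub_mul, mul_sub, mul_sub, hee, one_mul, mul_one, one_mul, sub_self, sub_zero]
  have hrs : star (1 - e) = 1 - e := by rw [star_sub, star_one, hes]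
  have hvr : ∀ i, star (v i) * (1 - e) = 0 := by
    intro i; rw [mul_sub, mul_one, hve, sub_self]
  have happ : ∀ w ∈ M, star w * w = p → (1 - e) * (w * star w) = w * star w → False := by
    intro w hw hw1 hw2
    apply hmax
    have h3 : ∀ i, star (v i) * w = 0 := by
      intro i
      have h4 : (star (v i) * w) * star (star (v i) * w) = 0 := by
        rw [star_mul, star_star]
        calc star (v i) * w * (star w * v i) = star (v i) * (w * star w) * v i := by
              simp only [mul_assoc]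
          _ = star (v i) * ((1 - e) * (w * star w)) * v i := by rw [hw2]
          _ = (star (v i) * (1 - e)) * (w * star w) * v i := by simp only [mul_assoc]
          _ = 0 := by rw [hvr, zero_mul, zero_mul]
      exact (CStarRing.mul_star_self_eq_zero_iff _).1 h4
    have h5 : ∀ i, star w * v i = 0 := by
      intro i
      have := congrArg star (h3 i)
      rwa [star_mul, star_star, star_zero] at this
    refine ⟨Fin.cons w v, ?_, ?_, ?_⟩
    · intro i
      refine Fin.cases ?_ (fun j => ?_) i
      · simpa using hw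
      · simpa using hvM j
    · intro i
      refine Fin.cases ?_ (fun j => ?_) i
      · simpa using hw1
      · simpa using h1 j
    · intro i j
      refine Fin.cases ?_ (fun i' => ?_) i
      · refine Fin.cases ?_ (fun j' => ?_) j
        · intro h; exact absurd rfl h
        · intro _; simpa using h5 j'
      · refine Fin.cases ?_ (fun j' => ?_) j
        · intro _; simpa using h3 i'
        · intro h
          simpa using h2 i' j' (fun h' => h (by rw [h']))
  have hr0 : 1 - e = 0 := by
    rcases hcomp p hpM (1 - e) hrM hp ⟨hrr, hrs⟩ with ⟨w, hw, hw1, hw2⟩ | ⟨w, hw, hw1, hw2⟩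
    · exact (happ w hw hw1 hw2).elim
    · have hwr : w * (1 - e) = w := by
        have hgenr : ∀ (u r : H →L[ℂ] H), star u * u = r → r * r = r → star r = r → u * r = u := by
          intro u r hu1 hr1 hr2
          have h3 : star (u - u * r) * (u - u * r) = 0 := by
            rw [star_sub, star_mul, hr2, sub_mul, mul_sub, mul_sub, hu1, ← mul_assoc, hu1,
              mul_assoc r, hu1, hr1, ← mul_assoc, mul_assoc r, hu1, hr1, hr1, sub_self]
          rw [CStarRing.star_mul_self_eq_zero_iff, sub_eq_zero] at h3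
          exact h3.symm
        exact hgenr w (1 - e) hw1 hrr hrs
      have hproj2 : IsStarProjection (w * star w) := by
        refine ⟨?_, ?_⟩
        · show w * star w * (w * star w) = w * star w
          rw [mul_assoc, ← mul_assoc (star w), hw1, ← mul_assoc, hwr]
        · rw [IsSelfAdjoint, star_mul, star_star]
      rcases hmin _ (mul_mem hw (star_mem hw)) hproj2 hw2 with h | h
      · have hw0 : w = 0 := (CStarRing.mul_star_self_eq_zero_iff _).1 h
        rw [← hw1, hw0, mul_zero]
      · exfalso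
        refine happ (star w) (star_mem hw) (by rw [star_star]; exact h) ?_
        rw [star_star, hw1, hrr]
  have he1 : e = 1 := (sub_eq_zero.1 hr0).symm
  apply hdim
  refine ⟨(Finset.univ : Finset (Fin n × Fin n)).image fun ij => v ij.1 * star (v ij.2), ?_⟩
  intro x hx
  have hxx : x = ∑ i, ∑ j, v i * (star (v i) * x * v j) * star (v j) := by
    calc x = e * x * e := by rw [he1, one_mul, mul_one]
      _ = _ := by
        rw [he, Finset.sum_mul, Finset.sum_mul]
        refine Finset.sum_congr rfl fun i _ => ?_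
        rw [Finset.mul_sum]
        refine Finset.sum_congr rfl fun j _ => ?_
        simp only [mul_assoc]
  rw [hxx]
  refine Submodule.sum_mem _ fun i _ => Submodule.sum_mem _ fun j _ => ?_
  obtain ⟨c, hc⟩ := hgen (star (v i) * x * v j) (mul_mem (mul_mem (star_mem (hvM i)) hx) (hvM j))
  have h6 : p * (star (v i) * x * v j) * p = star (v i) * x * v j := by
    rw [mul_assoc (star (v i)), ← mul_assoc p, hpv _ (h1 i), mul_assoc, mul_assoc x, hvp _ (h1 j)]
  rw [← h6, hc, mul_smul_comm, smul_mul_assoc, hvp _ (h1 i)]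
  refine Submodule.smul_mem _ _ (Submodule.subset_span ?_)
  rw [Finset.coe_image]
  exact ⟨(i, j), by simp, rfl⟩

end Pool.Agent.Helper187.Fac
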