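import Mathlib
import Pool.Agent.Helper187.Fac.V1
import Pool.Agent.Helper187.Fac.V2
import Pool.Agent.Helper187.Fac.V3
import Pool.Agent.Helper187.Fac.V4
import Pool.Agent.Helper187.Fac.V5
import Pool.Agent.Helper187.Fac.V6
import Pool.Agent.Helper187.Fac.V7
import Pool.Agent.Helper187.Fac.Abs

namespace Pool.Agent.Helper187.Fac

variable {H : Type*} [NormedAddCommGroup H] [InnerProductSpace ℂ H] [CompleteSpace H]

theorem vn_local (M : VonNeumannAlgebra H)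
    (hfac : ∀ z ∈ M, (∀ x ∈ M, z * x = x * z) → ∃ c : ℂ, z = algebraMap ℂ (H →L[ℂ] H) c) :
    ∀ p ∈ M, ∀ q ∈ M, IsStarProjection p → IsStarProjection q → p ≠ 0 → q ≠ 0 →
      ∃ v ∈ M, v ≠ 0 ∧ IsStarProjection (star v * v) ∧ IsStarProjection (v * star v) ∧
        q * v = v ∧ v * p = v := by
  intro p hpM q hqM hp hq hp0 hq0
  obtain ⟨x, hx, hx0⟩ := exists_corner_ne_zero M hfac p q hpM hqM hp hq hp0 hq0
  obtain ⟨v, hv, hv0, h1, h2, h3, h4, _⟩ := exists_partialIsometry M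
    (fun y hy => exists_rangeProj M y hy) (q * x * p) p q
    (mul_mem (mul_mem hqM hx) hpM) hx0 hp hq
    (by rw [← mul_assoc, ← mul_assoc, hq.isIdempotentElem.eq])
    (by rw [mul_assoc, hp.isIdempotentElem.eq])
  exact ⟨v, hv, hv0, h1, h2, h3, h4⟩

theorem vn_comp (M : VonNeumannAlgebra H)
    (hfac : ∀ z ∈ M, (∀ x ∈ M, z * x = x * z) → ∃ c : ℂ, z = algebraMap ℂ (H →L[ℂ] H) c) :
    ∀ p ∈ M, ∀ q ∈ M, IsStarProjection p → IsStarProjection q →
      (∃ v ∈ M, star v * v = p ∧ q * (v * star v) = v * star v) ∨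
      (∃ v ∈ M, star v * v = q ∧ p * (v * star v) = v * star v) :=
  fun p hpM q hqM hp hq => comparison M (vn_local M hfac) p q hpM hqM hp hq

theorem vn_dense (M : VonNeumannAlgebra H) :
    ∀ e ∈ M, IsStarProjection e → ∀ x ∈ M, IsSelfAdjoint x → e * x = x →
      ∀ ε : ℝ, 0 < ε →
      ∃ (n : ℕ) (p : Fin n → H →L[ℂ] H) (t : Fin n → ℝ), (∀ i, p i ∈ M) ∧
      (∀ i, IsStarProjection (p i)) ∧ (∀ i, e * p i = p i) ∧ (∀ i j, i ≠ j → p i * p j = 0) ∧
      ‖x - ∑ i, (t i : ℂ) • p i‖ < ε :=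
  fun e heM he x hxM hx hex ε hε =>
    dense_projections M (fun y hy => exists_rangeProj M y hy) e heM he x hxM hx hex ε hε

theorem vn_noseq (M : VonNeumannAlgebra H)
    (hfin : ∀ u ∈ M, star u * u = 1 → u * star u = 1) :
    ∀ p : H →L[ℂ] H, p ≠ 0 → IsStarProjection p → ∀ v : ℕ → H →L[ℂ] H,
      (∀ n, v n ∈ M) → (∀ n, star (v n) * v n = p) → (∀ m n, m ≠ n → star (v m) * v n = 0) →
      False := by
  intro p hp0 hp v hvM hv horth
  obtain ⟨u, hu, h1, h2⟩ := exists_nonunitary_isometry M p hp0 hp v hvM hv horth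
  exact h2 (hfin u hu h1)

theorem vn_pi (M : VonNeumannAlgebra H) :
    ∀ x ∈ M, x ≠ 0 → ∃ a ∈ M, x * a ≠ 0 ∧ IsStarProjection (star (x * a) * (x * a)) := by
  intro x hx hx0
  obtain ⟨v, hv, hv0, h1, _, _, _, a, ha, hva⟩ := exists_partialIsometry M
    (fun y hy => exists_rangeProj M y hy) x 1 1 hx hx0 (IsStarProjection.one _)
    (IsStarProjection.one _) (one_mul _) (mul_one _)
  exact ⟨a, ha, hva ▸ hv0, hva ▸ h1⟩

theorem proj_coe {S : StarSubalgebra ℂ (H →L[ℂ] H)} (p : S) :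
    IsStarProjection p ↔ IsStarProjection (p : H →L[ℂ] H) := by
  constructor
  · intro h
    refine ⟨?_, ?_⟩
    · have := congrArg (Subtype.val) h.isIdempotentElem.eq
      exact this
    · have := congrArg (Subtype.val) h.isSelfAdjoint.star_eq
      exact this
  · intro h
    refine ⟨?_, ?_⟩
    · exact Subtype.ext h.isIdempotentElem.eq
    · exact Subtype.ext h.isSelfAdjoint.star_eq

/-- The theorem for a factor of type `II₁`. -/
theorem vn_main (M : VonNeumannAlgebra H)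
    (hfac : ∀ z ∈ M, (∀ x ∈ M, z * x = x * z) → ∃ c : ℂ, z = algebraMap ℂ (H →L[ℂ] H) c)
    (hfin : ∀ u ∈ M, star u * u = 1 → u * star u = 1)
    (hdim : ¬ ∃ s : Finset (H →L[ℂ] H), ∀ x ∈ M, x ∈ Submodule.span ℂ (s : Set (H →L[ℂ] H)))
    (τ : (H →L[ℂ] H) → ℂ)
    (hadd : ∀ x ∈ M, ∀ y ∈ M, τ (x + y) = τ x + τ y)
    (hsmul : ∀ c : ℂ, ∀ x ∈ M, τ (c • x) = c * τ x)
    (hpos : ∀ x ∈ M, 0 ≤ (τ (star x * x)).re ∧ (τ (star x * x)).im = 0)
    (hone : τ 1 = 1) (htr : ∀ x ∈ M, ∀ y ∈ M, τ (x * y) = τ (y * x))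
    (T : (H →L[ℂ] H) → (H →L[ℂ] H))
    (hTM : ∀ x ∈ M, T x ∈ M)
    (hTadd : ∀ x ∈ M, ∀ y ∈ M, T (x + y) = T x + T y)
    (hTsmul : ∀ c : ℂ, ∀ x ∈ M, T (c • x) = c • T x)
    (hT1 : T 1 = 1)
    (hTsurj : ∀ y ∈ M, ∃ x ∈ M, T x = y)
    (C : NNReal) (hspec : ∀ x ∈ M,
            spectralRadius ℂ (T x) ≤ (C : ENNReal) * spectralRadius ℂ x) :
    ∃ S : (H →L[ℂ] H) → (H →L[ℂ] H),
      Set.BijOn S (M : Set (H →L[ℂ] H)) (M : Set (H →L[ℂ] H)) ∧
      (∀ x ∈ M, ∀ y ∈ M, S (x + y) = S x + S y) ∧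
      (∀ c : ℂ, ∀ x ∈ M, S (c • x) = c • S x) ∧
      (∀ x ∈ M, S (x * x) = S x * S x) ∧
      ∃ γ : ℂ, γ ≠ 0 ∧
        ∀ x ∈ M, T x = γ • S x + (1 - γ) • algebraMap ℂ (H →L[ℂ] H) (τ x) := by
  classical
  have hfaith := trace_faithful M (vn_comp M hfac) (vn_noseq M hfin) (vn_pi M) τ hadd hsmul hpos
    hone htr
  have hdiff := fun p hpM hp hp0 => no_minimal M (vn_comp M hfac) (vn_dense M) hdim τ hadd hsmul
    hpos hone htr hfaith p hpM hp hp0
  let SA : StarSubalgebra ℂ (H →L[ℂ] H) := M.toStarSubalgebra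
  have hmem : ∀ x, x ∈ SA ↔ x ∈ M := fun x => Iff.rfl
  have hcl : IsClosed (SA : Set (H →L[ℂ] H)) := by
    have h1 : (SA : Set (H →L[ℂ] H)) = Set.centralizer (Set.centralizer (M : Set (H →L[ℂ] H))) :=
      (VonNeumannAlgebra.centralizer_centralizer M).symm
    rw [h1]
    exact Set.isClosed_centralizer _
  letI : CStarAlgebra SA := StarSubalgebra.cstarAlgebra SA
  let τ' : SA →ₗ[ℂ] ℂ :=
    { toFun := fun x => τ x.1
      map_add' := fun x y => hadd _ x.2 _ y.2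
      map_smul' := fun c x => hsmul c _ x.2 }
  have hτ' : ∀ x : SA, τ' x = τ x.1 := fun x => rfl
  let T' : SA →ₗ[ℂ] SA :=
    { toFun := fun x => ⟨T x.1, hTM _ x.2⟩
      map_add' := fun x y => Subtype.ext (hTadd _ x.2 _ y.2)
      map_smul' := fun c x => Subtype.ext (hTsmul c _ x.2) }
  have hT' : ∀ x : SA, (T' x).1 = T x.1 := fun x => rfl
  have hsr : ∀ x : SA, spectralRadius ℂ x = spectralRadius ℂ (x : H →L[ℂ] H) := by
    intro x
    unfold spectralRadius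
    rw [StarSubalgebra.spectrum_eq SA]
  obtain ⟨S, hbij, hJ, γ, hγ, hTS⟩ := abstract_main τ' (fun x => hpos _ x.2) hone
    (fun x y => htr _ x.2 _ y.2) (fun x hx => Subtype.ext (hfaith _ x.2 hx))
    (by
      intro p q hp hq
      rcases vn_comp M hfac p.1 p.2 q.1 q.2 ((proj_coe p).1 hp) ((proj_coe q).1 hq) with
        ⟨v, hv, h1, h2⟩ | ⟨v, hv, h1, h2⟩
      · exact Or.inl ⟨⟨v, hv⟩, Subtype.ext h1, Subtype.ext h2⟩
      · exact Or.inr ⟨⟨v, hv⟩, Subtype.ext h1, Subtype.ext h2⟩)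
    (by
      intro e he x hx hex ε hε
      obtain ⟨n, p, t, hpM, hp, hep, horth, hn⟩ := vn_dense M e.1 e.2 ((proj_coe e).1 he) x.1 x.2
        (congrArg Subtype.val hx) (congrArg Subtype.val hex) ε hε
      refine ⟨n, fun i => ⟨p i, hpM i⟩, t, fun i => (proj_coe _).2 (hp i),
        fun i => Subtype.ext (hep i), fun i j hij => Subtype.ext (horth i j hij), ?_⟩
      have e1 : ((x - ∑ i, (t i : ℂ) • (⟨p i, hpM i⟩ : SA) : SA) : H →L[ℂ] H) =
          x.1 - ∑ i, (t i : ℂ) • p i := by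
        simp
      have e2 : ‖x - ∑ i, (t i : ℂ) • (⟨p i, hpM i⟩ : SA)‖ =
          ‖((x - ∑ i, (t i : ℂ) • (⟨p i, hpM i⟩ : SA) : SA) : H →L[ℂ] H)‖ := rfl
      rw [e2, e1]
      exact hn)
    (by
      intro p hp hp0
      obtain ⟨q, hqM, h1, h2, h3, h4⟩ := hdiff p.1 p.2 ((proj_coe p).1 hp)
        (fun h => hp0 (Subtype.ext h))
      exact ⟨⟨q, hqM⟩, (proj_coe _).2 h1, fun h => h2 (congrArg Subtype.val h),
        fun h => h3 (congrArg Subtype.val h), Subtype.ext h4⟩)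
    T' (Subtype.ext hT1)
    (by
      intro y
      obtain ⟨x, hx, hxy⟩ := hTsurj y.1 y.2
      exact ⟨⟨x, hx⟩, Subtype.ext hxy⟩) C
    (by
      intro x
      rw [hsr, hsr]
      exact hspec _ x.2)
  refine ⟨fun x => if h : x ∈ M then (S ⟨x, h⟩).1 else 0, ⟨?_, ?_, ?_⟩, ?_, ?_, ?_, γ, hγ, ?_⟩
  · intro x hx
    have hx' : x ∈ M := hx
    simp only [hx', dif_pos]
    exact (S ⟨x, hx'⟩).2
  · intro x hx y hy hxy
    have hx' : x ∈ M := hx
    have hy' : y ∈ M := hy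
    simp only [hx', hy', dif_pos] at hxy
    have := hbij.1 (Subtype.ext hxy)
    exact congrArg Subtype.val this
  · intro y hy
    obtain ⟨x, hx⟩ := hbij.2 ⟨y, hy⟩
    refine ⟨x.1, x.2, ?_⟩
    have hx' : x.1 ∈ M := x.2
    simp only [hx', dif_pos]
    exact congrArg Subtype.val hx
  · intro x hx y hy
    simp only [hx, hy, add_mem hx hy, dif_pos]
    have := S.map_add ⟨x, hx⟩ ⟨y, hy⟩
    exact congrArg Subtype.val this
  · intro c x hx
    have hcx : c • x ∈ M := SA.smul_mem hx c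
    simp only [hx, hcx, dif_pos]
    have := S.map_smul c ⟨x, hx⟩
    exact congrArg Subtype.val this
  · intro x hx
    simp only [hx, mul_mem hx hx, dif_pos]
    have := hJ ⟨x, hx⟩
    exact congrArg Subtype.val this
  · intro x hx
    simp only [hx, dif_pos]
    have := hTS ⟨x, hx⟩
    exact congrArg Subtype.val this

end Pool.Agent.Helper187.Fac
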